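import Pool.Agent.KS6_53.V5.Bl2
import Pool.Agent.KS6_53.V5.Ln2

set_option autoImplicit false

namespace Pool.Agent.KS6_53.Y4

open Finset Filter Topology Pool.Agent.KS6_53.V5

/-- the set of the tails -/
def TS (X G : ℝ) (n : ℕ) : Set (ℕ × (Fin 5 → ℤ)) :=
  {z | G ≤ z.1 ∧ Unimod z.2 ∧ mm z.2 ≠ 0 ∧ nz z.2 ≤ X ∧ z.1 * n ∣ gg z.2}

theorem sum_inv_sq_ge (a N : ℕ) (ha : 1 ≤ a) :
    ∑ g ∈ Finset.Icc a N, 1 / (g : ℝ) ^ 2 ≤ (2 : ℝ) / a := by
  have ha0 : (0 : ℝ) < a := by exact_mod_cast ha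
  have key : ∀ N : ℕ, a ≤ N → ∑ g ∈ Finset.Icc a N, 1 / (g : ℝ) ^ 2 ≤ (2 : ℝ) / a - (1 : ℝ) / N := by
    intro N hN
    induction N, hN using Nat.le_induction with
    | base =>
      rw [Finset.Icc_self, Finset.sum_singleton]
      have : (2 : ℝ) / (a : ℝ) - 1 / a = 1 / a := by ring
      rw [this]
      exact one_div_le_one_div_of_le ha0 (by
        have : (1 : ℝ) ≤ a := by exact_mod_cast ha
        nlinarith)
    | succ N hN ih =>
      rw [← Finset.insert_Icc_right_eq_Icc_add_one (by omega), Finset.sum_insert (by simp)]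
      have hN0 : (0 : ℝ) < N := by
        have : 0 < N := by omega
        exact_mod_cast this
      have h1 : 1 / ((N + 1 : ℕ) : ℝ) ^ 2 ≤ (1 : ℝ) / N - 1 / ((N + 1 : ℕ) : ℝ) := by
        push_cast
        rw [div_sub_div _ _ hN0.ne' (by positivity), div_le_div_iff₀ (by positivity) (by positivity)]
        nlinarith
      linarith
  by_cases h : a ≤ N
  · have := key N h
    have h2 : (0 : ℝ) ≤ (1 : ℝ) / N := by positivity
    linarith
  · rw [Finset.Icc_eq_empty h, Finset.sum_empty]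
    positivity

theorem tl2 : ∃ C : ℝ, 0 < C ∧ ∀ (X G : ℝ) (n : ℕ), 0 < X → 0 < G → 1 ≤ n → (TS X G n).Finite ∧
    ((TS X G n).ncard : ℝ) ≤ C * (X ^ 5 / (G * (n : ℝ) ^ (7 / 6 : ℝ))) := by
  classical
  obtain ⟨C1, hC1, h1⟩ := tl
  refine ⟨2 * 4 ^ 5 + 4 ^ 5 + 2 * C1, by positivity, fun X G n hX hG hn => ?_⟩
  have hfin : (TS X G n).Finite := (h1 X G n hX hG hn).1
  refine ⟨hfin, ?_⟩
  have hn1 : (1 : ℝ) ≤ n := by exact_mod_cast hn
  have hn0 : (0 : ℝ) < n := by linarith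
  by_cases hX1 : X < 1
  · have : TS X G n = ∅ := by
      ext z
      simp only [TS, Set.mem_ofPred_eq, Set.mem_empty_iff_false, iff_false]
      rintro ⟨-, h2, -, h3, -⟩
      linarith [one_le_nz' h2]
    rw [this, Set.ncard_empty, Nat.cast_zero]
    positivity
  push Not at hX1
  set u : ℝ := (n : ℝ) ^ (1 / 6 : ℝ) with hu
  have hu1 : 1 ≤ u := Real.one_le_rpow hn1 (by norm_num)
  have hu0 : 0 < u := by linarith
  have hu6 : u ^ 6 = n := by
    rw [hu, ← Real.rpow_natCast, ← Real.rpow_mul hn0.le]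
    norm_num
  have hn76 : (n : ℝ) ^ (7 / 6 : ℝ) = n * u := by
    rw [hu, ← Real.rpow_one_add' hn0.le (by norm_num)]
    norm_num
  rw [hn76]
  set M1 : ℝ := X * u / n with hM1
  have hM10 : 0 < M1 := by positivity
  -- finiteness of the pieces
  have hbox : ∀ q : ℕ, 1 ≤ q → {x : Fin 5 → ℤ | nz x ≤ X ∧ red q x ∈ CC q}.Finite ∧
      ({x : Fin 5 → ℤ | nz x ≤ X ∧ red q x ∈ CC q}.ncard : ℝ) ≤ (2 * X / q + 2) ^ 5 * (q : ℝ) ^ 3 := by
    intro q hq
    obtain ⟨b1, b2⟩ := box q hq (fun _ => 0) X hX.le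
    have hs : {x : Fin 5 → ℤ | nz x ≤ X ∧ red q x ∈ CC q} ⊆
        {x : Fin 5 → ℤ | (∀ i, |(x i : ℝ) - 0| ≤ X) ∧ red q x ∈ CC q} := by
      rintro x ⟨h2, h3⟩
      refine ⟨fun i => ?_, h3⟩
      rw [sub_zero]
      exact (le_nz x i).trans h2
    exact ⟨b1.subset hs, le_trans (by exact_mod_cast Set.ncard_le_ncard hs b1) b2⟩
  -- count of a piece
  have hpiece : ∀ (I : Finset ℕ) (f : ℕ → ℝ), (∀ g ∈ I, 1 ≤ g) →
      (∀ g ∈ I, (2 * X / ((g * n : ℕ) : ℝ) + 2) ^ 5 * ((g * n : ℕ) : ℝ) ^ 3 ≤ f g) →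
      {z ∈ TS X G n | z.1 ∈ I}.Finite ∧ ({z ∈ TS X G n | z.1 ∈ I}.ncard : ℝ) ≤ ∑ g ∈ I, f g := by
    intro I f hI hf
    have hfi : {z ∈ TS X G n | z.1 ∈ I}.Finite := hfin.subset fun z hz => hz.1
    refine ⟨hfi, ?_⟩
    let B : ℕ → Set (Fin 5 → ℤ) := fun g => {x | 1 ≤ g ∧ nz x ≤ X ∧ red (g * n) x ∈ CC (g * n)}
    have hB : ∀ g, (B g).Finite := fun g => (nz_fin X).subset fun x hx => hx.2.1
    have hsub : hfi.toFinset ⊆ I.biUnion fun g => (hB g).toFinset.image fun x => (g, x) := by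
      rintro ⟨g, x⟩ hz
      rw [Set.Finite.mem_toFinset] at hz
      obtain ⟨⟨a1, a2, a3, a4, a5⟩, a6⟩ := hz
      simp only at a1 a2 a3 a4 a5 a6
      rw [Finset.mem_biUnion]
      refine ⟨g, a6, ?_⟩
      rw [Finset.mem_image]
      refine ⟨x, ?_, rfl⟩
      rw [Set.Finite.mem_toFinset]
      exact ⟨hI g a6, a4, red_mem_CC a2 a5⟩
    rw [Set.ncard_eq_toFinset_card _ hfi]
    have hc := (Finset.card_le_card hsub).trans Finset.card_biUnion_le
    refine le_trans (b := ((∑ g ∈ I, ((hB g).toFinset.image fun x => (g, x)).card : ℕ) : ℝ))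
      (by exact_mod_cast hc) ?_
    push_cast
    refine Finset.sum_le_sum fun g hg => ?_
    refine le_trans ?_ (hf g hg)
    obtain ⟨b1, b2⟩ := hbox (g * n) (Nat.mul_pos (hI g hg) hn)
    refine le_trans ?_ b2
    have e1 : ((hB g).toFinset.image fun x => (g, x)).card ≤ (B g).ncard := by
      rw [Set.ncard_eq_toFinset_card _ (hB g)]
      exact Finset.card_image_le
    have e2 : (B g).ncard ≤ {x : Fin 5 → ℤ | nz x ≤ X ∧ red (g * n) x ∈ CC (g * n)}.ncard :=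
      Set.ncard_le_ncard (fun x hx => hx.2) b1
    exact_mod_cast e1.trans e2
  -- the three pieces
  set ga : ℕ := max ⌈G⌉₊ 1 with hga
  have hga1 : 1 ≤ ga := le_max_right _ _
  have hgaG : G ≤ ga := (Nat.le_ceil G).trans (by exact_mod_cast le_max_left _ _)
  have hgaGG : ∀ g : ℕ, 1 ≤ g → G ≤ g → ga ≤ g := fun g h2 h3 => max_le (Nat.ceil_le.2 h3) h2
  set I1 : Finset ℕ := Finset.Icc ga ⌊X / n⌋₊ with hI1
  set I2 : Finset ℕ := (Finset.Icc ga ⌊M1⌋₊).filter (fun g => X < ((g * n : ℕ) : ℝ)) with hI2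
  obtain ⟨f1, c1⟩ := hpiece I1 (fun g => 4 ^ 5 * X ^ 5 / n ^ 2 * (1 / (g : ℝ) ^ 2))
    (fun g hg => hga1.trans (Finset.mem_Icc.1 hg).1) (by
      intro g hg
      rw [hI1, Finset.mem_Icc] at hg
      have hg1 : 1 ≤ g := hga1.trans hg.1
      have hg0 : (0 : ℝ) < g := by exact_mod_cast hg1
      have hgX : (g : ℝ) ≤ X / n := le_trans (by exact_mod_cast hg.2) (Nat.floor_le (by positivity))
      rw [le_div_iff₀ hn0] at hgX
      push_cast
      have e1 : 2 * X / (g * n) + 2 ≤ 4 * X / (g * n) := by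
        rw [div_add' _ _ _ (by positivity), div_le_div_iff_of_pos_right (by positivity)]
        linarith
      calc (2 * X / (g * n) + 2) ^ 5 * ((g : ℝ) * n) ^ 3 ≤ (4 * X / (g * n)) ^ 5 * ((g : ℝ) * n) ^ 3 :=
            mul_le_mul_of_nonneg_right (pow_le_pow_left₀ (by positivity) e1 5) (by positivity)
        _ = 4 ^ 5 * X ^ 5 / n ^ 2 * (1 / (g : ℝ) ^ 2) := by
            field_simp)
  obtain ⟨f2, c2⟩ := hpiece I2 (fun g => 4 ^ 5 * (n * M1) ^ 3)
    (fun g hg => hga1.trans (Finset.mem_Icc.1 (Finset.mem_filter.1 hg).1).1) (by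
      intro g hg
      rw [hI2, Finset.mem_filter, Finset.mem_Icc] at hg
      obtain ⟨⟨hg1', hg2⟩, hg3⟩ := hg
      have hg1 : 1 ≤ g := hga1.trans hg1'
      have hg0 : (0 : ℝ) < g := by exact_mod_cast hg1
      have hgM : (g : ℝ) ≤ M1 := le_trans (by exact_mod_cast hg2) (Nat.floor_le (by positivity))
      push_cast at hg3 ⊢
      have e1 : 2 * X / (g * n) + 2 ≤ 4 := by
        have : 2 * X / (g * n) ≤ 2 := by
          rw [div_le_iff₀ (by positivity)]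
          linarith
        linarith
      have e2 : (g : ℝ) * n ≤ n * M1 := by nlinarith
      exact mul_le_mul (pow_le_pow_left₀ (by positivity) e1 5) (pow_le_pow_left₀ (by positivity) e2 3)
        (by positivity) (by positivity))
  set G3 : ℝ := max G M1 with hG3
  have hG30 : 0 < G3 := lt_max_of_lt_left hG
  have hG3a : G ≤ G3 := le_max_left _ _
  have hG3b : M1 ≤ G3 := le_max_right _ _
  obtain ⟨f3, c3⟩ := h1 X G3 n hX hG30 hn
  have hsub : TS X G n ⊆ {z ∈ TS X G n | z.1 ∈ I1} ∪ ({z ∈ TS X G n | z.1 ∈ I2} ∪ TS X G3 n) := by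
    rintro ⟨g, x⟩ hz
    have hz' := hz
    obtain ⟨a1, a2, a3, a4, a5⟩ := hz
    simp only at a1 a2 a3 a4 a5
    have hg1 : 1 ≤ g := by
      have : (0 : ℝ) < g := lt_of_lt_of_le hG a1
      exact_mod_cast this
    have hgag := hgaGG g hg1 a1
    by_cases h2 : (g : ℝ) * n ≤ X
    · left
      refine ⟨hz', ?_⟩
      simp only [hI1, Finset.mem_Icc]
      refine ⟨hgag, Nat.le_floor ?_⟩
      rw [le_div_iff₀ hn0]
      exact h2
    · right
      push Not at h2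
      by_cases h3 : (g : ℝ) ≤ M1
      · left
        refine ⟨hz', ?_⟩
        simp only [hI2, Finset.mem_filter, Finset.mem_Icc]
        refine ⟨⟨hgag, Nat.le_floor h3⟩, ?_⟩
        push_cast
        exact h2
      · right
        push Not at h3
        exact ⟨max_le a1 h3.le, a2, a3, a4, a5⟩
  have hcard : ((TS X G n).ncard : ℝ) ≤ ({z ∈ TS X G n | z.1 ∈ I1}.ncard : ℝ) +
      (({z ∈ TS X G n | z.1 ∈ I2}.ncard : ℝ) + ((TS X G3 n).ncard : ℝ)) := by
    have e1 := Set.ncard_le_ncard hsub (f1.union (f2.union f3))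
    have e2 := Set.ncard_union_le {z ∈ TS X G n | z.1 ∈ I1} ({z ∈ TS X G n | z.1 ∈ I2} ∪ TS X G3 n)
    have e3 := Set.ncard_union_le {z ∈ TS X G n | z.1 ∈ I2} (TS X G3 n)
    have : (TS X G n).ncard ≤ {z ∈ TS X G n | z.1 ∈ I1}.ncard +
      ({z ∈ TS X G n | z.1 ∈ I2}.ncard + (TS X G3 n).ncard) := by omega
    exact_mod_cast this
  -- bounds
  have hR : 0 ≤ X ^ 5 / (G * (n * u)) := by positivity
  have b1 : ∑ g ∈ I1, 4 ^ 5 * X ^ 5 / n ^ 2 * (1 / (g : ℝ) ^ 2) ≤ 2 * 4 ^ 5 * (X ^ 5 / (G * (n * u))) := by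
    rw [← Finset.mul_sum]
    have e1 := sum_inv_sq_ge ga ⌊X / n⌋₊ hga1
    have e2 : (2 : ℝ) / ga ≤ 2 / G := div_le_div_of_nonneg_left (by norm_num) hG hgaG
    calc 4 ^ 5 * X ^ 5 / n ^ 2 * ∑ g ∈ I1, 1 / (g : ℝ) ^ 2 ≤ 4 ^ 5 * X ^ 5 / n ^ 2 * (2 / G) :=
          mul_le_mul_of_nonneg_left (e1.trans e2) (by positivity)
      _ = 2 * 4 ^ 5 * (X ^ 5 / (G * (n * n))) := by
          field_simp
      _ ≤ _ := by
          have : u ≤ n := by
            rw [← hu6]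
            exact le_self_pow₀ hu1 (by norm_num)
          gcongr
  have hM15 : (n : ℝ) ^ 3 * M1 ^ 5 = X ^ 5 / (n * u) := by
    rw [hM1]
    have : X ^ 5 / (n * u) = X ^ 5 * (u ^ 6) / (n * u * n) := by
      rw [hu6]
      field_simp
    rw [this]
    field_simp
  have b2 : ∑ g ∈ I2, 4 ^ 5 * ((n : ℝ) * M1) ^ 3 ≤ 4 ^ 5 * (X ^ 5 / (G * (n * u))) := by
    rw [Finset.sum_const, nsmul_eq_mul]
    by_cases hne : I2 = ∅
    · rw [hne, Finset.card_empty, Nat.cast_zero, zero_mul]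
      positivity
    · obtain ⟨g, hg⟩ := Finset.nonempty_iff_ne_empty.2 hne
      rw [hI2, Finset.mem_filter, Finset.mem_Icc] at hg
      have hGM : G ≤ M1 := hgaG.trans ((by exact_mod_cast hg.1.1.trans hg.1.2 :
        (ga : ℝ) ≤ (⌊M1⌋₊ : ℝ)).trans (Nat.floor_le hM10.le))
      have hcard2 : (I2.card : ℝ) ≤ M1 := by
        have e1 : I2.card ≤ ⌊M1⌋₊ := by
          refine (Finset.card_filter_le _ _).trans ?_
          rw [Nat.card_Icc]
          omega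
        exact le_trans (by exact_mod_cast e1) (Nat.floor_le hM10.le)
      calc (I2.card : ℝ) * (4 ^ 5 * ((n : ℝ) * M1) ^ 3) ≤ M1 * (4 ^ 5 * ((n : ℝ) * M1) ^ 3) :=
            mul_le_mul_of_nonneg_right hcard2 (by positivity)
        _ = 4 ^ 5 * ((n : ℝ) ^ 3 * M1 ^ 5) / M1 := by
            field_simp
        _ = 4 ^ 5 * (X ^ 5 / (n * u)) / M1 := by rw [hM15]
        _ ≤ 4 ^ 5 * (X ^ 5 / (n * u)) / G := div_le_div_of_nonneg_left (by positivity) hG hGM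
        _ = _ := by
            field_simp
  have b3 : C1 * (X ^ 5 / (G3 * (n : ℝ) ^ (7 / 6 : ℝ)) + X ^ 6 / (G3 ^ 2 * (n : ℝ) ^ 2)) ≤
      2 * C1 * (X ^ 5 / (G * (n * u))) := by
    rw [hn76]
    have e1 : X ^ 5 / (G3 * (n * u)) ≤ X ^ 5 / (G * (n * u)) := by gcongr
    have e2 : X ^ 6 / (G3 ^ 2 * (n : ℝ) ^ 2) ≤ X ^ 5 / (G * (n * u)) := by
      have e3 : X ^ 5 / (G * (n * u)) = X ^ 6 / (G * M1 * (n : ℝ) ^ 2) * (1 : ℝ) := by
        rw [hM1]
        field_simp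
      rw [e3, mul_one]
      refine div_le_div_of_nonneg_left (by positivity) (by positivity) ?_
      refine mul_le_mul_of_nonneg_right ?_ (by positivity)
      rw [pow_two]
      exact mul_le_mul hG3a hG3b hM10.le hG30.le
    nlinarith
  have c3' : ((TS X G3 n).ncard : ℝ) ≤ 2 * C1 * (X ^ 5 / (G * (n * u))) := c3.trans b3
  calc ((TS X G n).ncard : ℝ) ≤ _ := hcard
    _ ≤ 2 * 4 ^ 5 * (X ^ 5 / (G * (n * u))) + (4 ^ 5 * (X ^ 5 / (G * (n * u))) +
        2 * C1 * (X ^ 5 / (G * (n * u)))) :=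
      add_le_add (c1.trans b1) (add_le_add (c2.trans b2) c3')
    _ = _ := by ring

end Pool.Agent.KS6_53.Y4
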