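import Pool.Agent.KS6_53.V5.Riem
import Pool.Agent.KS6_53.V5.Fs

set_option autoImplicit false

namespace Pool.Agent.KS6_53.Y4

open Finset Filter Topology MeasureTheory Pool.Agent.KS6_53.V5

section

variable {Z : Type*} [PseudoMetricSpace Z] {ι : Type*} [Fintype ι]

/-- compact families of test functions -/
structure Fam (K : Set Z) (F : Z → (ι → ℝ) → ℝ) (D : ℝ) : Prop where
  cmp : IsCompact K
  cts : ContinuousOn (fun p : Z × (ι → ℝ) => F p.1 p.2) (K ×ˢ Set.univ)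
  pos : 0 < D
  supp : ∀ z ∈ K, ∀ u, F z u ≠ 0 → ‖u‖ ≤ D

variable {K : Set Z} {F : Z → (ι → ℝ) → ℝ} {D : ℝ}

theorem Fam.cts1 (h : Fam K F D) {z : Z} (hz : z ∈ K) : Continuous (F z) := by
  have h1 : Continuous fun u : ι → ℝ => ((z, u) : Z × (ι → ℝ)) := by fun_prop
  have := h.cts.comp_continuous h1 (fun u => ⟨hz, Set.mem_univ _⟩)
  exact this

theorem Fam.hcs (h : Fam K F D) {z : Z} (hz : z ∈ K) : HasCompactSupport (F z) := by
  refine HasCompactSupport.intro (isCompact_closedBall (0 : ι → ℝ) D) fun u hu => ?_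
  by_contra hc
  apply hu
  rw [mem_closedBall_zero_iff]
  exact h.supp z hz u hc

theorem Fam.equi (h : Fam K F D) (η : ℝ) (hη : 0 < η) : ∃ δ : ℝ, 0 < δ ∧ ∀ z ∈ K, ∀ z' ∈ K,
    ∀ u u' : ι → ℝ, dist z z' < δ → dist u u' < δ → |F z u - F z' u'| ≤ η := by
  have hK2 : IsCompact (K ×ˢ Metric.closedBall (0 : ι → ℝ) (D + 2)) :=
    h.cmp.prod (isCompact_closedBall _ _)
  have huc := hK2.uniformContinuousOn_of_continuous (h.cts.mono
    (Set.prod_mono le_rfl (Set.subset_univ _)))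
  obtain ⟨δ, hδ, h2⟩ := Metric.uniformContinuousOn_iff.1 huc η hη
  refine ⟨min δ 1, by positivity, fun z hz z' hz' u u' h3 h4 => ?_⟩
  have h3' := lt_of_lt_of_le h3 (min_le_left _ _)
  have h4' := lt_of_lt_of_le h4 (min_le_left _ _)
  have h4'' := lt_of_lt_of_le h4 (min_le_right _ _)
  have hn : ‖u'‖ ≤ ‖u‖ + 1 := by
    rw [dist_eq_norm] at h4''
    have := norm_sub_rev u u'
    have h5 : ‖u'‖ ≤ ‖u' - u‖ + ‖u‖ := by
      have := norm_add_le (u' - u) u
      rwa [sub_add_cancel] at this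
    linarith
  by_cases hu : ‖u‖ ≤ D + 1
  · have := h2 (z, u) ⟨hz, by rw [mem_closedBall_zero_iff]; linarith⟩ (z', u')
      ⟨hz', by rw [mem_closedBall_zero_iff]; linarith⟩ (by
        rw [Prod.dist_eq]
        exact max_lt h3' h4')
    rw [Real.dist_eq] at this
    exact this.le
  · push Not at hu
    have e1 : F z u = 0 := by
      by_contra hc
      linarith [h.supp z hz u hc]
    have e2 : F z' u' = 0 := by
      by_contra hc
      have h6 := h.supp z' hz' u' hc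
      rw [dist_eq_norm] at h4''
      have h5 : ‖u‖ ≤ ‖u - u'‖ + ‖u'‖ := by
        have := norm_add_le (u - u') u'
        rwa [sub_add_cancel] at this
      linarith
    rw [e1, e2, sub_zero, abs_zero]
    exact hη.le

theorem box_card (L : ℝ) (hL : 0 ≤ L) : {x : ι → ℤ | ∀ i, |(x i : ℝ)| ≤ L}.Finite ∧
    ({x : ι → ℤ | ∀ i, |(x i : ℝ)| ≤ L}.ncard : ℝ) ≤ (2 * L + 1) ^ Fintype.card ι := by
  classical
  have hN0 : 0 ≤ ⌊L⌋ := Int.floor_nonneg.2 hL
  have h : {x : ι → ℤ | ∀ i, |(x i : ℝ)| ≤ L} =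
      ((Fintype.piFinset (fun _ : ι => Finset.Icc (-⌊L⌋) ⌊L⌋) : Finset (ι → ℤ)) :
        Set (ι → ℤ)) := by
    ext z
    simp only [Set.mem_ofPred_eq, Finset.mem_coe, Fintype.mem_piFinset, Finset.mem_Icc, ← abs_le]
    refine forall_congr' fun i => ?_
    rw [Int.le_floor]
    push_cast
    rfl
  rw [h]
  refine ⟨Finset.finite_toSet _, ?_⟩
  rw [Set.ncard_coe_finset, Fintype.card_piFinset, Finset.prod_const, Int.card_Icc,
    Finset.card_univ]
  push_cast
  refine pow_le_pow_left₀ (by positivity) ?_ _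
  have e : (((⌊L⌋ + 1 - -⌊L⌋).toNat : ℕ) : ℝ) = 2 * ⌊L⌋ + 1 := by
    rw [← Int.cast_natCast, Int.toNat_of_nonneg (by omega)]
    push_cast
    ring
  rw [e]
  linarith [Int.floor_le L]

theorem Fam.int_close (h : Fam K F D) {η : ℝ} (hη : 0 ≤ η) {z z' : Z} (hz : z ∈ K) (hz' : z' ∈ K)
    (hc : ∀ u, |F z u - F z' u| ≤ η) :
    |(∫ u, F z u) - ∫ u, F z' u| ≤ η * (2 * D) ^ Fintype.card ι := by
  have hD := h.pos
  have i1 : Integrable (F z) := (h.cts1 hz).integrable_of_hasCompactSupport (h.hcs hz)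
  have i2 : Integrable (F z') := (h.cts1 hz').integrable_of_hasCompactSupport (h.hcs hz')
  set S : Set (ι → ℝ) := Set.Icc (fun _ => -D) (fun _ => D) with hS
  have e2 : ∫ u, (F z u - F z' u) = ∫ u in S, (F z u - F z' u) := by
    symm
    refine setIntegral_eq_integral_of_forall_compl_eq_zero fun u hu => ?_
    have hu' : ¬ ‖u‖ ≤ D := by
      intro hall
      apply hu
      rw [hS, Set.mem_Icc]
      rw [pi_norm_le_iff_of_nonneg hD.le] at hall
      exact ⟨fun i => (abs_le.1 (hall i)).1, fun i => (abs_le.1 (hall i)).2⟩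
    have e1 : F z u = 0 := by
      by_contra hne
      exact hu' (h.supp z hz u hne)
    have e2 : F z' u = 0 := by
      by_contra hne
      exact hu' (h.supp z' hz' u hne)
    rw [e1, e2, sub_zero]
  have hvol : volume S = ENNReal.ofReal (2 * D) ^ Fintype.card ι := by
    rw [hS, Real.volume_Icc_pi]
    simp only [Finset.prod_const, Finset.card_univ]
    congr 2
    ring
  have hvolr : volume.real S = (2 * D) ^ Fintype.card ι := by
    rw [Measure.real, hvol, ENNReal.toReal_pow, ENNReal.toReal_ofReal (by positivity)]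
  rw [← integral_sub i1 i2, e2, ← Real.norm_eq_abs]
  refine (norm_setIntegral_le_of_norm_le_const (C := η) (by rw [hvol]; finiteness) ?_).trans ?_
  · intro u _
    rw [Real.norm_eq_abs]
    exact hc u
  · rw [hvolr]

/-- sums of close functions -/
theorem Fam.sum_close (h : Fam K F D) {η δ : ℝ} (hη : 0 ≤ η) {z z' : Z} (hz : z ∈ K) (hz' : z' ∈ K)
    (hc : ∀ u u' : ι → ℝ, dist u u' < δ → |F z u - F z' u'| ≤ η) {r : ℝ} (hr : 1 ≤ r)
    (hrδ : 1 / r < δ) (hδ1 : δ ≤ 1) (a : ι → ℝ) :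
    |(∑ᶠ x : ι → ℤ, F z (fun i => (x i : ℝ) / r + a i)) - ∑ᶠ x : ι → ℤ, F z' (fun i => (x i : ℝ) / r)| ≤
      η * ((2 * (D + 1) + 1) ^ Fintype.card ι * r ^ Fintype.card ι) := by
  have hD := h.pos
  have hr0 : 0 < r := by linarith
  have hδ0 : 0 < δ := lt_trans (by positivity) hrδ
  -- shift
  set m : ι → ℤ := fun i => ⌊a i * r⌋ with hm
  have e1 : (∑ᶠ x : ι → ℤ, F z (fun i => (x i : ℝ) / r + a i)) =
      ∑ᶠ x : ι → ℤ, F z (fun i => ((x i : ℝ) - m i) / r + a i) := by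
    rw [← finsum_comp_equiv (Equiv.addRight (-m)) (f := fun x : ι → ℤ =>
      F z (fun i => (x i : ℝ) / r + a i))]
    refine finsum_congr fun x => ?_
    congr 1
    funext i
    simp only [Equiv.coe_addRight, Pi.add_apply, Pi.neg_apply, Int.cast_add, Int.cast_neg]
    ring
  have hclose : ∀ x : ι → ℤ, dist (fun i => ((x i : ℝ) - m i) / r + a i) (fun i => (x i : ℝ) / r) < δ := by
    intro x
    rw [dist_pi_lt_iff hδ0]
    intro i
    refine lt_of_le_of_lt ?_ hrδ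
    have h1 : ((x i : ℝ) - m i) / r + a i - (x i : ℝ) / r = (a i * r - m i) / r := by
      field_simp
      ring
    rw [Real.dist_eq, h1, abs_div, abs_of_pos hr0]
    refine div_le_div_of_nonneg_right ?_ hr0.le
    have h2 := Int.floor_le (a i * r)
    have h3 := Int.lt_floor_add_one (a i * r)
    rw [abs_le]
    simp only [hm]
    constructor <;> linarith
  obtain ⟨b1, b2⟩ := box_card (ι := ι) ((D + 1) * r) (by positivity)
  rw [e1, ← finsum_mem_univ, ← finsum_mem_univ (f := fun x : ι → ℤ => F z' (fun i => (x i : ℝ) / r))]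
  refine (fs_sub_le (s := Set.univ) (f := fun x : ι → ℤ => F z (fun i => ((x i : ℝ) - m i) / r + a i))
    (g := fun x : ι → ℤ => F z' (fun i => (x i : ℝ) / r)) (M := η)
    (fun x _ => hc _ _ (hclose x)) b1 ?_ ?_ hη).trans ?_
  · intro x _ hne i
    have h1 := h.supp z hz _ hne
    have h2 := hclose x
    rw [dist_eq_norm] at h2
    have h3 : ‖fun i => (x i : ℝ) / r‖ ≤ D + 1 := by
      have h4 := norm_sub_norm_le (fun i => (x i : ℝ) / r) (fun i => ((x i : ℝ) - m i) / r + a i)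
      rw [norm_sub_rev] at h4
      linarith
    have h5 := (norm_le_pi_norm (fun i => (x i : ℝ) / r) i).trans h3
    rw [Real.norm_eq_abs, abs_div, abs_of_pos hr0, div_le_iff₀ hr0] at h5
    exact h5
  · intro x _ hne i
    have h1 := h.supp z' hz' _ hne
    have h5 := (norm_le_pi_norm (fun i => (x i : ℝ) / r) i).trans h1
    rw [Real.norm_eq_abs, abs_div, abs_of_pos hr0, div_le_iff₀ hr0] at h5
    nlinarith
  · refine mul_le_mul_of_nonneg_left (b2.trans ?_) hη
    rw [← mul_pow]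
    refine pow_le_pow_left₀ (by positivity) ?_ _
    nlinarith

/-- Riemann sums, uniformly in the family and in the shift -/
theorem Fam.riem (h : Fam K F D) (ε : ℝ) (hε : 0 < ε) : ∃ r₀ : ℝ, 1 ≤ r₀ ∧ ∀ r : ℝ, r₀ ≤ r →
    ∀ z ∈ K, ∀ a : ι → ℝ, |(∑ᶠ x : ι → ℤ, F z (fun i => (x i : ℝ) / r + a i)) -
      r ^ Fintype.card ι * ∫ u, F z u| ≤ ε * r ^ Fintype.card ι := by
  classical
  have hD := h.pos
  set d := Fintype.card ι with hd
  set C : ℝ := (2 * (D + 1) + 1) ^ d + (2 * D) ^ d + 1 with hC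
  have hC0 : 0 < C := by positivity
  set η : ℝ := ε / (2 * C) with hη
  have hη0 : 0 < η := by positivity
  have hηC : η * C = ε / 2 := by
    rw [hη]
    field_simp
  obtain ⟨δ', hδ', he'⟩ := h.equi η hη0
  set δ : ℝ := min δ' 1 with hδdef
  have hδ : 0 < δ := by positivity
  have hδδ : δ ≤ δ' := min_le_left _ _
  have hδ1 : δ ≤ 1 := min_le_right _ _
  have hpt : ∀ z ∈ K, ∃ r₀ : ℝ, ∀ r : ℝ, r₀ ≤ r → |(∑ᶠ x : ι → ℤ, F z (fun i => (x i : ℝ) / r)) /
      r ^ d - ∫ u, F z u| ≤ ε / 2 := by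
    intro z hz
    have h1 := riemann (h.cts1 hz) (h.hcs hz)
    rw [Metric.tendsto_atTop] at h1
    obtain ⟨r₀, hr₀⟩ := h1 (ε / 2) (by positivity)
    refine ⟨r₀, fun r hr => ?_⟩
    have := (hr₀ r hr).le
    rwa [Real.dist_eq] at this
  choose! R hR using hpt
  obtain ⟨t, ht, hcov⟩ := h.cmp.elim_nhds_subcover (fun z => Metric.ball z δ)
    (fun z _ => Metric.ball_mem_nhds z hδ)
  obtain ⟨R2, hR2⟩ := (t.image R).exists_le
  refine ⟨max (max 1 R2) (2 / δ), (le_max_left _ _).trans (le_max_left _ _), fun r hr z hz a => ?_⟩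
  have hr1 : 1 ≤ r := ((le_max_left _ _).trans (le_max_left _ _)).trans hr
  have hr2 : R2 ≤ r := ((le_max_right _ _).trans (le_max_left _ _)).trans hr
  have hr3 : 2 / δ ≤ r := (le_max_right _ _).trans hr
  have hr0 : 0 < r := by linarith
  have hrδ : 1 / r < δ := by
    rw [div_lt_iff₀ hr0]
    rw [div_le_iff₀ hδ] at hr3
    linarith
  obtain ⟨z', hz't, hzb⟩ : ∃ z' ∈ t, z ∈ Metric.ball z' δ := by
    have := hcov hz
    simpa using this
  have hz' := ht z' hz't
  rw [Metric.mem_ball] at hzb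
  have hRz : R z' ≤ r := (hR2 _ (Finset.mem_image_of_mem _ hz't)).trans hr2
  have c1 := h.sum_close hη0.le hz hz' (δ := δ) (fun u u' huu => he' z hz z' hz' u u'
    (lt_of_lt_of_le hzb hδδ) (lt_of_lt_of_le huu hδδ)) hr1 hrδ hδ1 a
  have c2 := h.int_close hη0.le hz hz' (fun u => he' z hz z' hz' u u (lt_of_lt_of_le hzb hδδ)
    (by rw [dist_self]; exact hδ'))
  have c3 := hR z' hz' r hRz
  have hrd : 0 < r ^ d := by positivity
  have c4 : |(∑ᶠ x : ι → ℤ, F z' (fun i => (x i : ℝ) / r)) - r ^ d * ∫ u, F z' u| ≤ ε / 2 * r ^ d := by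
    have e : (∑ᶠ x : ι → ℤ, F z' (fun i => (x i : ℝ) / r)) - r ^ d * ∫ u, F z' u =
        ((∑ᶠ x : ι → ℤ, F z' (fun i => (x i : ℝ) / r)) / r ^ d - ∫ u, F z' u) * r ^ d := by
      field_simp
    rw [e, abs_mul, abs_of_pos hrd]
    exact mul_le_mul_of_nonneg_right c3 hrd.le
  have c5 : |r ^ d * (∫ u, F z' u) - r ^ d * ∫ u, F z u| ≤ η * (2 * D) ^ d * r ^ d := by
    rw [← mul_sub, abs_mul, abs_of_pos hrd, abs_sub_comm, mul_comm (r ^ d)]
    exact mul_le_mul_of_nonneg_right c2 hrd.le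
  have c6 : η * ((2 * (D + 1) + 1) ^ d * r ^ d) + η * (2 * D) ^ d * r ^ d ≤ ε / 2 * r ^ d := by
    rw [← hηC, hC]
    have : 0 < η * r ^ d := by positivity
    nlinarith
  rw [abs_le] at c1 c4 c5 ⊢
  constructor
  · linarith [c1.1, c4.1, c5.1]
  · linarith [c1.2, c4.2, c5.2]

end

end Pool.Agent.KS6_53.Y4
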