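import Pool.Agent.KS6_53.V5.Bl3
import Pool.Agent.KS6_53.Y4.B1

set_option autoImplicit false
set_option linter.style.haveILetI false

namespace Pool.Agent.KS6_53.Y4

open Finset Filter Topology MeasureTheory Pool.Agent.KS6_53.V5

/-- the residue class modulo `Q` -/
theorem class_bij {Q q : ℕ} (hQ : 0 < Q) (hq : 0 < q) (hcop : Nat.Coprime q Q) (ρ : Fin 5 → ℤ) :
    ∃ j : ℕ, ∀ F : (Fin 5 → ℝ) → ℝ,
      ∑ᶠ x ∈ {x : Fin 5 → ℤ | (∀ i, (Q : ℤ) ∣ x i - ρ i) ∧ red q x ∈ CC q},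
        F (fun i => (x i : ℝ) / q) =
      ∑ᶠ y ∈ {y : Fin 5 → ℤ | red q y ∈ CC q},
        F (fun i => (Q : ℝ) * ((y i : ℝ) / q) + (ρ i : ℝ) * j) := by
  have hq0 : (0 : ℝ) < q := by exact_mod_cast hq
  -- the inverse of `q` modulo `Q`
  obtain ⟨j, hjQ, hj⟩ : ∃ j : ℕ, j < Q ∧ (Q : ℤ) ∣ q * j - 1 := by
    haveI : NeZero Q := ⟨hQ.ne'⟩
    refine ⟨((q : ZMod Q)⁻¹).val, ZMod.val_lt _, ?_⟩
    rw [← ZMod.intCast_zmod_eq_zero_iff_dvd]
    push_cast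
    rw [ZMod.natCast_zmod_val, ZMod.coe_mul_inv_eq_one _ hcop, sub_self]
  have hunit : IsUnit ((Q : ℕ) : ZMod q) := by
    rw [ZMod.isUnit_iff_coprime]
    exact hcop.symm
  have hmem : ∀ y : Fin 5 → ℤ, red q (fun i => ρ i * (q * j) + Q * y i) ∈ CC q ↔ red q y ∈ CC q := by
    intro y
    have e1 : red q (fun i => ρ i * (q * j) + Q * y i) = ((Q : ℕ) : ZMod q) • red q y := by
      funext i
      simp [red]
    rw [e1]
    constructor
    · rintro ⟨h2, h3⟩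
      obtain ⟨u, hu⟩ := hunit
      rw [← hu] at h2 h3
      have e2 : red q y = (↑u⁻¹ : ZMod q) • ((u : ZMod q) • red q y) := by
        rw [smul_smul, Units.inv_mul, one_smul]
      rw [e2]
      exact ⟨unimod_smul u⁻¹.isUnit h2, by rw [mm_smul, h3, smul_zero]⟩
    · rintro ⟨h2, h3⟩
      exact ⟨unimod_smul hunit h2, by rw [mm_smul, h3, smul_zero]⟩
  refine ⟨j, fun F => ?_⟩
  symm
  refine finsum_mem_eq_of_bijOn (fun y i => ρ i * (q * j) + Q * y i) ⟨?_, ?_, ?_⟩ ?_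
  · intro y hy
    refine ⟨fun i => ?_, (hmem y).2 hy⟩
    have e1 : ρ i * (q * j) + Q * y i - ρ i = ρ i * (q * j - 1) + Q * y i := by ring
    rw [e1]
    exact dvd_add (Dvd.dvd.mul_left hj _) (dvd_mul_right _ _)
  · intro y _ y' _ h
    funext i
    have h2 := congrFun h i
    simp only at h2
    have hQz : (Q : ℤ) ≠ 0 := by exact_mod_cast hQ.ne'
    exact mul_left_cancel₀ hQz (add_left_cancel h2)
  · rintro x ⟨hx1, hx2⟩
    have h2 : ∀ i, ∃ y : ℤ, x i = ρ i * (q * j) + Q * y := by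
      intro i
      obtain ⟨a, ha⟩ := hx1 i
      obtain ⟨b, hb⟩ := hj
      refine ⟨a - ρ i * b, ?_⟩
      have : x i = ρ i + Q * a := by linarith
      rw [this]
      have hb' : (q : ℤ) * j = 1 + Q * b := by linarith
      rw [hb']
      ring
    choose y hy using h2
    refine ⟨y, ?_, ?_⟩
    · rw [Set.mem_ofPred_eq, ← hmem y]
      rw [show (fun i => ρ i * (q * j) + Q * y i) = x from (funext hy).symm]
      exact hx2
    · exact (funext hy).symm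
  · intro y _
    congr 1
    funext i
    push_cast
    field_simp
    ring

section

variable {Z : Type*} [PseudoMetricSpace Z] {K : Set Z} {F : Z → (Fin 5 → ℝ) → ℝ} {D : ℝ}

/-- equidistribution, uniformly in a compact family -/
theorem Fam.eqd (h : Fam K F D) (Q : ℕ) (hQ : 0 < Q) (ρ : Fin 5 → ℤ) (ε : ℝ) (hε : 0 < ε) :
    ∃ q₀ : ℕ, ∀ q : ℕ, q₀ ≤ q → 0 < q → Nat.Coprime q Q → ∀ z ∈ K,
      |(∑ᶠ x ∈ {x : Fin 5 → ℤ | (∀ i, (Q : ℤ) ∣ x i - ρ i) ∧ red q x ∈ CC q},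
        F z (fun i => (x i : ℝ) / q)) - (cq q : ℝ) / (Q : ℝ) ^ 5 * ∫ u, F z u| ≤ ε * (q : ℝ) ^ 3 := by
  classical
  have hD := h.pos
  have hQ1 : (1 : ℝ) ≤ Q := by exact_mod_cast hQ
  set C : ℝ := (2 * D + 2) ^ 5 + (2 * D) ^ 5 + 1 with hC
  have hC0 : 0 < C := by positivity
  set η : ℝ := ε / (2 * C) with hη
  have hη0 : 0 < η := by positivity
  have hηC : η * C = ε / 2 := by
    rw [hη]
    field_simp
  obtain ⟨δ, hδ, he⟩ := h.equi η hη0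
  have hpt : ∀ z ∈ K, ∃ q₀ : ℕ, ∀ q : ℕ, q₀ ≤ q → Nat.Coprime q Q →
      |(∑ᶠ x ∈ {x : Fin 5 → ℤ | (∀ i, (Q : ℤ) ∣ x i - ρ i) ∧ red q x ∈ CC q},
        F z (fun i => (x i : ℝ) / q)) - (cq q : ℝ) / (Q : ℝ) ^ 5 * ∫ u, F z u| ≤
          ε / 2 * (q : ℝ) ^ 3 := fun z hz =>
    V5.eqd Q hQ ρ (F z) (h.cts1 hz) (h.hcs hz) (ε / 2) (by positivity)
  choose! q₁ hq₁ using hpt
  obtain ⟨t, ht, hcov⟩ := h.cmp.elim_nhds_subcover (fun z => Metric.ball z δ)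
    (fun z _ => Metric.ball_mem_nhds z hδ)
  obtain ⟨q₂, hq₂⟩ := (t.image q₁).exists_le
  refine ⟨q₂, fun q hqq hq0 hcop z hz => ?_⟩
  have hq0' : (0 : ℝ) < q := by exact_mod_cast hq0
  obtain ⟨z', hz't, hzb⟩ : ∃ z' ∈ t, z ∈ Metric.ball z' δ := by
    have := hcov hz
    simpa using this
  have hz' := ht z' hz't
  rw [Metric.mem_ball] at hzb
  have hRz : q₁ z' ≤ q := (hq₂ _ (Finset.mem_image_of_mem _ hz't)).trans hqq
  have hclose : ∀ u, |F z u - F z' u| ≤ η := fun u => he z hz z' hz' u u hzb (by rw [dist_self]; exact hδ)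
  obtain ⟨b1, b2⟩ := box q hq0 (fun _ => 0) (D * q) (by positivity)
  have hsup : ∀ z ∈ K, ∀ x ∈ {x : Fin 5 → ℤ | (∀ i, (Q : ℤ) ∣ x i - ρ i) ∧ red q x ∈ CC q},
      F z (fun i => (x i : ℝ) / q) ≠ 0 →
      x ∈ {x : Fin 5 → ℤ | (∀ i, |(x i : ℝ) - 0| ≤ D * q) ∧ red q x ∈ CC q} := by
    intro z hz x hx hne
    refine ⟨fun i => ?_, hx.2⟩
    have h1 := h.supp z hz _ hne
    have h2 := (norm_le_pi_norm (fun i => (x i : ℝ) / q) i).trans h1
    rw [Real.norm_eq_abs, abs_div, abs_of_pos hq0', div_le_iff₀ hq0'] at h2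
    rw [sub_zero]
    exact h2
  have s1 := fs_sub_le (f := fun x : Fin 5 → ℤ => F z (fun i => (x i : ℝ) / q))
    (g := fun x : Fin 5 → ℤ => F z' (fun i => (x i : ℝ) / q))
    (s := {x : Fin 5 → ℤ | (∀ i, (Q : ℤ) ∣ x i - ρ i) ∧ red q x ∈ CC q}) (M := η)
    (fun x _ => hclose _) b1 (hsup z hz) (hsup z' hz') hη0.le
  have s2 := h.int_close hη0.le hz hz' hclose
  rw [Fintype.card_fin] at s2
  have key := hq₁ z' hz' q hRz hcop
  have hcq : (cq q : ℝ) / (Q : ℝ) ^ 5 ≤ (q : ℝ) ^ 3 := by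
    have h1 : (cq q : ℝ) ≤ (q : ℝ) ^ 3 := by exact_mod_cast cq1 q hq0
    have h2 : (1 : ℝ) ≤ (Q : ℝ) ^ 5 := one_le_pow₀ hQ1
    exact (div_le_self (by positivity) h2).trans h1
  have hcq0 : 0 ≤ (cq q : ℝ) / (Q : ℝ) ^ 5 := by positivity
  have s3 : |(cq q : ℝ) / (Q : ℝ) ^ 5 * (∫ u, F z' u) -
      (cq q : ℝ) / (Q : ℝ) ^ 5 * ∫ u, F z u| ≤ (q : ℝ) ^ 3 * (η * (2 * D) ^ 5) := by
    rw [← mul_sub, abs_mul, abs_of_nonneg hcq0, abs_sub_comm]
    exact mul_le_mul hcq s2 (abs_nonneg _) (by positivity)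
  have s4 : η * ({x : Fin 5 → ℤ | (∀ i, |(x i : ℝ) - 0| ≤ D * q) ∧ red q x ∈ CC q}.ncard : ℝ) ≤
      η * ((2 * D + 2) ^ 5 * (q : ℝ) ^ 3) := by
    refine mul_le_mul_of_nonneg_left (b2.trans (le_of_eq ?_)) hη0.le
    congr 3
    field_simp
  have s5 := s1.trans s4
  have s6 : η * ((2 * D + 2) ^ 5 * (q : ℝ) ^ 3) + (q : ℝ) ^ 3 * (η * (2 * D) ^ 5) ≤
      ε / 2 * (q : ℝ) ^ 3 := by
    rw [← hηC, hC]
    have : 0 < η * (q : ℝ) ^ 3 := by positivity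
    nlinarith
  rw [abs_le] at key s3 s5 ⊢
  constructor
  · linarith [key.1, s3.1, s5.1]
  · linarith [key.2, s3.2, s5.2]

/-- equidistribution in large boxes -/
theorem Fam.large (h : Fam K F D) (Q : ℕ) (hQ : 0 < Q) (ε : ℝ) (hε : 0 < ε) :
    ∃ t₁ : ℝ, 1 ≤ t₁ ∧ ∀ t : ℝ, t₁ ≤ t → ∀ q : ℕ, 0 < q → Nat.Coprime q Q → ∀ ρ : Fin 5 → ℤ, ∀ z ∈ K,
      |(∑ᶠ x ∈ {x : Fin 5 → ℤ | (∀ i, (Q : ℤ) ∣ x i - ρ i) ∧ red q x ∈ CC q},
        F z (fun i => (x i : ℝ) / (t * q))) - (cq q : ℝ) / (Q : ℝ) ^ 5 * (t ^ 5 * ∫ u, F z u)| ≤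
          ε * t ^ 5 * (q : ℝ) ^ 3 := by
  classical
  have hQ1 : (1 : ℝ) ≤ Q := by exact_mod_cast hQ
  have hQ0 : (0 : ℝ) < Q := by linarith
  obtain ⟨r₀, hr₀, hr⟩ := h.riem ε hε
  refine ⟨r₀ * Q, by nlinarith, fun t ht q hq hcop ρ z hz => ?_⟩
  haveI : NeZero q := ⟨hq.ne'⟩
  have hq0 : (0 : ℝ) < q := by exact_mod_cast hq
  have ht0 : 0 < t := lt_of_lt_of_le (by positivity) ht
  have htQ : r₀ ≤ t / Q := by rwa [le_div_iff₀ hQ0]
  obtain ⟨j, hj⟩ := class_bij hQ hq hcop ρ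
  have e1 := hj (fun u => F z (fun i => u i / t))
  have e0 : ∀ x : Fin 5 → ℤ, (fun i => (x i : ℝ) / q / t) = fun i => (x i : ℝ) / (t * q) := by
    intro x
    funext i
    rw [div_div, mul_comm]
  simp only [e0] at e1
  set G : (Fin 5 → ℝ) → ℝ := fun u => F z (fun i => ((Q : ℝ) * u i + (ρ i : ℝ) * j) / t) with hG
  have hGc : HasCompactSupport G := by
    refine HasCompactSupport.intro (isCompact_closedBall (fun i => -((ρ i : ℝ) * j) / Q)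
      (D * t / Q)) fun u hu => ?_
    by_contra hc
    apply hu
    have h1 := h.supp z hz _ hc
    rw [mem_closedBall_iff_norm, pi_norm_le_iff_of_nonneg (by have := h.pos; positivity)]
    intro i
    have h2 := (norm_le_pi_norm (fun i => ((Q : ℝ) * u i + (ρ i : ℝ) * j) / t) i).trans h1
    rw [Real.norm_eq_abs, abs_div, abs_of_pos ht0, div_le_iff₀ ht0] at h2
    rw [Pi.sub_apply, Real.norm_eq_abs, le_div_iff₀ hQ0]
    have h3 : (u i - -((ρ i : ℝ) * j) / Q) * Q = Q * u i + (ρ i : ℝ) * j := by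
      field_simp
      ring
    calc |u i - -((ρ i : ℝ) * j) / Q| * Q = |(u i - -((ρ i : ℝ) * j) / Q) * Q| := by
          rw [abs_mul, abs_of_pos hQ0]
      _ ≤ _ := by rwa [h3]
  have e2 := fib_sum hGc q (CC q)
  have e3 : ∀ v : Fin 5 → ℝ, |perz G v - (t / Q) ^ 5 * ∫ u, F z u| ≤ ε * (t / Q) ^ 5 := by
    intro v
    have h1 := hr (t / Q) htQ z hz (fun i => ((Q : ℝ) * v i + (ρ i : ℝ) * j) / t)
    rw [Fintype.card_fin] at h1
    have h2 : perz G v = ∑ᶠ x : Fin 5 → ℤ, F z (fun i => (x i : ℝ) / (t / Q) +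
        ((Q : ℝ) * v i + (ρ i : ℝ) * j) / t) := by
      rw [perz]
      refine finsum_congr fun m => ?_
      simp only [hG]
      congr 1
      funext i
      field_simp
      ring
    rw [h2]
    exact h1
  have e4 : (∑ᶠ x ∈ {x : Fin 5 → ℤ | (∀ i, (Q : ℤ) ∣ x i - ρ i) ∧ red q x ∈ CC q},
        F z (fun i => (x i : ℝ) / (t * q))) =
      ∑ x ∈ univ.filter (· ∈ CC q), perz G (fun i => ((x i).val : ℝ) / q) := by
    rw [e1]
    refine Eq.trans e2 (Finset.sum_congr ?_ fun _ _ => rfl)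
    ext x
    simp only [Finset.mem_filter, Finset.mem_univ, true_and]
  have hcard : ((univ.filter (· ∈ CC q)).card : ℝ) = cq q := by
    have := card_CC q
    exact_mod_cast this
  have e5 : (cq q : ℝ) / (Q : ℝ) ^ 5 * (t ^ 5 * ∫ u, F z u) =
      ∑ _x ∈ univ.filter (· ∈ CC q), (t / Q) ^ 5 * ∫ u, F z u := by
    rw [Finset.sum_const, nsmul_eq_mul, hcard, div_pow]
    field_simp
  rw [e4, e5, ← Finset.sum_sub_distrib]
  refine (Finset.abs_sum_le_sum_abs _ _).trans ((Finset.sum_le_sum fun x _ => e3 _).trans ?_)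
  rw [Finset.sum_const, nsmul_eq_mul, hcard]
  have hcq : (cq q : ℝ) ≤ (q : ℝ) ^ 3 := by exact_mod_cast cq1 q hq
  have hQ5 : (1 : ℝ) ≤ (Q : ℝ) ^ 5 := one_le_pow₀ hQ1
  calc (cq q : ℝ) * (ε * (t / Q) ^ 5) ≤ (q : ℝ) ^ 3 * (ε * t ^ 5) := by
        refine mul_le_mul hcq (mul_le_mul_of_nonneg_left ?_ hε.le) (by positivity) (by positivity)
        rw [div_pow]
        exact div_le_self (by positivity) hQ5
    _ = _ := by ring

end

section

variable {H : (Fin 5 → ℝ) × ℝ → ℝ} {A δ : ℝ}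

theorem prof_fam (h : Prof H A δ) : Fam (Set.Icc (0 : ℝ) A) (fun s u => H (u, s)) A :=
  ⟨isCompact_Icc, (h.cts.comp (by fun_prop)).continuousOn, h.posA, fun s _ u hu => (h.supp _ hu).1⟩

theorem prof_fam2 (h : Prof H A δ) {t0 t1 : ℝ} (ht0 : 0 < t0) (ht1 : 0 < t1) :
    Fam (Set.Icc t0 t1 ×ˢ Set.Icc (0 : ℝ) A) (fun z u => H (fun i => u i / z.1, z.2)) (A * t1) := by
  refine ⟨isCompact_Icc.prod isCompact_Icc, ?_, mul_pos h.posA ht1, ?_⟩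
  · refine h.cts.comp_continuousOn ?_
    refine ContinuousOn.prodMk ?_ (by fun_prop)
    refine continuousOn_pi.2 fun i => ?_
    refine ContinuousOn.div (by fun_prop) (by fun_prop) ?_
    rintro ⟨⟨t, s⟩, u⟩ ⟨⟨h1, -⟩, -⟩
    exact (lt_of_lt_of_le ht0 h1.1).ne'
  · rintro ⟨t, s⟩ ⟨h1, -⟩ u hu
    have h2 := (h.supp _ hu).1
    simp only at h1 h2
    have ht : 0 < t := lt_of_lt_of_le ht0 h1.1
    have e : (fun i => u i / t) = t⁻¹ • u := by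
      funext i
      rw [Pi.smul_apply, smul_eq_mul, div_eq_inv_mul]
    rw [e, norm_smul, norm_inv, Real.norm_of_nonneg ht.le, inv_mul_le_iff₀ ht] at h2
    refine h2.trans ?_
    rw [mul_comm]
    exact mul_le_mul_of_nonneg_left h1.2 h.posA.le

theorem scale_int' (s t : ℝ) (ht : 0 < t) :
    ∫ u : Fin 5 → ℝ, H (fun i => u i / t, s) = t ^ 5 * Ph H s := by
  have := Measure.integral_comp_inv_smul_of_nonneg (μ := (volume : Measure (Fin 5 → ℝ)))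
    (fun u : Fin 5 → ℝ => H (u, s)) ht.le
  rw [Module.finrank_fin_fun, smul_eq_mul] at this
  rw [Ph, ← this]
  refine integral_congr_ae (Filter.Eventually.of_forall fun u => ?_)
  simp only
  congr 2
  funext i
  rw [Pi.smul_apply, smul_eq_mul, div_eq_inv_mul]

/-- equidistribution, uniformly in the scale -/
theorem equ_t (h : Prof H A δ) (Q : ℕ) (hQ : 0 < Q) (ρ : Fin 5 → ℤ) (t0 : ℝ) (ht0 : 0 < t0) (ε : ℝ)
    (hε : 0 < ε) : ∃ q₀ : ℕ, ∀ q : ℕ, q₀ ≤ q → 0 < q → Nat.Coprime q Q → ∀ s t : ℝ, t0 ≤ t →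
      |(∑ᶠ x ∈ {x : Fin 5 → ℤ | (∀ i, (Q : ℤ) ∣ x i - ρ i) ∧ red q x ∈ CC q},
        H (fun i => (x i : ℝ) / (t * q), s)) - (cq q : ℝ) / (Q : ℝ) ^ 5 * (t ^ 5 * Ph H s)| ≤
          ε * t ^ 5 * (q : ℝ) ^ 3 := by
  obtain ⟨t1, ht1, hl⟩ := (prof_fam h).large Q hQ ε hε
  obtain ⟨q₀, hs⟩ := (prof_fam2 h ht0 (by linarith : 0 < t1)).eqd Q hQ ρ (ε * t0 ^ 5) (by positivity)
  refine ⟨q₀, fun q hqq hq hcop s t ht => ?_⟩
  have ht' : 0 < t := lt_of_lt_of_le ht0 ht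
  have hq0 : (0 : ℝ) < q := by exact_mod_cast hq
  by_cases hsA : δ ≤ s ∧ s ≤ A
  swap
  · have e1 : Ph H s = 0 := by
      by_contra hc
      exact hsA (Ph_supp h hc)
    have e2 : (∑ᶠ x ∈ {x : Fin 5 → ℤ | (∀ i, (Q : ℤ) ∣ x i - ρ i) ∧ red q x ∈ CC q},
        H (fun i => (x i : ℝ) / (t * q), s)) = 0 := by
      refine finsum_mem_of_eqOn_zero fun x _ => ?_
      exact slice_eq_zero h hsA _
    rw [e1, e2]
    simp only [mul_zero, sub_zero, abs_zero]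
    positivity
  have hsI : s ∈ Set.Icc (0 : ℝ) A := ⟨h.pos.le.trans hsA.1, hsA.2⟩
  by_cases htt : t1 ≤ t
  · exact hl t htt q hq hcop ρ s hsI
  · push Not at htt
    have h1 := hs q hqq hq hcop (t, s) ⟨⟨ht, htt.le⟩, hsI⟩
    simp only at h1
    rw [scale_int' s t ht'] at h1
    have e0 : ∀ x : Fin 5 → ℤ, (fun i => (x i : ℝ) / q / t) = fun i => (x i : ℝ) / (t * q) := by
      intro x
      funext i
      rw [div_div, mul_comm]
    simp only [e0] at h1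
    refine h1.trans ?_
    have : t0 ^ 5 ≤ t ^ 5 := pow_le_pow_left₀ ht0.le ht 5
    gcongr

end

end Pool.Agent.KS6_53.Y4
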