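import Pool.Agent.KS6_53.V5.Bl7
import Pool.Agent.KS6_53.Y4.C1

set_option autoImplicit false

namespace Pool.Agent.KS6_53.Y4

open Finset Filter Topology MeasureTheory Pool.Agent.KS6_53.V5

/-- the sum over the admissible pairs -/
noncomputable def DEt (Y k : ℕ) (G : (Fin 5 → ℝ) × ℝ × ℝ → ℝ) (vl : (Fin 5 → ZMod (pm Y ^ k)) → ℝ)
    (T t : ℝ) : ℝ :=
  ∑ᶠ z ∈ {z : (Fin 5 → ℤ) × ℕ | EP Y k z.1 z.2},
    G (fun i => (z.1 i : ℝ) / (t * (gY Y k z.1 * z.2)), (gY Y k z.1 : ℝ) * z.2 / √T,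
      vl (red (pm Y ^ k) z.1))

section

variable {G : (Fin 5 → ℝ) × ℝ × ℝ → ℝ}

open Classical in
theorem DEt_eq (Y k : ℕ) (hk : k ≠ 0) {A δ : ℝ}
    (hG : ∀ τ, Prof (fun z => G (z.1, z.2, τ)) A δ) (vl : (Fin 5 → ZMod (pm Y ^ k)) → ℝ)
    (T t : ℝ) (hT : 0 < T) (ht : 0 < t) :
    DEt Y k G vl T t / t ^ 5 = ∑ r ∈ (Finset.univ : Finset (Fin 5 → ZMod (pm Y ^ k))).filter
      (fun r => Good Y k (lft r)), DRt (pm Y) (pm Y ^ k) (lft r) (gY Y k (lft r))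
        (fun z => G (z.1, z.2, vl r)) T t := by
  have hsT : 0 < √T := Real.sqrt_pos.2 hT
  have hA := (hG 0).posA
  set N : ℕ := ⌊A * √T⌋₊ with hN
  have hNlt : ∀ γ : ℕ, 1 ≤ γ → A * √T / γ < N + 1 := by
    intro γ hγ
    refine lt_of_le_of_lt (div_le_self (by positivity) (by exact_mod_cast hγ)) (Nat.lt_floor_add_one _)
  -- the box
  have hBfin := finite_box (fun _ : Fin 5 => (0 : ℝ)) (A * (t * (A * √T)))
  set Bx : Finset (Fin 5 → ℤ) := hBfin.toFinset with hBx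
  have hBm : ∀ (x : Fin 5 → ℤ) (γ q : ℕ) (τ : ℝ), 1 ≤ γ → 1 ≤ q →
      G (fun i => (x i : ℝ) / (t * (γ * q)), (γ : ℝ) * q / √T, τ) ≠ 0 → x ∈ Bx ∧ q ≤ N := by
    intro x γ q τ hγ hq hne
    obtain ⟨c1, c2, c3⟩ := (hG τ).supp (fun i => (x i : ℝ) / (t * (γ * q)), (γ : ℝ) * q / √T) hne
    simp only at c1 c2 c3
    rw [div_le_iff₀ hsT] at c3
    have hγ1 : (1 : ℝ) ≤ γ := by exact_mod_cast hγ
    have hq1 : (1 : ℝ) ≤ q := by exact_mod_cast hq
    refine ⟨?_, Nat.le_floor (by nlinarith)⟩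
    rw [hBx, Set.Finite.mem_toFinset]
    intro i
    rw [sub_zero]
    have h2 := (norm_le_pi_norm (fun i => (x i : ℝ) / (t * (γ * q))) i).trans c1
    rw [Real.norm_eq_abs, abs_div, abs_of_pos (show (0 : ℝ) < t * (γ * q) by positivity),
      div_le_iff₀ (by positivity)] at h2
    refine h2.trans (mul_le_mul_of_nonneg_left (mul_le_mul_of_nonneg_left c3 ht.le) hA.le)
  -- left side
  have hL : DEt Y k G vl T t = ∑ q ∈ Finset.Icc 1 N, ∑ x ∈ Bx, if EP Y k x q then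
      G (fun i => (x i : ℝ) / (t * (gY Y k x * q)), (gY Y k x : ℝ) * q / √T,
        vl (red (pm Y ^ k) x)) else 0 := by
    rw [DEt, fs_eq _ _ (Bx ×ˢ Finset.Icc 1 N)]
    · rw [Finset.sum_product, Finset.sum_comm]
      refine Finset.sum_congr rfl fun q _ => Finset.sum_congr rfl fun x _ => ?_
      simp only [Set.mem_ofPred_eq]
    · rintro ⟨x, q⟩ hz hne
      rw [Set.mem_ofPred_eq] at hz
      simp only at hz hne
      obtain ⟨m1, m2⟩ := hBm x (gY Y k x) q _ (gY_pos Y k x) hz.2.1 hne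
      exact Finset.mem_product.2 ⟨m1, Finset.mem_Icc.2 ⟨hz.2.1, m2⟩⟩
  have hR : ∀ r : Fin 5 → ZMod (pm Y ^ k), DRt (pm Y) (pm Y ^ k) (lft r) (gY Y k (lft r))
        (fun z => G (z.1, z.2, vl r)) T t = (∑ q ∈ Finset.Icc 1 N, ∑ x ∈ Bx,
        if Nat.Coprime q (pm Y) ∧ red (pm Y ^ k) x = r ∧ red q x ∈ CC q then
          G (fun i => (x i : ℝ) / (t * (gY Y k (lft r) * q)), (gY Y k (lft r) : ℝ) * q / √T, vl r)
        else 0) / t ^ 5 := by
    intro r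
    rw [DRt_eq (hG (vl r)) _ _ _ _ (gY_pos Y k _) T t hT N (hNlt _ (gY_pos Y k _)), SJ,
      Finset.sum_filter, Finset.sum_div]
    refine Finset.sum_congr rfl fun q hq => ?_
    rw [Finset.mem_Icc] at hq
    rw [fs_eq _ _ Bx (fun x _ hne => (hBm x _ q _ (gY_pos Y k _) hq.1 hne).1)]
    by_cases hc : Nat.Coprime q (pm Y)
    · rw [if_pos hc]
      congr 1
      refine Finset.sum_congr rfl fun x _ => ?_
      simp only [Set.mem_ofPred_eq, dvd_lft_iff]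
      by_cases h : red (pm Y ^ k) x = r ∧ red q x ∈ CC q
      · rw [if_pos h, if_pos ⟨hc, h⟩]
      · rw [if_neg h, if_neg fun h' => h h'.2]
    · rw [if_neg hc]
      symm
      rw [Finset.sum_eq_zero, zero_div]
      intro x _
      rw [if_neg fun h' => hc h'.1]
  rw [hL, Finset.sum_congr rfl fun r _ => hR r, ← Finset.sum_div]
  congr 1
  refine Eq.trans ?_ Finset.sum_comm
  refine Finset.sum_congr rfl fun q hq => ?_
  rw [Finset.mem_Icc] at hq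
  refine Eq.trans ?_ Finset.sum_comm
  refine Finset.sum_congr rfl fun x _ => ?_
  have hlx : ∀ i, ((pm Y ^ k : ℕ) : ℤ) ∣ x i - lft (red (pm Y ^ k) x) i :=
    (dvd_lft_iff x _).2 rfl
  have hlx' : ∀ i, ((pm Y ^ k : ℕ) : ℤ) ∣ lft (red (pm Y ^ k) x) i - x i := fun i => by
    rw [← dvd_neg, neg_sub]
    exact hlx i
  by_cases h : EP Y k x q
  · rw [if_pos h, Finset.sum_eq_single (red (pm Y ^ k) x)]
    · rw [if_pos ⟨h.2.2.1, rfl, h.2.2.2⟩, gY_congr hlx]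
    · intro r _ hr
      rw [if_neg fun h' => hr h'.2.1.symm]
    · intro hn
      refine absurd (Finset.mem_filter.2 ⟨Finset.mem_univ (red (pm Y ^ k) x), ?_⟩) hn
      exact good_congr hk hlx h.1
  · rw [if_neg h]
    symm
    refine Finset.sum_eq_zero fun r hr => ?_
    rw [if_neg]
    rintro ⟨h1, h2, h3⟩
    apply h
    rw [Finset.mem_filter] at hr
    subst h2
    exact ⟨good_congr hk hlx' hr.2, hq.1, h1, h3⟩

variable {A δ : ℝ}

theorem DEt_lim (Y k : ℕ) (hk : k ≠ 0) (hG : ∀ τ, Prof (fun z => G (z.1, z.2, τ)) A δ)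
    (vl : (Fin 5 → ZMod (pm Y ^ k)) → ℝ) {B : ℝ} (hB : 0 ≤ B) (hvB : ∀ u s r, |G (u, s, vl r)| ≤ B)
    (t0 : ℝ) (ht0 : 0 < t0) (ε : ℝ) (hε : 0 < ε) : ∀ᶠ T in atTop, ∀ t : ℝ, t0 ≤ t →
      |DEt Y k G vl T t / (t ^ 5 * T ^ 2) - MM Y k G vl| ≤
      tail Y * (kap Y k * (A ^ 4 * (B * vb A))) + ε := by
  classical
  set R := (Finset.univ : Finset (Fin 5 → ZMod (pm Y ^ k))).filter (fun r => Good Y k (lft r)) with hR
  have hdr : ∀ r ∈ R, ∀ᶠ T in atTop, ∀ t : ℝ, t0 ≤ t →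
      |DRt (pm Y) (pm Y ^ k) (lft r) (gY Y k (lft r))
        (fun z => G (z.1, z.2, vl r)) T t / T ^ 2 -
        (gY Y k (lft r) : ℝ) / ((pm Y ^ k : ℕ) : ℝ) ^ 5 * (cP (pm Y) * II fun z => G (z.1, z.2, vl r))| ≤
      tail Y * ((gY Y k (lft r) : ℝ) / ((pm Y ^ k : ℕ) : ℝ) ^ 5 *
        (cP (pm Y) * II fun z => |G (z.1, z.2, vl r)|)) + ε / (R.card + 1) := by
    intro r _
    exact DRt_lim (hG (vl r)) (pm Y) (pm Y ^ k) (pm_pos Y) (pow_pos (pm_pos Y) k)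
      (fun q hq => Nat.Coprime.pow_right k hq) (lft r) (gY Y k (lft r)) (gY_pos Y k _) (tail Y)
      (tail_nonneg Y) (fun q hq hc => cq_tail hq hc) t0 ht0 _ (by positivity)
  have hall := (Filter.eventually_all_finset R).2 hdr
  filter_upwards [hall, eventually_gt_atTop 0] with T h1' hT t ht
  have ht' : 0 < t := lt_of_lt_of_le ht0 ht
  have h1 := fun r hr => h1' r hr t ht
  rw [← div_div, DEt_eq Y k hk hG vl T t hT ht', Finset.sum_div]
  have e1 : MM Y k G vl = ∑ r ∈ R, (gY Y k (lft r) : ℝ) / ((pm Y ^ k : ℕ) : ℝ) ^ 5 *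
      (cP (pm Y) * II fun z => G (z.1, z.2, vl r)) := by
    rw [MM]
  have e2 : kap Y k = ∑ r ∈ R, (gY Y k (lft r) : ℝ) / ((pm Y ^ k : ℕ) : ℝ) ^ 5 * cP (pm Y) := by
    rw [kap]
  rw [e1, ← Finset.sum_sub_distrib]
  refine (Finset.abs_sum_le_sum_abs _ _).trans ((Finset.sum_le_sum h1).trans ?_)
  rw [Finset.sum_add_distrib, Finset.sum_const, nsmul_eq_mul, ← Finset.mul_sum]
  have f1 : (R.card : ℝ) * (ε / (R.card + 1)) ≤ ε := by
    rw [mul_div_assoc', div_le_iff₀ (by positivity)]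
    nlinarith
  have f2 : ∑ r ∈ R, (gY Y k (lft r) : ℝ) / ((pm Y ^ k : ℕ) : ℝ) ^ 5 *
        (cP (pm Y) * II fun z => |G (z.1, z.2, vl r)|) ≤ kap Y k * (A ^ 4 * (B * vb A)) := by
    rw [e2, Finset.sum_mul]
    refine Finset.sum_le_sum fun r _ => ?_
    rw [mul_assoc]
    refine mul_le_mul_of_nonneg_left (mul_le_mul_of_nonneg_left ?_ (cP_nonneg _)) (by positivity)
    exact II_abs_le (hG (vl r)) hB fun z => hvB _ _ _
  have f3 := mul_le_mul_of_nonneg_left f2 (tail_nonneg Y)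
  linarith

end

end Pool.Agent.KS6_53.Y4
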