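import Pool.Agent.KS6_53.Y4.A1

set_option autoImplicit false
set_option linter.style.haveILetI false

namespace Pool.Agent.KS6_53.Y4

open Finset Filter Topology Pool.Agent.KS6_53.V5

/-- the exceptional pairs -/
def GG2 (X g0 : ℝ) (N : ℕ) : Set ((Fin 5 → ℤ) × ℕ) := {z | mm z.1 ≠ 0 ∧ nz z.1 ≤ X ∧
  g0 ≤ z.2 ∧ ∃ (j : ℕ) (x' : Fin 5 → ℤ), 1 ≤ j ∧ Unimod x' ∧ z.1 = (j : ℤ) • x' ∧
    z.2 ∣ gg x' ∧ (N < j ∨ N * z.2 < gg x')}

theorem GG2_card : ∃ C : ℝ, 0 < C ∧ ∀ X g0 : ℝ, 0 < X → 0 < g0 → ∀ N : ℕ,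
    (GG2 X g0 N).Finite ∧ ((GG2 X g0 N).ncard : ℝ) ≤ C * tail N * (X ^ 5 / g0) := by
  classical
  obtain ⟨C1, hC1, h1⟩ := tl2
  refine ⟨2 * C1 * (tail 0 + 1), by have := tail_nonneg 0; positivity, fun X g0 hX0 hg0 N => ?_⟩
  -- the bound of one piece
  have hpiece : ∀ j n : ℕ, 1 ≤ j → 1 ≤ n →
      {z : ℕ × (Fin 5 → ℤ) | g0 ≤ z.1 ∧ Unimod z.2 ∧ mm z.2 ≠ 0 ∧ nz z.2 ≤ X / j ∧
        z.1 * n ∣ gg z.2}.Finite ∧
      ({z : ℕ × (Fin 5 → ℤ) | g0 ≤ z.1 ∧ Unimod z.2 ∧ mm z.2 ≠ 0 ∧ nz z.2 ≤ X / j ∧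
        z.1 * n ∣ gg z.2}.ncard : ℝ) ≤ C1 * (X ^ 5 / g0) * (ww j * ww n) := by
    intro j n hj hn
    have hj1 : (1 : ℝ) ≤ j := by exact_mod_cast hj
    have hn1 : (1 : ℝ) ≤ n := by exact_mod_cast hn
    have hj0 : (0 : ℝ) < j := by linarith
    have hn0 : (0 : ℝ) < n := by linarith
    obtain ⟨a, b⟩ := h1 (X / j) g0 n (by positivity) (by positivity) hn
    refine ⟨a, b.trans ?_⟩
    have e1 : (X / j) ^ 5 / (g0 * (n : ℝ) ^ (7 / 6 : ℝ)) ≤ X ^ 5 / g0 * (ww j * ww n) := by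
      have e2 : (X / j) ^ 5 / (g0 * (n : ℝ) ^ (7 / 6 : ℝ)) =
          X ^ 5 / g0 * ((j : ℝ) ^ (-5 : ℝ) * ww n) := by
        have e3 : (j : ℝ) ^ (-5 : ℝ) = ((j : ℝ) ^ 5)⁻¹ := by
          rw [Real.rpow_neg hj0.le]
          norm_num
        rw [ww, e3, Real.rpow_neg hn0.le]
        field_simp
      rw [e2]
      refine mul_le_mul_of_nonneg_left (mul_le_mul_of_nonneg_right ?_ (ww_nonneg n)) (by positivity)
      exact Real.rpow_le_rpow_of_exponent_le hj1 (by norm_num)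
    calc C1 * ((X / j) ^ 5 / (g0 * (n : ℝ) ^ (7 / 6 : ℝ)))
        ≤ C1 * (X ^ 5 / g0 * (ww j * ww n)) := mul_le_mul_of_nonneg_left e1 hC1.le
      _ = _ := by ring
  set J : ℕ := ⌊X⌋₊ + ⌊6 * (X) ^ 3⌋₊ with hJ
  let I : Finset (ℕ × ℕ) := ((Finset.Icc 1 J) ×ˢ (Finset.Icc 1 J)).filter fun y => N < y.1 ∨ N < y.2
  let S : ℕ × ℕ → Set (ℕ × (Fin 5 → ℤ)) := fun y => {z : ℕ × (Fin 5 → ℤ) | 1 ≤ y.1 ∧ 1 ≤ y.2 ∧
    g0 ≤ z.1 ∧ Unimod z.2 ∧ mm z.2 ≠ 0 ∧ nz z.2 ≤ X / y.1 ∧ z.1 * y.2 ∣ gg z.2}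
  have hSfin : ∀ y, (S y).Finite := by
    intro y
    by_cases h : 1 ≤ y.1 ∧ 1 ≤ y.2
    · exact ((hpiece y.1 y.2 h.1 h.2).1).subset fun z hz => hz.2.2
    · have : S y = ∅ := by
        ext z
        simp only [S, Set.mem_ofPred_eq, Set.mem_empty_iff_false, iff_false]
        tauto
      rw [this]
      exact Set.finite_empty
  have hsub : GG2 X g0 N ⊆ ((I.biUnion fun y => ((hSfin y).toFinset.image fun z =>
      ((y.1 : ℤ) • z.2, z.1)) : Finset ((Fin 5 → ℤ) × ℕ)) : Set ((Fin 5 → ℤ) × ℕ)) := by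
    rintro ⟨x, g⟩ ⟨hm, hX, hG, j, x', hj, hx', hxx, hgd, hN⟩
    simp only at hm hX hG hxx hgd hN
    have hm' : mm x' ≠ 0 := by
      intro h0
      apply hm
      rw [hxx, mm_smul, h0, smul_zero]
    have hg' := gg_pos hm'
    obtain ⟨n, hn⟩ := hgd
    have hgp : 0 < g := by
      rcases Nat.eq_zero_or_pos g with h0 | h0
      · rw [h0, zero_mul] at hn
        omega
      · exact h0
    have hn1 : 1 ≤ n := by
      rcases Nat.eq_zero_or_pos n with h0 | h0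
      · rw [h0, mul_zero] at hn
        omega
      · exact h0
    have hj1 : (1 : ℝ) ≤ j := by exact_mod_cast hj
    have hx'1 : 1 ≤ nz x' := one_le_nz' hx'
    have hXj : j * nz x' ≤ X := by
      rw [hxx, nz_nsmul] at hX
      exact hX
    have hx'A : nz x' ≤ X := by nlinarith
    have hjJ : j ≤ J := by
      have : j ≤ ⌊X⌋₊ := by
        apply Nat.le_floor
        nlinarith
      omega
    have hnJ : n ≤ J := by
      have : n ≤ ⌊6 * (X) ^ 3⌋₊ := by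
        apply Nat.le_floor
        have e1 : (n : ℝ) ≤ gg x' := by
          rw [hn]
          exact_mod_cast Nat.le_mul_of_pos_left _ hgp
        have e2 : (gg x' : ℝ) ≤ nz (mm x') := by
          obtain ⟨w, hw, hmw, -⟩ := exists_plane hx' hm'
          rw [hmw, nz_smul]
          have : |((gg x' : ℤ) : ℝ)| = gg x' := by simp
          rw [this]
          have := one_le_nz' hw.1
          nlinarith [(Nat.cast_nonneg (gg x') : (0 : ℝ) ≤ _)]
        have e3 := nz_mm_le x'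
        have e4 : nz x' ^ 3 ≤ (X) ^ 3 := pow_le_pow_left₀ (by linarith) hx'A 3
        linarith
      omega
    have hNn : N < j ∨ N < n := by
      rcases hN with h | h
      · exact Or.inl h
      · right
        rw [hn, mul_comm N] at h
        exact Nat.lt_of_mul_lt_mul_left h
    simp only [Finset.coe_biUnion, Set.mem_iUnion, Finset.coe_image, Set.mem_image,
      Set.Finite.coe_toFinset]
    refine ⟨(j, n), ?_, (g, x'), ?_, ?_⟩
    · simp only [I, Finset.coe_filter, Finset.mem_product, Finset.mem_Icc, Set.mem_ofPred_eq]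
      exact ⟨⟨⟨hj, hjJ⟩, hn1, hnJ⟩, hNn⟩
    · refine ⟨hj, hn1, hG, hx', hm', ?_, ?_⟩
      · simp only
        rw [le_div_iff₀ (by linarith)]
        linarith
      · simp only
        rw [hn]
    · simp only [Prod.mk.injEq, and_true]
      exact hxx.symm
  refine ⟨(Finset.finite_toSet _).subset hsub, ?_⟩
  have hc1 := Set.ncard_le_ncard hsub (Finset.finite_toSet _)
  rw [Set.ncard_coe_finset] at hc1
  have hc2 : ((I.biUnion fun y => ((hSfin y).toFinset.image fun z =>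
      ((y.1 : ℤ) • z.2, z.1))).card : ℝ) ≤ ∑ y ∈ I, C1 * (X ^ 5 / g0) * (ww y.1 * ww y.2) := by
    refine le_trans (b := ((∑ y ∈ I, ((hSfin y).toFinset.image fun z =>
      ((y.1 : ℤ) • z.2, z.1)).card : ℕ) : ℝ)) (by exact_mod_cast Finset.card_biUnion_le) ?_
    push_cast
    refine Finset.sum_le_sum fun y hy => ?_
    simp only [I, Finset.mem_filter, Finset.mem_product, Finset.mem_Icc] at hy
    have e1 : (((hSfin y).toFinset.image fun z => ((y.1 : ℤ) • z.2, z.1)).card : ℝ) ≤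
        (S y).ncard := by
      rw [Set.ncard_eq_toFinset_card _ (hSfin y)]
      exact_mod_cast Finset.card_image_le
    refine e1.trans ?_
    obtain ⟨a, b⟩ := hpiece y.1 y.2 hy.1.1.1 hy.1.2.1
    refine le_trans ?_ b
    have : S y ⊆ {z : ℕ × (Fin 5 → ℤ) | g0 ≤ z.1 ∧ Unimod z.2 ∧ mm z.2 ≠ 0 ∧
      nz z.2 ≤ X / y.1 ∧ z.1 * y.2 ∣ gg z.2} := fun z hz => hz.2.2
    exact_mod_cast Set.ncard_le_ncard this a
  have hc3 : ∑ y ∈ I, ww y.1 * ww y.2 ≤ 2 * (tail 0 * tail N) := by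
    have hI : I ⊆ ((Finset.Ioc N J) ×ˢ (Finset.Ioc 0 J)) ∪ ((Finset.Ioc 0 J) ×ˢ (Finset.Ioc N J)) := by
      intro y hy
      simp only [I, Finset.mem_filter, Finset.mem_product, Finset.mem_Icc] at hy
      simp only [Finset.mem_union, Finset.mem_product, Finset.mem_Ioc]
      omega
    refine (Finset.sum_le_sum_of_subset_of_nonneg hI fun y _ _ =>
      mul_nonneg (ww_nonneg _) (ww_nonneg _)).trans ?_
    have hun : ∑ y ∈ ((Finset.Ioc N J) ×ˢ (Finset.Ioc 0 J)) ∪ ((Finset.Ioc 0 J) ×ˢ (Finset.Ioc N J)),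
        ww y.1 * ww y.2 ≤ ∑ y ∈ (Finset.Ioc N J) ×ˢ (Finset.Ioc 0 J), ww y.1 * ww y.2 +
        ∑ y ∈ (Finset.Ioc 0 J) ×ˢ (Finset.Ioc N J), ww y.1 * ww y.2 := by
      rw [← Finset.sum_union_inter]
      have : 0 ≤ ∑ y ∈ ((Finset.Ioc N J) ×ˢ (Finset.Ioc 0 J)) ∩ ((Finset.Ioc 0 J) ×ˢ (Finset.Ioc N J)),
        ww y.1 * ww y.2 := Finset.sum_nonneg fun y _ => mul_nonneg (ww_nonneg _) (ww_nonneg _)
      linarith
    refine hun.trans ?_
    rw [Finset.sum_product, Finset.sum_product]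
    simp only [← Finset.mul_sum]
    rw [← Finset.sum_mul, ← Finset.sum_mul]
    have s1 := sum_Ioc_le_tail N J
    have s2 := sum_Ioc_le_tail 0 J
    have n1 : 0 ≤ ∑ m ∈ Finset.Ioc N J, ww m := Finset.sum_nonneg fun _ _ => ww_nonneg _
    have n2 : 0 ≤ ∑ m ∈ Finset.Ioc 0 J, ww m := Finset.sum_nonneg fun _ _ => ww_nonneg _
    have m1 := mul_le_mul s1 s2 n2 (tail_nonneg N)
    have m2 := mul_le_mul s2 s1 n1 (tail_nonneg 0)
    linarith
  rw [← Finset.mul_sum] at hc2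
  have t0 := tail_nonneg 0
  have tN := tail_nonneg N
  calc ((GG2 X g0 N).ncard : ℝ) ≤ _ := by exact_mod_cast hc1
    _ ≤ _ := hc2
    _ ≤ C1 * (X ^ 5 / g0) * (2 * (tail 0 * tail N)) := mul_le_mul_of_nonneg_left hc3 (by positivity)
    _ ≤ _ := by
      have : 0 ≤ C1 * (X ^ 5 / g0) * tail N := by positivity
      nlinarith

/-- box counts -/
def BX2 (X g0 g1 : ℝ) (d : ℕ) : Set ((Fin 5 → ℤ) × ℕ) :=
  {z | nz z.1 ≤ X ∧ g0 ≤ z.2 ∧ (z.2 : ℝ) ≤ g1 ∧ d ∣ z.2 ∧ red z.2 z.1 ∈ CC z.2}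

theorem BX2_card (X g0 g1 : ℝ) (hX : 0 < X) (hg0 : 0 < g0) (hg1 : 0 < g1) (d : ℕ) (hd : 1 ≤ d) :
    (BX2 X g0 g1 d).Finite ∧ ((BX2 X g0 g1 d).ncard : ℝ) ≤
      (2 * X / g0 + 2) ^ 5 * g1 ^ 4 / d := by
  classical
  have hd0 : (0 : ℝ) < d := by exact_mod_cast hd
  let B : ℕ → Set (Fin 5 → ℤ) := fun q => {x | 0 < q ∧ (∀ i, |(x i : ℝ) - 0| ≤ X) ∧ red q x ∈ CC q}
  have hBf : ∀ q, (B q).Finite := fun q =>
    (finite_box (fun _ => 0) X).subset fun x hx => hx.2.1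
  let I : Finset ℕ := (Finset.Icc 1 ⌊g1 / d⌋₊).filter fun n => g0 ≤ ((d * n : ℕ) : ℝ)
  have hsub : BX2 X g0 g1 d ⊆ ((I.biUnion fun n => ((hBf (d * n)).toFinset.image fun x => (x, d * n)) :
      Finset ((Fin 5 → ℤ) × ℕ)) : Set ((Fin 5 → ℤ) × ℕ)) := by
    rintro ⟨x, g⟩ ⟨h1, h2, h3, ⟨n, hn⟩, h5⟩
    simp only at h1 h2 h3 hn h5
    have hgp : 0 < g := by
      have : (0 : ℝ) < g := lt_of_lt_of_le hg0 h2
      exact_mod_cast this
    have hn1 : 1 ≤ n := by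
      rcases Nat.eq_zero_or_pos n with h0 | h0
      · rw [h0, mul_zero] at hn
        omega
      · exact h0
    simp only [Finset.coe_biUnion, Set.mem_iUnion, Finset.coe_image, Set.mem_image,
      Set.Finite.coe_toFinset]
    refine ⟨n, ?_, x, ?_, ?_⟩
    · simp only [I, Finset.coe_filter, Finset.mem_Icc, Set.mem_ofPred_eq]
      refine ⟨⟨hn1, Nat.le_floor ?_⟩, ?_⟩
      · rw [le_div_iff₀ hd0]
        rw [hn] at h3
        push_cast at h3
        linarith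
      · rw [← hn]
        exact h2
    · rw [← hn]
      refine ⟨hgp, fun i => ?_, h5⟩
      rw [sub_zero]
      exact (le_nz x i).trans h1
    · rw [← hn]
  refine ⟨(Finset.finite_toSet _).subset hsub, ?_⟩
  have hc1 := Set.ncard_le_ncard hsub (Finset.finite_toSet _)
  rw [Set.ncard_coe_finset] at hc1
  have hc2 : ((I.biUnion fun n => ((hBf (d * n)).toFinset.image fun x => (x, d * n))).card : ℝ) ≤
      ∑ n ∈ I, (2 * X / g0 + 2) ^ 5 * g1 ^ 3 := by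
    refine le_trans (b := ((∑ n ∈ I, ((hBf (d * n)).toFinset.image fun x => (x, d * n)).card : ℕ) : ℝ))
      (by exact_mod_cast Finset.card_biUnion_le) ?_
    push_cast
    refine Finset.sum_le_sum fun n hn => ?_
    simp only [I, Finset.mem_filter, Finset.mem_Icc] at hn
    have hq : 0 < d * n := Nat.mul_pos hd hn.1.1
    have hq0 : (0 : ℝ) < ((d * n : ℕ) : ℝ) := by exact_mod_cast hq
    have hqA : ((d * n : ℕ) : ℝ) ≤ g1 := by
      have e1 : (n : ℝ) ≤ g1 / d := le_trans (by exact_mod_cast hn.1.2) (Nat.floor_le (by positivity))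
      rw [le_div_iff₀ hd0] at e1
      push_cast
      linarith
    have e1 : (((hBf (d * n)).toFinset.image fun x => (x, d * n)).card : ℝ) ≤ (B (d * n)).ncard := by
      rw [Set.ncard_eq_toFinset_card _ (hBf (d * n))]
      exact_mod_cast Finset.card_image_le
    refine e1.trans ?_
    obtain ⟨a, b⟩ := box (d * n) hq (fun _ => 0) X (by positivity)
    have e2 : (B (d * n)).ncard ≤ {x : Fin 5 → ℤ | (∀ i, |(x i : ℝ) - 0| ≤ X) ∧
        red (d * n) x ∈ CC (d * n)}.ncard := Set.ncard_le_ncard (fun x hx => hx.2) a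
    calc ((B (d * n)).ncard : ℝ) ≤ _ := by exact_mod_cast e2
      _ ≤ (2 * X / ((d * n : ℕ) : ℝ) + 2) ^ 5 * ((d * n : ℕ) : ℝ) ^ 3 := b
      _ ≤ (2 * X / g0 + 2) ^ 5 * g1 ^ 3 := by
        refine mul_le_mul (pow_le_pow_left₀ (by positivity) ?_ 5)
          (pow_le_pow_left₀ (by positivity) hqA 3) (by positivity) (by positivity)
        have : 2 * X / ((d * n : ℕ) : ℝ) ≤ 2 * X / g0 :=
          div_le_div_of_nonneg_left (by positivity) hg0 hn.2
        linarith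
  rw [Finset.sum_const, nsmul_eq_mul] at hc2
  have hIc : (I.card : ℝ) ≤ g1 / d := by
    have : I.card ≤ ⌊g1 / d⌋₊ := by
      refine (Finset.card_filter_le _ _).trans ?_
      rw [Nat.card_Icc, Nat.add_sub_cancel]
    exact le_trans (by exact_mod_cast this) (Nat.floor_le (by positivity))
  calc ((BX2 X g0 g1 d).ncard : ℝ) ≤ _ := by exact_mod_cast hc1
    _ ≤ _ := hc2
    _ ≤ g1 / d * ((2 * X / g0 + 2) ^ 5 * g1 ^ 3) :=
      mul_le_mul_of_nonneg_right hIc (by positivity)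
    _ = _ := by ring

end Pool.Agent.KS6_53.Y4
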