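import Pool.Agent.KS6_53.V5.Bl
import Pool.Agent.KS6_53.Y4.C4

set_option autoImplicit false

namespace Pool.Agent.KS6_53.Y4

open Finset Filter Topology MeasureTheory Pool.Agent.KS6_53.V5

section

variable {G : (Fin 5 → ℝ) × ℝ × ℝ → ℝ}

theorem approx_t (P : Finset ℕ) (hP : ∀ p ∈ P, p.Prime) (θ : (Fin 5 → ℤ) → ℝ) (hθ : Adm P θ) (a b : ℝ)
    (hab : ∀ x, θ x ∈ Set.Icc a b) (hG : Tst G) (t0 : ℝ) (ht0 : 0 < t0)
    (ε : ℝ) (hε : 0 < ε) :
    ∃ Y0 : ℕ, ∀ Y ≥ Y0, ∃ k0 : ℕ, ∀ k ≥ k0, ∃ vl : (Fin 5 → ZMod (pm Y ^ k)) → ℝ,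
      (∀ r, vl r ∈ Set.Icc a b) ∧ ∀ᶠ T in atTop, ∀ t : ℝ, t0 ≤ t →
        |BSt G θ T t / (t ^ 5 * T ^ 2) - MM Y k G vl| ≤ ε := by
  classical
  obtain ⟨A, δ, hA, hδ, hs, hprof⟩ := hG.prof
  obtain ⟨B, hB, hBb⟩ := bound_tau hG a b
  obtain ⟨C1, hC1, hcomp⟩ := comp0_t hA hδ ht0 hs
  obtain ⟨C3, hC3, Y1, hkap⟩ := kap_bound
  have hab' : a ≤ b := (hab 0).1.trans (hab 0).2
  set c1 : ℝ := A ^ 4 * (B * vb A) with hc1
  have hvb := vb_nonneg A
  have hc10 : 0 ≤ c1 := by positivity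
  -- the choices
  obtain ⟨k1, hk1⟩ := two_pow_small (C1 * B * P.card) (ε / 8) (by positivity)
  obtain ⟨η, hη, hunif⟩ := unif_tau hG a b (ε / (8 * C1)) (by positivity)
  obtain ⟨Q', hQ'0, hQ'⟩ := hθ k1 η hη
  obtain ⟨Y2, hY2⟩ := tail_small (C1 * B) (ε / 8) (by positivity)
  obtain ⟨Y3, hY3⟩ := tail_small (C3 * c1) (ε / 8) (by positivity)
  refine ⟨max (max Y1 Q') (max Y2 Y3), fun Y hY => ?_⟩
  have hYa : Y1 ≤ Y := ((le_max_left _ _).trans (le_max_left _ _)).trans hY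
  have hYb : Q' ≤ Y := ((le_max_right _ _).trans (le_max_left _ _)).trans hY
  have hYc : Y2 ≤ Y := ((le_max_left _ _).trans (le_max_right _ _)).trans hY
  have hYd : Y3 ≤ Y := ((le_max_right _ _).trans (le_max_right _ _)).trans hY
  have t1 := hY2 Y hYc
  have t2 := hY3 Y hYd
  obtain ⟨k2, hk2, hk2'⟩ := hkap Y hYa
  obtain ⟨k3, hk3⟩ := two_pow_small (C1 * B * (Y + 1)) (ε / 8) (by positivity)
  refine ⟨max (max k2 k3) Q', fun k hk => ?_⟩
  have hka : k2 ≤ k := ((le_max_left _ _).trans (le_max_left _ _)).trans hk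
  have hkb : k3 ≤ k := ((le_max_right _ _).trans (le_max_left _ _)).trans hk
  have hkc : Q' ≤ k := (le_max_right _ _).trans hk
  have hk0 : k ≠ 0 := by omega
  have t3 := hk2' k hka
  have t4 := hk3 k hkb
  have hQd : Q' ∣ pm Y ^ k := dvd_pm_pow hQ'0 hYb hkc
  -- the values
  let vl : (Fin 5 → ZMod (pm Y ^ k)) → ℝ := fun r =>
    if h : ∃ x : Fin 5 → ℤ, Unimod x ∧ red (pm Y ^ k) x = r then θ h.choose else a
  have hvl : ∀ r, vl r ∈ Set.Icc a b := by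
    intro r
    simp only [vl]
    split_ifs with h
    · exact hab _
    · exact ⟨le_rfl, hab'⟩
  refine ⟨vl, hvl, ?_⟩
  have hcl : ∀ x, Unimod x → (∀ p ∈ P, ¬ p ^ k1 ∣ gg x) → ∀ u s,
      |G (u, s, vl (red (pm Y ^ k) x)) - G (u, s, θ x)| ≤ ε / (8 * C1) := by
    intro x hx hxP u s
    have hex : ∃ x' : Fin 5 → ℤ, Unimod x' ∧ red (pm Y ^ k) x' = red (pm Y ^ k) x := ⟨x, hx, rfl⟩
    have hval : vl (red (pm Y ^ k) x) = θ hex.choose := by
      simp only [vl]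
      rw [dif_pos hex]
    obtain ⟨c1', c2'⟩ := hex.choose_spec
    rw [hval]
    refine hunif u s _ (hab _) _ (hab _) ?_
    rw [abs_sub_comm]
    refine hQ' x _ hx c1' (fun i => ?_) hxP
    have h1 := congrFun c2' i
    rw [red, red] at h1
    have h2 := (ZMod.intCast_eq_intCast_iff_dvd_sub _ _ _).1 h1
    exact (Int.natCast_dvd_natCast.2 hQd).trans h2
  have e1 := DEt_lim Y k hk0 hprof vl hB.le (fun u s r => hBb u s _ (hvl r)) t0 ht0 (ε / 8)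
    (by positivity)
  filter_upwards [e1, eventually_gt_atTop 0] with T hT1' hT2 t ht
  have hT1 := hT1' t ht
  have ht' : 0 < t := lt_of_lt_of_le ht0 ht
  have e2 := hcomp Y k k1 P vl θ B (ε / (8 * C1)) T t hT2 ht hB.le (by positivity) hP
    (fun u s r => hBb u s _ (hvl r)) (fun u s x => hBb u s _ (hab x)) hcl
  have hTT : 0 < t ^ 5 * T ^ 2 := by positivity
  have e3 : |DEt Y k G vl T t / (t ^ 5 * T ^ 2) - BSt G θ T t / (t ^ 5 * T ^ 2)| ≤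
      C1 * (B * tail Y + B * ((Y + 1) / 2 ^ k) + B * (P.card / 2 ^ k1) + ε / (8 * C1)) := by
    rw [← sub_div, abs_div, abs_of_pos hTT, div_le_iff₀ hTT]
    exact e2
  have e4 : C1 * (B * tail Y + B * ((Y + 1) / 2 ^ k) + B * (P.card / 2 ^ k1) + ε / (8 * C1)) ≤
      ε / 2 := by
    have f1 : C1 * (B * ((Y + 1) / 2 ^ k)) ≤ ε / 8 := by
      refine le_trans (le_of_eq ?_) t4
      ring
    have f2 : C1 * (B * (P.card / 2 ^ k1)) ≤ ε / 8 := by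
      refine le_trans (le_of_eq ?_) (hk1 k1 le_rfl)
      ring
    have f3 : C1 * (ε / (8 * C1)) = ε / 8 := by
      field_simp
    have f4 : C1 * (B * tail Y) ≤ ε / 8 := by
      refine le_trans (le_of_eq ?_) t1
      ring
    rw [mul_add, mul_add, mul_add, f3]
    linarith
  have e5 : tail Y * (kap Y k * c1) ≤ ε / 8 := by
    have htl := tail_nonneg Y
    calc tail Y * (kap Y k * c1) ≤ tail Y * (C3 * c1) := by gcongr
      _ = C3 * c1 * tail Y := by ring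
      _ ≤ _ := t2
  have e6 := e3.trans e4
  rw [abs_le] at e6 hT1 ⊢
  constructor
  · linarith [e6.1, e6.2, hT1.1, hT1.2]
  · linarith [e6.1, e6.2, hT1.1, hT1.2]

theorem BSt_one (θ : (Fin 5 → ℤ) → ℝ) (T : ℝ) : BSt G θ T 1 = BS G θ T := by
  simp only [BSt, BS, one_mul]

/-- the limit is the same for all scales -/
theorem bst_unif (P : Finset ℕ) (hP : ∀ p ∈ P, p.Prime) (θ : (Fin 5 → ℤ) → ℝ) (hθ : Adm P θ) (a b : ℝ)
    (hab : ∀ x, θ x ∈ Set.Icc a b) (hG : Tst G) {L : ℝ}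
    (hL : Tendsto (fun T => BS G θ T / T ^ 2) atTop (𝓝 L)) (t0 : ℝ) (ht0 : 0 < t0) (ε : ℝ)
    (hε : 0 < ε) : ∀ᶠ T in atTop, ∀ t : ℝ, t0 ≤ t → |BSt G θ T t / (t ^ 5 * T ^ 2) - L| ≤ ε := by
  obtain ⟨Y0, h1⟩ := approx_t P hP θ hθ a b hab hG (min t0 1) (by positivity) (ε / 2) (by positivity)
  obtain ⟨k0, h2⟩ := h1 Y0 le_rfl
  obtain ⟨vl, -, h3⟩ := h2 k0 le_rfl
  have h4 : |L - MM Y0 k0 G vl| ≤ ε / 2 := by
    refine le_of_tendsto (hL.sub_const _).abs ?_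
    filter_upwards [h3] with T hT
    have := hT 1 (min_le_right _ _)
    rw [BSt_one, one_pow, one_mul] at this
    exact this
  filter_upwards [h3] with T hT t ht
  have h5 := hT t ((min_le_left _ _).trans ht)
  rw [abs_le] at h4 h5 ⊢
  constructor
  · linarith [h4.1, h4.2, h5.1, h5.2]
  · linarith [h4.1, h4.2, h5.1, h5.2]

end

end Pool.Agent.KS6_53.Y4
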