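import Pool.Agent.KS6_53.V5.Shell

set_option autoImplicit false
set_option linter.style.haveILetI false

namespace Pool.Agent.KS6_53.Y4

open Finset Pool.Agent.KS6_53.V5

/-- the vectors with a small content -/
def EM (M T G : ℝ) : Set (Fin 5 → ℤ) := {x | Unimod x ∧ mm x ≠ 0 ∧ nz x ^ 2 ≤ M * T ∧
  T / 2 * gg x < nz (mm x) ∧ nz (mm x) ≤ T * gg x ∧ (gg x : ℝ) ≤ G}

theorem EM_fin (M T G : ℝ) : (EM M T G).Finite :=
  (nz_fin (√(M * T))).subset fun x hx => Real.le_sqrt_of_sq_le hx.2.2.1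

theorem shell (M : ℝ) (hM : 1 ≤ M) : ∃ D : ℝ, 0 < D ∧ ∀ T G X : ℝ, 0 < T → 0 < G → 0 < X →
    ({x ∈ EM M T G | X / 2 < nz x ∧ nz x ≤ X}.ncard : ℝ) ≤ D * T ^ 2 / X * min G (12 * X ^ 3 / T) := by
  classical
  obtain ⟨C, hC, hcov⟩ := cover 96 (by norm_num)
  set D : ℝ := 64 * (C * (2 * C + M) ^ 5) with hD
  have hD0 : 0 < D := by positivity
  refine ⟨D, hD0, fun T G X hT hG hX0 => ?_⟩
  set S := {x ∈ EM M T G | X / 2 < nz x ∧ nz x ≤ X} with hS
  have hfD : S.Finite := (EM_fin M T G).subset fun x hx => hx.1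
  by_cases hXT : 4 * (M * T) < X ^ 2
  · have : S = ∅ := by
      ext x
      simp only [Set.mem_empty_iff_false, iff_false]
      rintro ⟨hx, e1, -⟩
      have e2 := hx.2.2.1
      nlinarith
    rw [this, Set.ncard_empty, Nat.cast_zero]
    positivity
  · push Not at hXT
    set Q : ℕ := ⌊min G (12 * X ^ 3 / T)⌋₊ with hQ
    have hmin0 : 0 < min G (12 * X ^ 3 / T) := by positivity
    have hQr' : (Q : ℝ) ≤ min G (12 * X ^ 3 / T) := Nat.floor_le hmin0.le
    have hQr : (Q : ℝ) ≤ 12 * X ^ 3 / T := hQr'.trans (min_le_right _ _)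
    have hBex : ∀ q ∈ Finset.Icc 1 Q, ∃ B : Finset (Fin 5 → ℝ),
        (B.card : ℝ) ≤ C * (X / (8 * q * T / X ^ 2)) ^ 3 ∧
        ∀ u : Fin 5 → ℝ, X / 2 ≤ ‖u‖ → ‖u‖ ≤ X → ‖mm u‖ ≤ 8 * q * T / X ^ 2 * X ^ 2 →
          ∃ a ∈ B, ‖u - a‖ ≤ C * (8 * q * T / X ^ 2) := by
      intro q hq
      rw [Finset.mem_Icc] at hq
      have hq1 : (1 : ℝ) ≤ q := by exact_mod_cast hq.1
      have hqQ : (q : ℝ) ≤ 12 * X ^ 3 / T := le_trans (by exact_mod_cast hq.2) hQr
      refine hcov X _ hX0 (by positivity) ?_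
      rw [le_div_iff₀ hT] at hqQ
      rw [div_le_iff₀ (by positivity)]
      nlinarith
    choose! B hB1 hB2 using hBex
    let F : ℕ → (Fin 5 → ℝ) → Set (Fin 5 → ℤ) := fun q a =>
      {x | (∀ i, |(x i : ℝ) - a i| ≤ C * (8 * q * T / X ^ 2)) ∧ red q x ∈ CC q}
    have hGfin : ∀ q ∈ Finset.Icc 1 Q, ∀ a, (F q a).Finite ∧ ((F q a).ncard : ℝ) ≤
        (2 * C + M) ^ 5 * (8 * q * T / X ^ 2) ^ 5 / q ^ 2 := by
      intro q hq a
      rw [Finset.mem_Icc] at hq
      have hq1 : (1 : ℝ) ≤ q := by exact_mod_cast hq.1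
      have hq0 : (0 : ℝ) < q := by linarith
      obtain ⟨b1, b2⟩ := box q hq.1 a (C * (8 * q * T / X ^ 2)) (by positivity)
      refine ⟨b1, b2.trans ?_⟩
      have hR : 2 * (q : ℝ) ≤ M * (8 * q * T / X ^ 2) := by
        rw [mul_div_assoc', le_div_iff₀ (by positivity)]
        nlinarith
      have e1 : 2 * (C * (8 * q * T / X ^ 2)) / q + 2 ≤
          (2 * C + M) * (8 * q * T / X ^ 2) / q := by
        rw [div_add' _ _ _ hq0.ne', div_le_div_iff_of_pos_right hq0]
        nlinarith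
      calc (2 * (C * (8 * q * T / X ^ 2)) / q + 2) ^ 5 * (q : ℝ) ^ 3
          ≤ ((2 * C + M) * (8 * q * T / X ^ 2) / q) ^ 5 * (q : ℝ) ^ 3 :=
            mul_le_mul_of_nonneg_right (pow_le_pow_left₀ (by positivity) e1 5) (by positivity)
        _ = _ := by
            field_simp
    have hcover : (hfD.toFinset : Set (Fin 5 → ℤ)) ⊆
        ⋃ q ∈ Finset.Icc 1 Q, ⋃ a ∈ B q, F q a := by
      intro x hx
      rw [Set.Finite.coe_toFinset] at hx
      obtain ⟨⟨a1, a2, a4, a5, a6, a7⟩, e1, a3⟩ := hx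
      have hg := gg_pos a2
      have hg1 : (1 : ℝ) ≤ gg x := by exact_mod_cast hg
      have hle := nz_mm_le x
      have hnz : 0 ≤ nz x := nz_nonneg x
      have h3 : nz x ^ 3 ≤ X ^ 3 := pow_le_pow_left₀ hnz a3 3
      have hgQ : gg x ≤ Q := by
        apply Nat.le_floor
        refine le_min a7 ?_
        rw [le_div_iff₀ hT]
        nlinarith
      have hgI : gg x ∈ Finset.Icc 1 Q := Finset.mem_Icc.2 ⟨hg, hgQ⟩
      obtain ⟨a, ha, hua⟩ := hB2 (gg x) hgI (rv x) e1.le a3 (by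
        rw [← rv_mm]
        have e2 : ‖rv (mm x)‖ = nz (mm x) := rfl
        rw [e2, div_mul_cancel₀ _ (by positivity)]
        nlinarith)
      simp only [Set.mem_iUnion]
      refine ⟨gg x, hgI, a, ha, fun i => ?_, red_mem_CC a1 dvd_rfl⟩
      exact (abs_le_norm (rv x - a) i).trans hua
    have hbi : hfD.toFinset ⊆ (Finset.Icc 1 Q).attach.biUnion fun q =>
        (B q.1).biUnion fun a => ((hGfin q.1 q.2 a).1).toFinset := by
      intro x hx
      have := hcover hx
      simp only [Set.mem_iUnion] at this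
      obtain ⟨q, hq, a, ha, hxa⟩ := this
      simp only [Finset.mem_biUnion, Finset.mem_attach, true_and, Subtype.exists]
      exact ⟨q, hq, a, ha, by simpa using hxa⟩
    rw [Set.ncard_eq_toFinset_card _ hfD]
    have hc1 := Finset.card_le_card hbi
    have hc2 : (((Finset.Icc 1 Q).attach.biUnion fun q =>
        (B q.1).biUnion fun a => ((hGfin q.1 q.2 a).1).toFinset).card : ℝ) ≤
        ∑ q ∈ (Finset.Icc 1 Q).attach, D * (T ^ 2 / X) := by
      refine le_trans (b := ((∑ q ∈ (Finset.Icc 1 Q).attach, ((B q.1).biUnion fun a =>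
        ((hGfin q.1 q.2 a).1).toFinset).card : ℕ) : ℝ))
        (by exact_mod_cast Finset.card_biUnion_le) ?_
      push_cast
      refine Finset.sum_le_sum fun q _ => ?_
      have hq := Finset.mem_Icc.1 q.2
      have hq1 : (1 : ℝ) ≤ (q.1 : ℕ) := by exact_mod_cast hq.1
      have hq0 : (0 : ℝ) < (q.1 : ℕ) := by linarith
      refine le_trans (b := ((∑ a ∈ B q.1, (((hGfin q.1 q.2 a).1).toFinset).card : ℕ) : ℝ))
        (by exact_mod_cast Finset.card_biUnion_le) ?_
      push_cast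
      calc ∑ a ∈ B q.1, ((((hGfin q.1 q.2 a).1).toFinset).card : ℝ)
          ≤ ∑ a ∈ B q.1, (2 * C + M) ^ 5 * (8 * (q.1 : ℕ) * T / X ^ 2) ^ 5 / (q.1 : ℕ) ^ 2 := by
            refine Finset.sum_le_sum fun a _ => ?_
            rw [← Set.ncard_eq_toFinset_card _ (hGfin q.1 q.2 a).1]
            exact (hGfin q.1 q.2 a).2
        _ = (B q.1).card * ((2 * C + M) ^ 5 * (8 * (q.1 : ℕ) * T / X ^ 2) ^ 5 /
              (q.1 : ℕ) ^ 2) := by
            rw [Finset.sum_const, nsmul_eq_mul]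
        _ ≤ C * (X / (8 * (q.1 : ℕ) * T / X ^ 2)) ^ 3 *
              ((2 * C + M) ^ 5 * (8 * (q.1 : ℕ) * T / X ^ 2) ^ 5 / (q.1 : ℕ) ^ 2) :=
            mul_le_mul_of_nonneg_right (hB1 q.1 q.2) (by positivity)
        _ = D * (T ^ 2 / X) := by
            rw [hD]
            field_simp
            ring
    rw [Finset.sum_const, Finset.card_attach, Nat.card_Icc, Nat.add_sub_cancel,
      nsmul_eq_mul] at hc2
    calc ((hfD.toFinset.card : ℕ) : ℝ) ≤ _ := by exact_mod_cast hc1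
      _ ≤ _ := hc2
      _ ≤ min G (12 * X ^ 3 / T) * (D * (T ^ 2 / X)) :=
          mul_le_mul_of_nonneg_right hQr' (by positivity)
      _ = D * T ^ 2 / X * min G (12 * X ^ 3 / T) := by
          ring

/-- **vectors with a small content** -/
theorem near_count (M : ℝ) (hM : 1 ≤ M) : ∃ C : ℝ, 0 < C ∧ ∀ T G Y : ℝ, 0 < T → 0 < G → 0 < Y →
    ((EM M T G).ncard : ℝ) ≤ C * (T * Y ^ 2 + T ^ 2 * G / Y) := by
  classical
  obtain ⟨D, hD, hsh⟩ := shell M hM
  refine ⟨16 * D + D, by positivity, fun T G Y hT hG hY => ?_⟩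
  have hf := EM_fin M T G
  -- the lower part
  have h1 : ({x ∈ EM M T G | nz x ≤ Y}.ncard : ℝ) ≤ 16 * D * (T * Y ^ 2) := by
    have key := dyadic (fun X => ({x ∈ EM M T G | nz x ≤ X}.ncard : ℝ)) (12 * D * T) 2 Y (by positivity)
      (by norm_num)
      (fun X hX1 => by
        have : {x ∈ EM M T G | nz x ≤ X} = ∅ := by
          ext x
          simp only [Set.mem_ofPred_eq, Set.mem_empty_iff_false, iff_false]
          rintro ⟨h1, h2⟩
          linarith [one_le_nz' h1.1]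
        simp [this])
      (fun X hX1 _ => by
        have hX0 : 0 < X := by linarith
        have hsub : {x ∈ EM M T G | nz x ≤ X} ⊆ {x ∈ EM M T G | nz x ≤ X / 2} ∪
            {x ∈ EM M T G | X / 2 < nz x ∧ nz x ≤ X} := by
          rintro x ⟨hx, hxX⟩
          rcases le_or_gt (nz x) (X / 2) with h | h
          · exact Or.inl ⟨hx, h⟩
          · exact Or.inr ⟨hx, h, hxX⟩
        have f1 : {x ∈ EM M T G | nz x ≤ X / 2}.Finite := hf.subset fun x hx => hx.1
        have f2 : {x ∈ EM M T G | X / 2 < nz x ∧ nz x ≤ X}.Finite := hf.subset fun x hx => hx.1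
        have e1 := (Set.ncard_le_ncard hsub (f1.union f2)).trans (Set.ncard_union_le _ _)
        have e2 : ({x ∈ EM M T G | nz x ≤ X}.ncard : ℝ) ≤ {x ∈ EM M T G | nz x ≤ X / 2}.ncard +
            {x ∈ EM M T G | X / 2 < nz x ∧ nz x ≤ X}.ncard := by exact_mod_cast e1
        refine e2.trans (add_le_add le_rfl ?_)
        refine (hsh T G X hT hG hX0).trans ?_
        have e3 : min G (12 * X ^ 3 / T) ≤ 12 * X ^ 3 / T := min_le_right _ _
        calc D * T ^ 2 / X * min G (12 * X ^ 3 / T) ≤ D * T ^ 2 / X * (12 * X ^ 3 / T) :=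
              mul_le_mul_of_nonneg_left e3 (by positivity)
          _ = 12 * D * T * X ^ (2 : ℝ) := by
              rw [Real.rpow_two]
              field_simp) Y hY le_rfl
    rw [Real.rpow_two, show (2 : ℝ) ^ (-(2 : ℝ)) = 1 / 4 by
      rw [Real.rpow_neg (by norm_num), Real.rpow_two]
      norm_num] at key
    refine key.trans (le_of_eq ?_)
    ring
  -- the upper part
  have h2 : ∀ n : ℕ, ∀ X : ℝ, 0 < X → M * T < (2 ^ n * X) ^ 2 →
      ({x ∈ EM M T G | X < nz x}.ncard : ℝ) ≤ D * T ^ 2 * G / X := by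
    intro n
    induction n with
    | zero =>
      intro X hX hn
      have : {x ∈ EM M T G | X < nz x} = ∅ := by
        ext x
        simp only [Set.mem_ofPred_eq, Set.mem_empty_iff_false, iff_false]
        rintro ⟨a1, a2⟩
        have a3 := a1.2.2.1
        rw [pow_zero, one_mul] at hn
        nlinarith
      rw [this, Set.ncard_empty, Nat.cast_zero]
      positivity
    | succ n ih =>
      intro X hX hn
      have hsub : {x ∈ EM M T G | X < nz x} ⊆ {x ∈ EM M T G | 2 * X / 2 < nz x ∧ nz x ≤ 2 * X} ∪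
          {x ∈ EM M T G | 2 * X < nz x} := by
        rintro x ⟨hx, hxX⟩
        rcases le_or_gt (nz x) (2 * X) with h | h
        · exact Or.inl ⟨hx, by linarith, h⟩
        · exact Or.inr ⟨hx, h⟩
      have f1 : {x ∈ EM M T G | 2 * X / 2 < nz x ∧ nz x ≤ 2 * X}.Finite := hf.subset fun x hx => hx.1
      have f2 : {x ∈ EM M T G | 2 * X < nz x}.Finite := hf.subset fun x hx => hx.1
      have e1 := (Set.ncard_le_ncard hsub (f1.union f2)).trans (Set.ncard_union_le _ _)
      have e2 : ({x ∈ EM M T G | X < nz x}.ncard : ℝ) ≤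
          {x ∈ EM M T G | 2 * X / 2 < nz x ∧ nz x ≤ 2 * X}.ncard +
          {x ∈ EM M T G | 2 * X < nz x}.ncard := by exact_mod_cast e1
      have e3 := ih (2 * X) (by positivity) (by
        have : 2 ^ n * (2 * X) = 2 ^ (n + 1) * X := by ring
        rw [this]
        exact hn)
      have e4 := hsh T G (2 * X) hT hG (by positivity)
      have e5 : D * T ^ 2 / (2 * X) * min G (12 * (2 * X) ^ 3 / T) ≤ D * T ^ 2 / (2 * X) * G :=
        mul_le_mul_of_nonneg_left (min_le_left _ _) (by positivity)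
      have e6 : D * T ^ 2 * G / X = D * T ^ 2 / (2 * X) * G + D * T ^ 2 * G / (2 * X) := by
        field_simp
        ring
      rw [e6]
      linarith
  obtain ⟨n, hn⟩ := pow_unbounded_of_one_lt (√(M * T) / Y) (by norm_num : (1 : ℝ) < 2)
  have h3 := h2 n Y hY (by
    rw [div_lt_iff₀ hY] at hn
    have h4 : √(M * T) ^ 2 = M * T := Real.sq_sqrt (by positivity)
    rw [← h4]
    exact pow_lt_pow_left₀ hn (Real.sqrt_nonneg _) two_ne_zero)
  have hsub : EM M T G ⊆ {x ∈ EM M T G | nz x ≤ Y} ∪ {x ∈ EM M T G | Y < nz x} := by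
    intro x hx
    rcases le_or_gt (nz x) Y with h | h
    · exact Or.inl ⟨hx, h⟩
    · exact Or.inr ⟨hx, h⟩
  have f1 : {x ∈ EM M T G | nz x ≤ Y}.Finite := hf.subset fun x hx => hx.1
  have f2 : {x ∈ EM M T G | Y < nz x}.Finite := hf.subset fun x hx => hx.1
  have e1 := (Set.ncard_le_ncard hsub (f1.union f2)).trans (Set.ncard_union_le _ _)
  have e2 : ((EM M T G).ncard : ℝ) ≤ {x ∈ EM M T G | nz x ≤ Y}.ncard +
      {x ∈ EM M T G | Y < nz x}.ncard := by exact_mod_cast e1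
  have e3 : 0 ≤ D * (T * Y ^ 2) := by positivity
  have e4 : 0 ≤ D * (T ^ 2 * G / Y) := by positivity
  have e5 : D * T ^ 2 * G / Y = D * (T ^ 2 * G / Y) := by ring
  rw [e5] at h3
  nlinarith

end Pool.Agent.KS6_53.Y4
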