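import Pool.Agent.KS6_53.V5.Fa4

set_option autoImplicit false

namespace Pool.Agent.KS6_53.Y4

open Finset Filter Topology Pool.Agent.KS6_53.V5

section

variable {L : Type*} [NormedField L]

/-- the pairs of a vector and of a plane through it -/
def Cone2 (L : Type*) [NormedField L] : Set ((Fin 5 → L) × (Fin 5 × Fin 5 → L)) :=
  {z | z.1 ≠ 0 ∧ z.2 ∈ Cone L ∧ In z.2 z.1}

/-- a positive continuous function on `Y(L)` -/
structure Fac2 (L : Type*) [NormedField L] (ψ : (Fin 5 → L) × (Fin 5 × Fin 5 → L) → ℝ) : Prop where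
  pos : ∀ z ∈ Cone2 L, 0 < ψ z
  cts : ContinuousOn ψ (Cone2 L)
  inv : ∀ a b : L, a ≠ 0 → b ≠ 0 → ∀ z ∈ Cone2 L, ψ (a • z.1, b • z.2) = ψ z

/-- the normalized pairs -/
def N2 (L : Type*) [NormedField L] : Set ((Fin 5 → L) × (Fin 5 × Fin 5 → L)) :=
  {z | ‖z.1‖ = 1 ∧ z.2 ∈ (fun z : (Fin 5 → L) × (Fin 5 → L) => wedge z.1 z.2) '' KI L ∧ In z.2 z.1}

theorem in_closed : IsClosed {z : (Fin 5 → L) × (Fin 5 × Fin 5 → L) | In z.2 z.1} := by
  have : {z : (Fin 5 → L) × (Fin 5 × Fin 5 → L) | In z.2 z.1} =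
      ⋂ i, ⋂ j, ⋂ k, {z : (Fin 5 → L) × (Fin 5 × Fin 5 → L) |
        z.1 i * z.2 (j, k) - z.1 j * z.2 (i, k) + z.1 k * z.2 (i, j) = 0} := by
    ext z
    simp only [In, Set.mem_ofPred_eq, Set.mem_iInter]
  rw [this]
  refine isClosed_iInter fun i => isClosed_iInter fun j => isClosed_iInter fun k => ?_
  refine isClosed_eq ?_ continuous_const
  fun_prop

theorem N2_compact [ProperSpace L] : IsCompact (N2 L) := by
  have h1 : IsCompact ((fun z : (Fin 5 → L) × (Fin 5 → L) => wedge z.1 z.2) '' KI L) :=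
    KI_compact.image wedge_cts
  have h2 : IsCompact (Metric.closedBall (0 : Fin 5 → L) 1 ×ˢ
      ((fun z : (Fin 5 → L) × (Fin 5 → L) => wedge z.1 z.2) '' KI L)) :=
    (isCompact_closedBall _ _).prod h1
  have h3 : N2 L = (Metric.closedBall (0 : Fin 5 → L) 1 ×ˢ
      ((fun z : (Fin 5 → L) × (Fin 5 → L) => wedge z.1 z.2) '' KI L)) ∩
      ({z | ‖z.1‖ = 1} ∩ {z | In z.2 z.1}) := by
    ext z
    simp only [N2, Set.mem_ofPred_eq, Set.mem_inter_iff, Set.mem_prod, mem_closedBall_zero_iff]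
    constructor
    · rintro ⟨a, b, c⟩
      exact ⟨⟨a.le, b⟩, a, c⟩
    · rintro ⟨⟨-, b⟩, a, c⟩
      exact ⟨a, b, c⟩
  rw [h3]
  exact h2.inter_right ((isClosed_eq continuous_fst.norm continuous_const).inter in_closed)

theorem N2_cone {z : (Fin 5 → L) × (Fin 5 × Fin 5 → L)} (hz : z ∈ N2 L) : z ∈ Cone2 L := by
  obtain ⟨a, ⟨y, hy, hyz⟩, c⟩ := hz
  refine ⟨fun h0 => ?_, ?_, c⟩
  · rw [h0, norm_zero] at a
    exact zero_ne_one a
  · rw [← hyz]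
    exact KI_cone hy

theorem exists_norm_coord {ι : Type*} [Fintype ι] [Nonempty ι] (x : ι → L) : ∃ i, ‖x‖ = ‖x i‖ := by
  obtain ⟨i, hi⟩ := Finite.exists_max fun i => ‖x i‖
  refine ⟨i, le_antisymm ?_ (norm_le_pi_norm _ i)⟩
  rw [pi_norm_le_iff_of_nonneg (norm_nonneg _)]
  exact hi

theorem in_smul_both {w : Fin 5 × Fin 5 → L} {x : Fin 5 → L} (c d : L) (h : In w x) :
    In (c • w) (d • x) := by
  intro i j k
  have h1 := h i j k
  simp only [Pi.smul_apply, smul_eq_mul]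
  linear_combination (c * d) * h1

/-- normalization -/
theorem norm_pair {z : (Fin 5 → L) × (Fin 5 × Fin 5 → L)} (hz : z ∈ Cone2 L) :
    ∃ (y : (Fin 5 → L) × (Fin 5 × Fin 5 → L)) (a b : L), y ∈ N2 L ∧ a ≠ 0 ∧ b ≠ 0 ∧
      ‖a‖ = ‖z.1‖ ∧ ‖b‖ = ‖z.2‖ ∧ z.1 = a • y.1 ∧ z.2 = b • y.2 := by
  obtain ⟨h1, ⟨h2, x, y, hi, hxy⟩, h3⟩ := hz
  obtain ⟨i, hia⟩ := exists_norm_coord z.1
  have hn : 0 < ‖z.1‖ := norm_pos_iff.2 h1
  have ha0 : z.1 i ≠ 0 := by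
    intro h0
    rw [hia, h0, norm_zero] at hn
    exact lt_irrefl _ hn
  rw [hxy] at h2
  obtain ⟨pq, b, hpq, hb, hbn, hbe⟩ := norm_basis hi h2
  refine ⟨((z.1 i)⁻¹ • z.1, wedge pq.1 pq.2), z.1 i, b, ⟨?_, ⟨pq, hpq, rfl⟩, ?_⟩, ha0, hb, hia.symm,
    ?_, ?_, ?_⟩
  · simp only
    rw [norm_smul, norm_inv, hia, inv_mul_cancel₀]
    rw [← hia]
    exact hn.ne'
  · simp only
    have h4 : wedge pq.1 pq.2 = b⁻¹ • z.2 := by
      rw [hxy, hbe, smul_smul, inv_mul_cancel₀ hb, one_smul]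
    rw [h4]
    exact in_smul_both _ _ h3
  · rw [hbn, hxy]
  · simp only
    rw [smul_smul, mul_inv_cancel₀ ha0, one_smul]
  · simp only
    rw [hxy, hbe]

variable {ψ : (Fin 5 → L) × (Fin 5 × Fin 5 → L) → ℝ}

theorem Fac2.bounds [ProperSpace L] (h : Fac2 L ψ) :
    ∃ a b : ℝ, 0 < a ∧ ∀ z ∈ Cone2 L, a ≤ ψ z ∧ ψ z ≤ b := by
  have hc : ContinuousOn ψ (N2 L) := h.cts.mono fun z hz => N2_cone hz
  have hval : ∀ z ∈ Cone2 L, ∃ y ∈ N2 L, ψ z = ψ y := by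
    intro z hz
    obtain ⟨y, a, b, hy, ha, hb, -, -, e1, e2⟩ := norm_pair hz
    refine ⟨y, hy, ?_⟩
    rw [← h.inv a b ha hb y (N2_cone hy), ← e1, ← e2]
  rcases (N2 L).eq_empty_or_nonempty with hE | hE
  · refine ⟨1, 1, one_pos, fun q hq => ?_⟩
    obtain ⟨z, hz, -⟩ := hval q hq
    rw [hE] at hz
    exact absurd hz (Set.notMem_empty z)
  · obtain ⟨z1, hz1, h1⟩ := N2_compact.exists_isMinOn hE hc
    obtain ⟨z2, hz2, h2⟩ := N2_compact.exists_isMaxOn hE hc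
    refine ⟨ψ z1, ψ z2, h.pos _ (N2_cone hz1), fun q hq => ?_⟩
    obtain ⟨z, hz, he⟩ := hval q hq
    rw [he]
    exact ⟨h1 hz, h2 hz⟩

/-- the vector and the plane through it -/
theorem in_mm_self (x : Fin 5 → L) : In (mm x) x := by
  intro i j k
  simp only [mm, wedge]
  ring

theorem mm_cone2 {x : Fin 5 → L} (h : mm x ≠ 0) : (x, mm x) ∈ Cone2 L := by
  refine ⟨?_, mm_cone h, in_mm_self x⟩
  rintro h0
  simp only at h0
  apply h
  rw [h0]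
  funext p
  simp [mm, wedge]

/-- uniform continuity of `ψ (u, mm u)` -/
theorem Fac2.unif [ProperSpace L] (h : Fac2 L ψ) {c : ℝ} (hc : 0 < c)
    {ε : ℝ} (hε : 0 < ε) : ∃ δ : ℝ, 0 < δ ∧ ∀ u u' : Fin 5 → L, ‖u‖ ≤ 1 → ‖u'‖ ≤ 1 →
      c ≤ ‖mm u‖ → c ≤ ‖mm u'‖ → ‖u - u'‖ < δ → |ψ (u, mm u) - ψ (u', mm u')| ≤ ε := by
  set K : Set (Fin 5 → L) := {u | ‖u‖ ≤ 1 ∧ c ≤ ‖mm u‖} with hK
  have hKc : IsCompact K := by
    refine Metric.isCompact_of_isClosed_isBounded ?_ ?_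
    · exact IsClosed.inter (isClosed_le continuous_norm continuous_const)
        (isClosed_le continuous_const mm_cts.norm)
    · refine (Metric.isBounded_closedBall (x := 0) (r := 1)).subset ?_
      rintro u ⟨h1, -⟩
      rwa [mem_closedBall_zero_iff]
  have hcts : ContinuousOn (fun u => ψ (u, mm u)) K := by
    refine h.cts.comp (continuous_id.prodMk mm_cts).continuousOn fun u hu => mm_cone2 fun h0 => ?_
    have := hu.2
    rw [h0, norm_zero] at this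
    linarith
  obtain ⟨δ, hδ, h2⟩ := Metric.uniformContinuousOn_iff.1
    (hKc.uniformContinuousOn_of_continuous hcts) ε hε
  refine ⟨δ, hδ, fun u u' a b c d e => ?_⟩
  have := h2 u ⟨a, c⟩ u' ⟨b, d⟩ (by rwa [dist_eq_norm])
  rw [Real.dist_eq] at this
  exact this.le

/-- uniform continuity on the normalized pairs -/
theorem Fac2.unif2 [ProperSpace L] (h : Fac2 L ψ) {ε : ℝ} (hε : 0 < ε) : ∃ δ : ℝ, 0 < δ ∧
    ∀ z ∈ N2 L, ∀ z' ∈ N2 L, dist z z' < δ → |ψ z - ψ z'| ≤ ε := by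
  have hc : ContinuousOn ψ (N2 L) := h.cts.mono fun z hz => N2_cone hz
  obtain ⟨δ, hδ, h2⟩ := Metric.uniformContinuousOn_iff.1
    (N2_compact.uniformContinuousOn_of_continuous hc) ε hε
  refine ⟨δ, hδ, fun z hz z' hz' hd => ?_⟩
  have := h2 z hz z' hz' hd
  rw [Real.dist_eq] at this
  exact this.le

end

end Pool.Agent.KS6_53.Y4
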