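import Pool.Agent.KS6_53.Y4.D2

set_option autoImplicit false

namespace Pool.Agent.KS6_53.Y4

open Finset Filter Topology Pool.Agent.KS6_53.V5

/-- the dyadic partition function -/
noncomputable def rho (v : ℝ) : ℝ := max 0 (min (2 * v - 1) (2 - v))

theorem rho_cts : Continuous rho := by
  unfold rho
  fun_prop

theorem rho_nonneg (v : ℝ) : 0 ≤ rho v := le_max_left _ _

theorem rho_le (v : ℝ) : rho v ≤ 1 := by
  refine max_le zero_le_one ?_
  by_cases h : v ≤ 1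
  · exact (min_le_left _ _).trans (by linarith)
  · exact (min_le_right _ _).trans (by linarith)

theorem rho_supp {v : ℝ} (h : rho v ≠ 0) : 1 / 2 < v ∧ v < 2 := by
  constructor
  · by_contra hc
    apply h
    rw [rho, max_eq_left]
    exact (min_le_left _ _).trans (by linarith)
  · by_contra hc
    apply h
    rw [rho, max_eq_left]
    exact (min_le_right _ _).trans (by linarith)

theorem rho_pos {v : ℝ} (h1 : 1 / 2 < v) (h2 : v < 2) : 0 < rho v :=
  lt_max_of_lt_right (lt_min (by linarith) (by linarith))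

/-- the cutoff -/
noncomputable def tz1 (η v : ℝ) : ℝ := max 0 (min 1 ((1 + η - v) / η))

theorem tz1_cts (η : ℝ) : Continuous (tz1 η) := by
  unfold tz1
  fun_prop

theorem tz1_nonneg (η v : ℝ) : 0 ≤ tz1 η v := le_max_left _ _

theorem tz1_le (η v : ℝ) : tz1 η v ≤ 1 := max_le zero_le_one (min_le_left _ _)

theorem tz1_supp {η v : ℝ} (hη : 0 < η) (h : tz1 η v ≠ 0) : v < 1 + η := by
  by_contra hc
  apply h
  rw [tz1, max_eq_left]
  refine (min_le_right _ _).trans ?_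
  exact div_nonpos_of_nonpos_of_nonneg (by linarith) hη.le

theorem tz1_one {η v : ℝ} (hη : 0 < η) (h : v ≤ 1) : tz1 η v = 1 := by
  have e2 : 1 ≤ (1 + η - v) / η := by
    rw [le_div_iff₀ hη]
    linarith
  rw [tz1, min_eq_left e2, max_eq_right zero_le_one]

theorem tz1_pos {η v : ℝ} (hη : 0 < η) (h : v < 1 + η) : 0 < tz1 η v :=
  lt_max_of_lt_right (lt_min one_pos (div_pos (by linarith) hη))

/-- the cutoff of the small contents -/
noncomputable def cut (δ s : ℝ) : ℝ := max 0 (min 1 (s / δ - 1))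

theorem cut_cts (δ : ℝ) : Continuous (cut δ) := by
  unfold cut
  fun_prop

theorem cut_nonneg (δ s : ℝ) : 0 ≤ cut δ s := le_max_left _ _

theorem cut_le (δ s : ℝ) : cut δ s ≤ 1 := max_le zero_le_one (min_le_left _ _)

theorem cut_supp {δ s : ℝ} (hδ : 0 < δ) (h : cut δ s ≠ 0) : δ < s := by
  by_contra hc
  apply h
  rw [cut, max_eq_left]
  refine (min_le_right _ _).trans ?_
  have : s / δ ≤ 1 := (div_le_one hδ).2 (not_lt.1 hc)
  linarith

theorem cut_one {δ s : ℝ} (hδ : 0 < δ) (h : 2 * δ ≤ s) : cut δ s = 1 := by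
  have e2 : 1 ≤ s / δ - 1 := by
    have : 2 ≤ s / δ := by
      rw [le_div_iff₀ hδ]
      exact h
    linarith
  rw [cut, min_eq_left e2, max_eq_right zero_le_one]

theorem cut_pos {δ s : ℝ} (hδ : 0 < δ) (h : δ < s) : 0 < cut δ s := by
  refine lt_max_of_lt_right (lt_min one_pos ?_)
  have : 1 < s / δ := (one_lt_div hδ).2 h
  linarith

/-- the test function of a block -/
noncomputable def GB (ψ : (Fin 5 → ℝ) × (Fin 5 × Fin 5 → ℝ) → ℝ) (η a b δ : ℝ)
    (z : (Fin 5 → ℝ) × ℝ × ℝ) : ℝ := by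
  classical
  exact if mm z.1 = 0 then 0 else
    rho (‖mm z.1‖ * z.2.1 ^ 2) *
      tz1 η (‖z.1‖ ^ 2 * ‖mm z.1‖ * z.2.1 ^ 4 * ψ (z.1, mm z.1) * max a (min b z.2.2)) * cut δ z.2.1

/-- the real data -/
structure Rd2 (ψ : (Fin 5 → ℝ) × (Fin 5 × Fin 5 → ℝ) → ℝ) (η a b a' b' : ℝ) : Prop where
  fac : Fac2 ℝ ψ
  hη : 0 < η
  ha : 0 < a
  hab : a ≤ b
  ha' : 0 < a'
  hψ : ∀ z ∈ Cone2 ℝ, a' ≤ ψ z ∧ ψ z ≤ b'

section

variable {ψ : (Fin 5 → ℝ) × (Fin 5 × Fin 5 → ℝ) → ℝ} {η a b a' b' δ : ℝ}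

theorem GB_nonneg (z : (Fin 5 → ℝ) × ℝ × ℝ) : 0 ≤ GB ψ η a b δ z := by
  rw [GB]
  split_ifs
  · exact le_rfl
  · exact mul_nonneg (mul_nonneg (rho_nonneg _) (tz1_nonneg _ _)) (cut_nonneg _ _)

theorem GB_tst (h : Rd2 ψ η a b a' b') (hδ : 0 < δ) : Tst (GB ψ η a b δ) := by
  have hη := h.hη
  have ha := h.ha
  have ha' := h.ha'
  refine ⟨?_, ?_⟩
  · -- continuity
    rw [continuous_iff_continuousAt]
    rintro ⟨u, s, τ⟩
    have c2 : Continuous fun z : (Fin 5 → ℝ) × ℝ × ℝ => ‖mm z.1‖ := (mm_cts.comp continuous_fst).norm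
    by_cases hu : mm u = 0
    · have hev : ∀ᶠ z : (Fin 5 → ℝ) × ℝ × ℝ in 𝓝 (u, s, τ), ‖mm z.1‖ * z.2.1 ^ 2 < 1 / 2 := by
        have hc : Continuous fun z : (Fin 5 → ℝ) × ℝ × ℝ => ‖mm z.1‖ * z.2.1 ^ 2 := by fun_prop
        refine (hc.tendsto (u, s, τ)).eventually (gt_mem_nhds ?_)
        simp only
        rw [hu, norm_zero, zero_mul]
        norm_num
      have : GB ψ η a b δ =ᶠ[𝓝 (u, s, τ)] fun _ => 0 := by
        filter_upwards [hev] with z hz
        rw [GB]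
        split_ifs with h0
        · rfl
        · have h1 : rho (‖mm z.1‖ * z.2.1 ^ 2) = 0 := by
            by_contra hc
            linarith [(rho_supp hc).1]
          rw [h1, zero_mul, zero_mul]
      exact (continuousAt_congr this).2 continuousAt_const
    · have hopen : IsOpen {z : (Fin 5 → ℝ) × ℝ × ℝ | mm z.1 ≠ 0} :=
        isOpen_ne_fun (mm_cts.comp continuous_fst) continuous_const
      have hmem : {z : (Fin 5 → ℝ) × ℝ × ℝ | mm z.1 ≠ 0} ∈ 𝓝 (u, s, τ) := hopen.mem_nhds hu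
      have he : GB ψ η a b δ =ᶠ[𝓝 (u, s, τ)] fun z => rho (‖mm z.1‖ * z.2.1 ^ 2) *
          tz1 η (‖z.1‖ ^ 2 * ‖mm z.1‖ * z.2.1 ^ 4 * ψ (z.1, mm z.1) * max a (min b z.2.2)) *
          cut δ z.2.1 := by
        filter_upwards [hmem] with z hz
        rw [GB, if_neg hz]
      refine (continuousAt_congr he).2 ?_
      have c1 : ContinuousAt (fun z : (Fin 5 → ℝ) × ℝ × ℝ => ψ (z.1, mm z.1)) (u, s, τ) := by
        have : ContinuousOn (fun z : (Fin 5 → ℝ) × ℝ × ℝ => ψ (z.1, mm z.1)) {z | mm z.1 ≠ 0} :=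
          h.fac.cts.comp (continuous_fst.prodMk (mm_cts.comp continuous_fst)).continuousOn
            fun z hz => mm_cone2 hz
        exact this.continuousAt hmem
      have c3 : ContinuousAt (fun z : (Fin 5 → ℝ) × ℝ × ℝ => ‖z.1‖ ^ 2 * ‖mm z.1‖ * z.2.1 ^ 4 *
          ψ (z.1, mm z.1) * max a (min b z.2.2)) (u, s, τ) := by
        have e1 : Continuous fun z : (Fin 5 → ℝ) × ℝ × ℝ => ‖z.1‖ ^ 2 * ‖mm z.1‖ * z.2.1 ^ 4 := by
          fun_prop
        have e2 : Continuous fun z : (Fin 5 → ℝ) × ℝ × ℝ => max a (min b z.2.2) := by fun_prop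
        exact (e1.continuousAt.mul c1).mul e2.continuousAt
      have c4 : ContinuousAt (fun z : (Fin 5 → ℝ) × ℝ × ℝ => tz1 η (‖z.1‖ ^ 2 * ‖mm z.1‖ *
          z.2.1 ^ 4 * ψ (z.1, mm z.1) * max a (min b z.2.2))) (u, s, τ) :=
        ContinuousAt.comp (g := tz1 η) (tz1_cts η).continuousAt c3
      have c5 : Continuous fun z : (Fin 5 → ℝ) × ℝ × ℝ => rho (‖mm z.1‖ * z.2.1 ^ 2) :=
        rho_cts.comp (by fun_prop)
      have c6 : Continuous fun z : (Fin 5 → ℝ) × ℝ × ℝ => cut δ z.2.1 := (cut_cts δ).comp (by fun_prop)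
      exact (c5.continuousAt.mul c4).mul c6.continuousAt
  · -- support
    set C1 : ℝ := 2 * (1 + η) / (a' * a) + 1 with hC1
    have hC10 : 0 < 2 * (1 + η) / (a' * a) := by positivity
    have hC11 : 1 ≤ C1 := by
      rw [hC1]
      linarith
    set S : ℝ := 12 * C1 ^ 3 with hS
    have hS0 : 0 < S := by positivity
    refine ⟨min δ (1 / (2 * S ^ 2)), max S (C1 / δ), by positivity, ?_⟩
    rintro ⟨u, s, τ⟩ hz
    simp only
    rw [GB] at hz
    split_ifs at hz with hu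
    · exact absurd rfl hz
    simp only at hz
    have z1 : rho (‖mm u‖ * s ^ 2) ≠ 0 := fun h0 => hz (by rw [h0, zero_mul, zero_mul])
    have z2 : tz1 η (‖u‖ ^ 2 * ‖mm u‖ * s ^ 4 * ψ (u, mm u) * max a (min b τ)) ≠ 0 := fun h0 => hz (by
      rw [h0, mul_zero, zero_mul])
    have z3 : cut δ s ≠ 0 := fun h0 => hz (by rw [h0, mul_zero])
    obtain ⟨r1, r2⟩ := rho_supp z1
    have r3 := tz1_supp hη z2
    have r4 := cut_supp hδ z3
    have hs0 : 0 < s := lt_trans hδ r4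
    have hn := norm_nonneg u
    have hψ := (h.hψ _ (mm_cone2 hu)).1
    simp only at hψ
    have hψ0 : 0 ≤ ψ (u, mm u) := ha'.le.trans hψ
    have hcl : a ≤ max a (min b τ) := le_max_left _ _
    -- the bound of u
    have e1 : (‖u‖ * s) ^ 2 ≤ C1 ^ 2 := by
      have e2 : ‖u‖ ^ 2 * s ^ 2 * (1 / 2) * (a' * a) ≤ 1 + η := by
        calc ‖u‖ ^ 2 * s ^ 2 * (1 / 2) * (a' * a) ≤ ‖u‖ ^ 2 * s ^ 2 * (‖mm u‖ * s ^ 2) *
              (ψ (u, mm u) * max a (min b τ)) := by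
              gcongr
          _ = ‖u‖ ^ 2 * ‖mm u‖ * s ^ 4 * ψ (u, mm u) * max a (min b τ) := by ring
          _ ≤ 1 + η := r3.le
      have e3 : (‖u‖ * s) ^ 2 ≤ 2 * (1 + η) / (a' * a) := by
        rw [le_div_iff₀ (by positivity)]
        nlinarith
      nlinarith
    have e4 : ‖u‖ * s ≤ C1 := (pow_le_pow_iff_left₀ (by positivity) (by positivity) two_ne_zero).1 e1
    have e5 : ‖mm u‖ ≤ 6 * ‖u‖ ^ 3 := norm_mm_le u
    have e6 : s ≤ S := by
      have e7 : 1 / 2 * s ≤ ‖mm u‖ * s ^ 3 := by nlinarith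
      have e8 : ‖mm u‖ * s ^ 3 ≤ 6 * C1 ^ 3 := by
        calc ‖mm u‖ * s ^ 3 ≤ 6 * ‖u‖ ^ 3 * s ^ 3 := mul_le_mul_of_nonneg_right e5 (by positivity)
          _ = 6 * (‖u‖ * s) ^ 3 := by ring
          _ ≤ 6 * C1 ^ 3 := by gcongr
      rw [hS]
      linarith
    refine ⟨?_, ?_, ?_, ?_⟩
    · refine le_trans ?_ (le_max_right _ _)
      rw [le_div_iff₀ hδ]
      refine le_trans ?_ e4
      exact mul_le_mul_of_nonneg_left r4.le hn
    · refine (min_le_right _ _).trans ?_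
      rw [div_le_iff₀ (by positivity)]
      have e9 : s ^ 2 ≤ S ^ 2 := pow_le_pow_left₀ hs0.le e6 2
      have e10 : ‖mm u‖ * s ^ 2 ≤ ‖mm u‖ * S ^ 2 := mul_le_mul_of_nonneg_left e9 (norm_nonneg _)
      linarith
    · exact (min_le_left _ _).trans r4.le
    · exact e6.trans (le_max_left _ _)

end

end Pool.Agent.KS6_53.Y4
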