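import Pool.Agent.KS6_53.Y4.D1
import Pool.Agent.KS6_53.Y4.D3
import Pool.Agent.KS6_53.Y4.C5

set_option autoImplicit false

namespace Pool.Agent.KS6_53.Y4

open Finset Filter Topology Pool.Agent.KS6_53.V5

/-- the height of a vector -/
noncomputable def HH (ψ : (Fin 5 → ℝ) × (Fin 5 × Fin 5 → ℝ) → ℝ) (θ : (Fin 5 → ℤ) → ℝ)
    (x : Fin 5 → ℤ) : ℝ := nz x ^ 2 * (nz (mm x) / gg x) * ψ (rv x, rv (mm x)) * θ x

/-- the term of a block -/
noncomputable def tb (ψ : (Fin 5 → ℝ) × (Fin 5 × Fin 5 → ℝ) → ℝ) (η : ℝ) (θ : (Fin 5 → ℤ) → ℝ)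
    (W B : ℝ) (x : Fin 5 → ℤ) : ℝ := rho (nz (mm x) / gg x / W) * tz1 η (HH ψ θ x / B)

/-- the sum of a block -/
noncomputable def Blk (ψ : (Fin 5 → ℝ) × (Fin 5 × Fin 5 → ℝ) → ℝ) (η : ℝ) (θ : (Fin 5 → ℤ) → ℝ)
    (W B : ℝ) : ℝ := ∑ᶠ x ∈ {x : Fin 5 → ℤ | Unimod x ∧ mm x ≠ 0}, tb ψ η θ W B x

section

variable {ψ : (Fin 5 → ℝ) × (Fin 5 × Fin 5 → ℝ) → ℝ} {η a b a' b' δ : ℝ} {θ : (Fin 5 → ℤ) → ℝ}

theorem tb_nonneg (W B : ℝ) (x : Fin 5 → ℤ) : 0 ≤ tb ψ η θ W B x :=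
  mul_nonneg (rho_nonneg _) (tz1_nonneg _ _)

theorem tb_le (W B : ℝ) (x : Fin 5 → ℤ) : tb ψ η θ W B x ≤ 1 := by
  have h1 := rho_le (nz (mm x) / gg x / W)
  have h2 := tz1_le η (HH ψ θ x / B)
  have h3 := rho_nonneg (nz (mm x) / gg x / W)
  have h4 := tz1_nonneg η (HH ψ θ x / B)
  exact mul_le_one₀ h1 h4 h2

theorem rv_ne {ι : Type*} {x : ι → ℤ} (h : x ≠ 0) : rv x ≠ 0 := by
  intro h0
  apply h
  funext i
  have := congrFun h0 i
  simp only [rv, Pi.zero_apply] at this ⊢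
  exact_mod_cast this

theorem rv_mm_ne {x : Fin 5 → ℤ} (h : mm x ≠ 0) : mm (rv x) ≠ 0 := by
  rw [← rv_mm]
  exact rv_ne h

theorem rv_cone2 {x : Fin 5 → ℤ} (h : mm x ≠ 0) : (rv x, rv (mm x)) ∈ Cone2 ℝ := by
  rw [rv_mm]
  exact mm_cone2 (rv_mm_ne h)

/-- support of the term -/
theorem tb_supp (h : Rd2 ψ η a b a' b') (hθ : ∀ x, θ x ∈ Set.Icc a b) {W B : ℝ} (hW : 0 < W)
    (hB : 0 < B) {x : Fin 5 → ℤ} (hm : mm x ≠ 0) (hne : tb ψ η θ W B x ≠ 0) :
    W / 2 * gg x < nz (mm x) ∧ nz (mm x) < 2 * W * gg x ∧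
      nz x ^ 2 * W * (a' * a) < 2 * (1 + η) * B := by
  have hg := gg_pos hm
  have hg0 : (0 : ℝ) < gg x := by exact_mod_cast hg
  have z1 : rho (nz (mm x) / gg x / W) ≠ 0 := fun h0 => hne (by rw [tb, h0, zero_mul])
  have z2 : tz1 η (HH ψ θ x / B) ≠ 0 := fun h0 => hne (by rw [tb, h0, mul_zero])
  obtain ⟨r1, r2⟩ := rho_supp z1
  have r3 := tz1_supp h.hη z2
  rw [lt_div_iff₀ hW, lt_div_iff₀ hg0] at r1
  rw [div_lt_iff₀ hW, div_lt_iff₀ hg0] at r2
  rw [div_lt_iff₀ hB] at r3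
  refine ⟨by linarith, by linarith, ?_⟩
  have hψ := (h.hψ _ (rv_cone2 hm)).1
  have hθ' := (hθ x).1
  have ha := h.ha
  have ha' := h.ha'
  have hη := h.hη
  have hψ0 : 0 ≤ ψ (rv x, rv (mm x)) := ha'.le.trans hψ
  have h1 : W / 2 ≤ nz (mm x) / gg x := by
    rw [le_div_iff₀ hg0]
    linarith
  have h2 : nz x ^ 2 * (W / 2) * a' * a ≤ HH ψ θ x := by
    rw [HH]
    have := nz_nonneg x
    have := nz_nonneg (mm x)
    gcongr
  nlinarith

/-- the finite set containing the support -/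
theorem tb_fin (h : Rd2 ψ η a b a' b') (hθ : ∀ x, θ x ∈ Set.Icc a b) {W B : ℝ} (hW : 0 < W)
    (hB : 0 < B) : {x : Fin 5 → ℤ | mm x ≠ 0 ∧ tb ψ η θ W B x ≠ 0}.Finite := by
  have ha := h.ha
  have ha' := h.ha'
  refine (nz_fin (√(2 * (1 + η) * B / (W * (a' * a))))).subset ?_
  rintro x ⟨hm, hne⟩
  obtain ⟨-, -, h1⟩ := tb_supp h hθ hW hB hm hne
  refine Real.le_sqrt_of_sq_le ?_
  rw [le_div_iff₀ (by positivity)]
  nlinarith

/-- the block as a sum of the main theorem -/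
theorem GB_eq (h : Rd2 ψ η a b a' b') (hθ : ∀ x, θ x ∈ Set.Icc a b) {T t : ℝ} (hT : 0 < T)
    (ht : 0 < t) {x : Fin 5 → ℤ} (hm : mm x ≠ 0) :
    GB ψ η a b δ (fun i => (x i : ℝ) / (t * gg x), (gg x : ℝ) / √T, θ x) =
      tb ψ η θ (t ^ 3 * T) (t ^ 5 * T ^ 2) x * cut δ ((gg x : ℝ) / √T) := by
  have hg := gg_pos hm
  have hg0 : (0 : ℝ) < gg x := by exact_mod_cast hg
  have hsT : 0 < √T := Real.sqrt_pos.2 hT
  have hsT2 : √T ^ 2 = T := Real.sq_sqrt hT.le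
  have htg : (0 : ℝ) < t * gg x := by positivity
  have hu : (fun i => (x i : ℝ) / (t * gg x)) = (t * (gg x : ℝ))⁻¹ • rv x := by
    funext i
    rw [Pi.smul_apply, smul_eq_mul, div_eq_inv_mul, rv]
  have hmu : mm ((t * (gg x : ℝ))⁻¹ • rv x) = ((t * (gg x : ℝ))⁻¹) ^ 3 • rv (mm x) := by
    rw [mm_smul, rv_mm]
  have hne : mm ((t * (gg x : ℝ))⁻¹ • rv x) ≠ 0 := by
    rw [hmu]
    exact smul_ne_zero (by positivity) (rv_ne hm)
  have hnmu : ‖mm ((t * (gg x : ℝ))⁻¹ • rv x)‖ = nz (mm x) / (t * gg x) ^ 3 := by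
    rw [hmu, norm_smul, norm_pow, norm_inv, Real.norm_of_nonneg htg.le, nz]
    field_simp
  have hnu : ‖(t * (gg x : ℝ))⁻¹ • rv x‖ = nz x / (t * gg x) := by
    rw [norm_smul, norm_inv, Real.norm_of_nonneg htg.le, nz]
    field_simp
  have hcl : max a (min b (θ x)) = θ x := by
    rw [min_eq_right (hθ x).2, max_eq_right (hθ x).1]
  have hψ : ψ ((t * (gg x : ℝ))⁻¹ • rv x, mm ((t * (gg x : ℝ))⁻¹ • rv x)) = ψ (rv x, rv (mm x)) := by
    rw [hmu]
    exact h.fac.inv _ _ (by positivity) (by positivity) _ (rv_cone2 hm)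
  rw [hu, GB, if_neg hne]
  simp only
  rw [hnmu, hnu, hcl, hψ, tb, HH]
  have e1 : nz (mm x) / (t * (gg x : ℝ)) ^ 3 * ((gg x : ℝ) / √T) ^ 2 =
      nz (mm x) / gg x / (t ^ 3 * T) := by
    rw [div_pow, hsT2]
    field_simp
  have e2 : (nz x / (t * (gg x : ℝ))) ^ 2 * (nz (mm x) / (t * (gg x : ℝ)) ^ 3) *
      ((gg x : ℝ) / √T) ^ 4 * ψ (rv x, rv (mm x)) * θ x =
      nz x ^ 2 * (nz (mm x) / gg x) * ψ (rv x, rv (mm x)) * θ x / (t ^ 5 * T ^ 2) := by
    have e4 : √T ^ 4 = T ^ 2 := by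
      rw [← hsT2]
      ring_nf
      rw [Real.sqrt_sq hsT.le]
    rw [div_pow (gg x : ℝ), e4]
    field_simp
  rw [e1, e2]

/-- **comparison of the block with the cut-off sum** -/
theorem blk_close (h : Rd2 ψ η a b a' b') (hθ : ∀ x, θ x ∈ Set.Icc a b) (t0 : ℝ) (ht0 : 0 < t0) :
    ∃ C : ℝ, 0 < C ∧ ∀ κ : ℝ, 0 < κ → ∀ T t : ℝ, 0 < T → t0 ≤ t →
      |Blk ψ η θ (t ^ 3 * T) (t ^ 5 * T ^ 2) - BSt (GB ψ η a b (κ ^ 3)) θ T t| ≤
        C * κ ^ 2 * (t ^ 5 * T ^ 2) := by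
  classical
  have ha := h.ha
  have ha' := h.ha'
  have hη := h.hη
  set C1 : ℝ := 2 * (1 + η) / (a' * a) with hC1
  have hC10 : 0 < C1 := by positivity
  set M : ℝ := max 1 (C1 / t0) with hM
  have hM1 : 1 ≤ M := le_max_left _ _
  have hM2 : C1 / t0 ≤ M := le_max_right _ _
  obtain ⟨C, hC, hnc⟩ := near_count M hM1
  refine ⟨C * 13, by positivity, fun κ hκ T t hT ht => ?_⟩
  have ht' : 0 < t := lt_of_lt_of_le ht0 ht
  have hsT : 0 < √T := Real.sqrt_pos.2 hT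
  have hsT2 : √T ^ 2 = T := Real.sq_sqrt hT.le
  set W : ℝ := t ^ 3 * T with hW
  set B : ℝ := t ^ 5 * T ^ 2 with hB
  have hW0 : 0 < W := by positivity
  have hB0 : 0 < B := by positivity
  set G : ℝ := 2 * κ ^ 3 * √T with hG
  have hG0 : 0 < G := by positivity
  set Y : ℝ := κ * (t * √T) with hY
  have hY0 : 0 < Y := by positivity
  set S : Set (Fin 5 → ℤ) := EM M W G ∪ EM M (2 * W) G with hS
  have hSf : S.Finite := (EM_fin _ _ _).union (EM_fin _ _ _)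
  have hSc : (S.ncard : ℝ) ≤ C * 13 * κ ^ 2 * B := by
    have e1 := Set.ncard_union_le (EM M W G) (EM M (2 * W) G)
    have e2 : (S.ncard : ℝ) ≤ (EM M W G).ncard + (EM M (2 * W) G).ncard := by exact_mod_cast e1
    have e3 := hnc W G Y hW0 hG0 hY0
    have e4 := hnc (2 * W) G Y (by positivity) hG0 hY0
    have e5 : W * Y ^ 2 = κ ^ 2 * B := by
      rw [hW, hY, hB, mul_pow, mul_pow, hsT2]
      ring
    have e6 : W ^ 2 * G / Y = 2 * κ ^ 2 * B := by
      rw [hW, hY, hB, hG]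
      field_simp
    have e7 : 2 * W * Y ^ 2 = 2 * (κ ^ 2 * B) := by rw [mul_assoc, e5]
    have e8 : (2 * W) ^ 2 * G / Y = 4 * (2 * κ ^ 2 * B) := by
      rw [← e6]
      ring
    rw [e5, e6] at e3
    rw [e7, e8] at e4
    have e9 : 0 ≤ C * (κ ^ 2 * B) := by positivity
    nlinarith
  -- both sums over the same finite set
  set Z := (tb_fin h hθ hW0 hB0).toFinset with hZ
  have hZm : ∀ x, mm x ≠ 0 → tb ψ η θ W B x ≠ 0 → x ∈ Z := by
    intro x h1 h2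
    rw [hZ, Set.Finite.mem_toFinset]
    exact ⟨h1, h2⟩
  have hb : BSt (GB ψ η a b (κ ^ 3)) θ T t = ∑ᶠ x ∈ {x : Fin 5 → ℤ | Unimod x ∧ mm x ≠ 0},
      tb ψ η θ W B x * cut (κ ^ 3) ((gg x : ℝ) / √T) := by
    rw [BSt]
    exact finsum_mem_congr rfl fun x hx => GB_eq h hθ hT ht' hx.2
  rw [hb, Blk, fs_eq _ _ Z (fun x hx hne => hZm x hx.2 hne),
    fs_eq _ _ Z (fun x hx hne => hZm x hx.2 (fun h0 => hne (by rw [h0, zero_mul]))),
    ← Finset.sum_sub_distrib]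
  refine (Finset.abs_sum_le_sum_abs _ _).trans ?_
  refine (Finset.sum_le_sum (g := fun x => if x ∈ S then (1 : ℝ) else 0) ?_).trans ?_
  · intro x hx
    by_cases hx2 : x ∈ {x : Fin 5 → ℤ | Unimod x ∧ mm x ≠ 0}
    · rw [if_pos hx2, if_pos hx2]
      obtain ⟨x1, x2⟩ := hx2
      rw [hZ, Set.Finite.mem_toFinset] at hx
      obtain ⟨-, hne⟩ := hx
      obtain ⟨s1, s2, s3⟩ := tb_supp h hθ hW0 hB0 x2 hne
      by_cases hc : 2 * κ ^ 3 ≤ (gg x : ℝ) / √T
      · rw [cut_one (by positivity) hc, mul_one, sub_self, abs_zero]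
        split_ifs <;> norm_num
      · push Not at hc
        rw [div_lt_iff₀ hsT] at hc
        have hnx : nz x ^ 2 ≤ M * W := by
          have e1 : nz x ^ 2 * (a' * a) ≤ 2 * (1 + η) * (t ^ 2 * T) := by
            have : nz x ^ 2 * (a' * a) * W ≤ 2 * (1 + η) * (t ^ 2 * T) * W := by
              calc nz x ^ 2 * (a' * a) * W = nz x ^ 2 * W * (a' * a) := by ring
                _ ≤ 2 * (1 + η) * B := s3.le
                _ = _ := by
                  rw [hB, hW]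
                  ring
            exact le_of_mul_le_mul_right this hW0
          have e2 : nz x ^ 2 ≤ C1 * (t ^ 2 * T) := by
            rw [hC1, div_mul_eq_mul_div, le_div_iff₀ (by positivity)]
            exact e1
          refine e2.trans ?_
          have e3 : C1 * (t ^ 2 * T) ≤ C1 / t0 * W := by
            have e4 : C1 * (t ^ 2 * T) = C1 / t0 * (t ^ 2 * T * t0) := by
              field_simp
            have e5 : W = t ^ 2 * T * t := by
              rw [hW]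
              ring
            rw [e4, e5]
            gcongr
          exact e3.trans (mul_le_mul_of_nonneg_right hM2 hW0.le)
        have hmem : x ∈ S := by
          by_cases h2 : nz (mm x) ≤ W * gg x
          · left
            exact ⟨x1, x2, hnx, s1, h2, hc.le⟩
          · right
            push Not at h2
            refine ⟨x1, x2, hnx.trans ?_, ?_, s2.le, hc.le⟩
            · have : 0 ≤ M * W := by positivity
              linarith
            · linarith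
        rw [if_pos hmem]
        have f1 := tb_nonneg (ψ := ψ) (η := η) (θ := θ) W B x
        have f2 := tb_le (ψ := ψ) (η := η) (θ := θ) W B x
        have f3 := cut_nonneg (κ ^ 3) ((gg x : ℝ) / √T)
        have f4 := cut_le (κ ^ 3) ((gg x : ℝ) / √T)
        have f5 : tb ψ η θ W B x * cut (κ ^ 3) ((gg x : ℝ) / √T) ≤ tb ψ η θ W B x :=
          mul_le_of_le_one_right f1 f4
        have f6 : 0 ≤ tb ψ η θ W B x * cut (κ ^ 3) ((gg x : ℝ) / √T) := mul_nonneg f1 f3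
        rw [abs_of_nonneg (by linarith)]
        linarith
    · rw [if_neg hx2, if_neg hx2, sub_self, abs_zero]
      split_ifs <;> norm_num
  rw [← Finset.sum_filter, Finset.sum_const, nsmul_eq_mul, mul_one]
  refine le_trans ?_ hSc
  rw [Set.ncard_eq_toFinset_card _ hSf]
  exact_mod_cast Finset.card_le_card fun x hx => by
    rw [Finset.mem_filter] at hx
    simpa using hx.2

end

end Pool.Agent.KS6_53.Y4
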