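import Pool.Agent.KS6_53.Y4.D4

set_option autoImplicit false

namespace Pool.Agent.KS6_53.Y4

open Finset Filter Topology Pool.Agent.KS6_53.V5

section

variable {ψ : (Fin 5 → ℝ) × (Fin 5 × Fin 5 → ℝ) → ℝ} {η a b a' b' δ : ℝ} {θ : (Fin 5 → ℤ) → ℝ}

/-- positivity of the test function -/
theorem GB_pos (h : Rd2 ψ η a b a' b') : ∃ (u : Fin 5 → ℝ) (s : ℝ), 0 < s ∧ ∀ δ : ℝ, 0 < δ → δ < s →
    ∀ τ ∈ Set.Icc a b, 0 < GB ψ η a b δ (u, s, τ) := by
  have hη := h.hη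
  have ha := h.ha
  have hab := h.hab
  have hb : 0 < b := lt_of_lt_of_le ha hab
  set u0 : Fin 5 → ℝ := Pi.single 1 1 with hu0
  have hmm : mm u0 ≠ 0 := by
    intro h0
    have := congrFun h0 (1, 0)
    simp [mm, wedge, hes, hu0] at this
  have hm0 : 0 < ‖mm u0‖ := norm_pos_iff.2 hmm
  set m := ‖mm u0‖ with hm
  have hb' : 0 < ψ (u0, mm u0) := h.fac.pos _ (mm_cone2 hmm)
  set p := ψ (u0, mm u0) with hp
  set n := ‖u0‖ with hn
  have hn0 : 0 ≤ n := norm_nonneg _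
  -- scale
  set c : ℝ := n ^ 2 * p * b / m + 1 with hc
  have hc0 : 0 < c := by positivity
  set s : ℝ := (√(c ^ 3 * m))⁻¹ with hs
  have hcm : 0 < c ^ 3 * m := by positivity
  have hs0 : 0 < s := by positivity
  have hs2 : s ^ 2 = (c ^ 3 * m)⁻¹ := by
    rw [hs, inv_pow, Real.sq_sqrt hcm.le]
  refine ⟨c • u0, s, hs0, fun δ hδ hδs τ hτ => ?_⟩
  have e1 : mm (c • u0) = c ^ 3 • mm u0 := mm_smul _ _
  have hne : mm (c • u0) ≠ 0 := by
    rw [e1]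
    exact smul_ne_zero (by positivity) hmm
  have e2 : ‖mm (c • u0)‖ = c ^ 3 * m := by
    rw [e1, norm_smul, Real.norm_of_nonneg (by positivity)]
  have e3 : ‖c • u0‖ = c * n := by
    rw [norm_smul, Real.norm_of_nonneg hc0.le]
  have e4 : ψ (c • u0, mm (c • u0)) = p := by
    rw [e1]
    exact h.fac.inv _ _ hc0.ne' (by positivity) _ (mm_cone2 hmm)
  have e5 : max a (min b τ) = τ := by rw [min_eq_right hτ.2, max_eq_right hτ.1]
  rw [GB, if_neg hne]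
  simp only
  rw [e2, e3, e4, e5]
  have e6 : c ^ 3 * m * s ^ 2 = 1 := by
    rw [hs2, mul_inv_cancel₀ hcm.ne']
  have e7 : (c * n) ^ 2 * (c ^ 3 * m) * s ^ 4 * p * τ = n ^ 2 * p * τ / (c * m) := by
    have : s ^ 4 = (s ^ 2) ^ 2 := by ring
    rw [this, hs2]
    field_simp
  rw [e6, e7]
  refine mul_pos (mul_pos (rho_pos (by norm_num) (by norm_num)) (tz1_pos hη ?_)) (cut_pos hδ hδs)
  have e8 : n ^ 2 * p * τ / (c * m) ≤ 1 := by
    rw [div_le_one (by positivity)]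
    have e9 : n ^ 2 * p * τ ≤ n ^ 2 * p * b := by
      have := hτ.2
      gcongr
    have e10 : c * m = n ^ 2 * p * b + m := by
      rw [hc]
      field_simp
    rw [e10]
    linarith
  linarith

theorem cut_anti {δ δ' s : ℝ} (hδ : 0 < δ) (h : δ ≤ δ') (hs : 0 ≤ s) : cut δ' s ≤ cut δ s := by
  unfold cut
  have : s / δ' ≤ s / δ := div_le_div_of_nonneg_left hs hδ h
  exact max_le_max le_rfl (min_le_min le_rfl (by linarith))

/-- **the large scales**: the limit of the blocks -/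
theorem blk_lim (h : Rd2 ψ η a b a' b') (hθ : ∀ x, θ x ∈ Set.Icc a b) {P : Finset ℕ}
    (hP : ∀ p ∈ P, p.Prime) (hadm : Adm P θ) :
    ∃ l : ℝ, 0 < l ∧ ∀ t0 ε : ℝ, 0 < t0 → 0 < ε → ∀ᶠ T in atTop, ∀ t : ℝ, t0 ≤ t →
      |Blk ψ η θ (t ^ 3 * T) (t ^ 5 * T ^ 2) / (t ^ 5 * T ^ 2) - l| ≤ ε := by
  obtain ⟨C1, hC1, hcl1⟩ := blk_close h hθ 1 one_pos
  -- the cut-off limits
  have hL : ∀ κ : ℝ, 0 < κ → ∃ L : ℝ, Tendsto (fun T => BS (GB ψ η a b (κ ^ 3)) θ T / T ^ 2) atTop (𝓝 L) ∧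
      ((∃ u s, ∀ τ ∈ Set.Icc a b, 0 < GB ψ η a b (κ ^ 3) (u, s, τ)) → 0 < L) := by
    intro κ hκ
    obtain ⟨L, h1, h2⟩ := bl P hP θ hadm a b h.ha hθ (GB ψ η a b (κ ^ 3)) (GB_tst h (by positivity))
    exact ⟨L, h1, h2 GB_nonneg⟩
  choose! L hL1 hL2 using hL
  -- the limit at scale one
  have hcl : ∀ κ : ℝ, 0 < κ → ∀ T : ℝ, 0 < T → |Blk ψ η θ T (T ^ 2) / T ^ 2 -
      BS (GB ψ η a b (κ ^ 3)) θ T / T ^ 2| ≤ C1 * κ ^ 2 := by
    intro κ hκ T hT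
    have h1 := hcl1 κ hκ T 1 hT le_rfl
    simp only [one_pow, one_mul, BSt_one] at h1
    rw [← sub_div, abs_div, abs_of_pos (show (0 : ℝ) < T ^ 2 by positivity), div_le_iff₀ (by positivity)]
    exact h1
  obtain ⟨l, hl⟩ : ∃ l, Tendsto (fun T : ℝ => Blk ψ η θ T (T ^ 2) / T ^ 2) atTop (𝓝 l) := by
    refine exists_limit fun ε hε => ?_
    obtain ⟨κ, hκ, hκε⟩ : ∃ κ : ℝ, 0 < κ ∧ C1 * κ ^ 2 ≤ ε / 2 := by
      refine ⟨√(ε / (2 * C1)), by positivity, ?_⟩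
      rw [Real.sq_sqrt (by positivity)]
      apply le_of_eq
      field_simp
    refine ⟨L κ, ?_⟩
    filter_upwards [(hL1 κ hκ).eventually (Metric.closedBall_mem_nhds _ (show 0 < ε / 2 by positivity)),
      eventually_gt_atTop 0] with T h1 h2
    rw [Real.dist_eq] at h1
    have h3 := hcl κ hκ T h2
    rw [abs_le] at h1 h3 ⊢
    constructor
    · linarith [h1.1, h3.1]
    · linarith [h1.2, h3.2]
  have hlL : ∀ κ : ℝ, 0 < κ → |l - L κ| ≤ C1 * κ ^ 2 := by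
    intro κ hκ
    refine le_of_tendsto (hl.sub (hL1 κ hκ)).abs ?_
    filter_upwards [eventually_gt_atTop 0] with T hT using hcl κ hκ T hT
  -- positivity
  obtain ⟨u, s, hs, hpos⟩ := GB_pos h
  set κ0 : ℝ := min 1 (s / 2) with hκ0
  have hκ00 : 0 < κ0 := by positivity
  have hκ0s : κ0 ^ 3 < s := by
    have h1 : κ0 ≤ 1 := min_le_left _ _
    have h2 : κ0 ≤ s / 2 := min_le_right _ _
    have h3 : κ0 ^ 3 ≤ κ0 := pow_le_of_le_one hκ00.le h1 (by norm_num)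
    linarith
  have hL0 : 0 < L κ0 := hL2 κ0 hκ00 ⟨u, s, fun τ hτ => hpos _ (by positivity) hκ0s τ hτ⟩
  have hmono : ∀ κ : ℝ, 0 < κ → κ ≤ κ0 → L κ0 ≤ L κ := by
    intro κ hκ hκκ
    refine le_of_tendsto_of_tendsto (hL1 κ0 hκ00) (hL1 κ hκ) ?_
    filter_upwards [eventually_gt_atTop 0] with T hT
    refine div_le_div_of_nonneg_right ?_ (by positivity)
    refine BS_mono (GB_tst h (by positivity)) (GB_tst h (by positivity)) (fun u s x => ?_) hT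
    rw [GB, GB]
    simp only
    split_ifs with h0
    · exact le_rfl
    · by_cases hs : 0 ≤ s
      · refine mul_le_mul_of_nonneg_left ?_ (mul_nonneg (rho_nonneg _) (tz1_nonneg _ _))
        exact cut_anti (by positivity) (pow_le_pow_left₀ hκ.le hκκ 3) hs
      · have e1 : cut (κ0 ^ 3) s = 0 := by
          by_contra hc
          have := cut_supp (by positivity) hc
          have : 0 < κ0 ^ 3 := by positivity
          linarith
        rw [e1, mul_zero]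
        exact mul_nonneg (mul_nonneg (rho_nonneg _) (tz1_nonneg _ _)) (cut_nonneg _ _)
  have hl0 : 0 < l := by
    have h1 : L κ0 ≤ l := by
      refine le_of_forall_pos_le_add fun ε hε => ?_
      obtain ⟨κ, hκ, hκκ, hκε⟩ : ∃ κ : ℝ, 0 < κ ∧ κ ≤ κ0 ∧ C1 * κ ^ 2 ≤ ε := by
        refine ⟨min κ0 √(ε / C1), by positivity, min_le_left _ _, ?_⟩
        have : (min κ0 √(ε / C1)) ^ 2 ≤ √(ε / C1) ^ 2 :=
          pow_le_pow_left₀ (by positivity) (min_le_right _ _) 2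
        rw [Real.sq_sqrt (by positivity)] at this
        calc C1 * (min κ0 √(ε / C1)) ^ 2 ≤ C1 * (ε / C1) := mul_le_mul_of_nonneg_left this hC1.le
          _ = ε := by field_simp
      have h2 := hmono κ hκ hκκ
      have h3 := (abs_le.1 (hlL κ hκ)).1
      linarith
    linarith
  refine ⟨l, hl0, fun t0 ε ht0 hε => ?_⟩
  obtain ⟨C2, hC2, hcl2⟩ := blk_close h hθ t0 ht0
  obtain ⟨κ, hκ, hκε⟩ : ∃ κ : ℝ, 0 < κ ∧ (C1 + C2) * κ ^ 2 ≤ ε / 2 := by
    refine ⟨√(ε / (2 * (C1 + C2))), by positivity, ?_⟩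
    rw [Real.sq_sqrt (by positivity)]
    apply le_of_eq
    field_simp
  have h1 := bst_unif P hP θ hadm a b hθ (GB_tst (δ := κ ^ 3) h (by positivity)) (hL1 κ hκ) t0 ht0 (ε / 2)
    (by positivity)
  filter_upwards [h1, eventually_gt_atTop 0] with T h2 hT t ht
  have ht' : 0 < t := lt_of_lt_of_le ht0 ht
  have h3 := h2 t ht
  have h4 := hcl2 κ hκ T t hT ht
  have hB : 0 < t ^ 5 * T ^ 2 := by positivity
  have h5 : |Blk ψ η θ (t ^ 3 * T) (t ^ 5 * T ^ 2) / (t ^ 5 * T ^ 2) -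
      BSt (GB ψ η a b (κ ^ 3)) θ T t / (t ^ 5 * T ^ 2)| ≤ C2 * κ ^ 2 := by
    rw [← sub_div, abs_div, abs_of_pos hB, div_le_iff₀ hB]
    exact h4
  have h6 := hlL κ hκ
  have h7 : (C1 + C2) * κ ^ 2 = C1 * κ ^ 2 + C2 * κ ^ 2 := by ring
  rw [abs_le] at h3 h5 h6 ⊢
  constructor
  · linarith [h3.1, h5.1, h6.2]
  · linarith [h3.2, h5.2, h6.1]

end

end Pool.Agent.KS6_53.Y4
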