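import Pool.Agent.KS6_53.Y4.D4
import Pool.Agent.KS6_53.V5.Ln2

set_option autoImplicit false

namespace Pool.Agent.KS6_53.Y4

open Finset Filter Topology Pool.Agent.KS6_53.V5

/-- the plane of the vector is on no rational line -/
def UX (x : Fin 5 → ℤ) : Prop := ∀ w ∈ VV, In w x → UU w

/-- the sum of a block over the good vectors -/
noncomputable def BlkU (ψ : (Fin 5 → ℝ) × (Fin 5 × Fin 5 → ℝ) → ℝ) (η : ℝ) (θ : (Fin 5 → ℤ) → ℝ)
    (W B : ℝ) : ℝ := ∑ᶠ x ∈ {x : Fin 5 → ℤ | Unimod x ∧ mm x ≠ 0 ∧ UX x}, tb ψ η θ W B x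

section

variable {ψ : (Fin 5 → ℝ) × (Fin 5 × Fin 5 → ℝ) → ℝ} {η a b a' b' δ : ℝ} {θ : (Fin 5 → ℤ) → ℝ}

/-- size of the vectors of a block -/
theorem tb_size (h : Rd2 ψ η a b a' b') (hθ : ∀ x, θ x ∈ Set.Icc a b) {W B : ℝ} (hW : 0 < W)
    (hB : 0 < B) {x : Fin 5 → ℤ} (hm : mm x ≠ 0) (hne : tb ψ η θ W B x ≠ 0) :
    W / 2 * gg x < nz (mm x) ∧ nz (mm x) < 2 * W * gg x ∧
      nz x ^ 2 ≤ 2 * (1 + η) / (a' * a) * (B / W) := by
  obtain ⟨h1, h2, h3⟩ := tb_supp h hθ hW hB hm hne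
  have ha := h.ha
  have ha' := h.ha'
  refine ⟨h1, h2, ?_⟩
  rw [div_mul_div_comm, le_div_iff₀ (by positivity)]
  nlinarith

/-- upper bound at the large scales -/
theorem blk_up2 (h : Rd2 ψ η a b a' b') (hθ : ∀ x, θ x ∈ Set.Icc a b) (t0 : ℝ) (ht0 : 0 < t0) :
    ∃ C : ℝ, 0 < C ∧ ∀ T t : ℝ, 0 < T → t0 ≤ t →
      Blk ψ η θ (t ^ 3 * T) (t ^ 5 * T ^ 2) ≤ C * (t ^ 5 * T ^ 2) := by
  classical
  have ha := h.ha
  have ha' := h.ha'
  have hη := h.hη
  set C1 : ℝ := 2 * (1 + η) / (a' * a) with hC1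
  have hC10 : 0 < C1 := by positivity
  set M : ℝ := max 1 (C1 / t0) with hM
  have hM1 : 1 ≤ M := le_max_left _ _
  have hM2 : C1 / t0 ≤ M := le_max_right _ _
  obtain ⟨C, hC, hnc⟩ := near_count M hM1
  set K : ℝ := 12 * (C1 + 1) ^ 3 with hK
  have hK0 : 0 < K := by positivity
  refine ⟨C * (3 + 5 * K), by positivity, fun T t hT ht => ?_⟩
  have ht' : 0 < t := lt_of_lt_of_le ht0 ht
  have hsT : 0 < √T := Real.sqrt_pos.2 hT
  have hsT2 : √T ^ 2 = T := Real.sq_sqrt hT.le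
  set W : ℝ := t ^ 3 * T with hW
  set B : ℝ := t ^ 5 * T ^ 2 with hB
  have hW0 : 0 < W := by positivity
  have hB0 : 0 < B := by positivity
  set G : ℝ := K * √T with hG
  have hG0 : 0 < G := by positivity
  set Y : ℝ := t * √T with hY
  have hY0 : 0 < Y := by positivity
  set S : Set (Fin 5 → ℤ) := EM M W G ∪ EM M (2 * W) G with hS
  have hSf : S.Finite := (EM_fin _ _ _).union (EM_fin _ _ _)
  have hSc : (S.ncard : ℝ) ≤ C * (3 + 5 * K) * B := by
    have e1 := Set.ncard_union_le (EM M W G) (EM M (2 * W) G)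
    have e2 : (S.ncard : ℝ) ≤ (EM M W G).ncard + (EM M (2 * W) G).ncard := by exact_mod_cast e1
    have e3 := hnc W G Y hW0 hG0 hY0
    have e4 := hnc (2 * W) G Y (by positivity) hG0 hY0
    have e5 : W * Y ^ 2 = B := by
      rw [hW, hY, hB, mul_pow, hsT2]
      ring
    have e6 : W ^ 2 * G / Y = K * B := by
      rw [hW, hY, hB, hG]
      field_simp
    have e7 : 2 * W * Y ^ 2 = 2 * B := by rw [mul_assoc, e5]
    have e8 : (2 * W) ^ 2 * G / Y = 4 * (K * B) := by
      rw [← e6]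
      ring
    rw [e5, e6] at e3
    rw [e7, e8] at e4
    nlinarith
  have h1 := fs_norm_le (s := {x : Fin 5 → ℤ | Unimod x ∧ mm x ≠ 0}) (f := tb ψ η θ W B) (M := 1)
    (t := S) (fun x _ => by rw [abs_of_nonneg (tb_nonneg _ _ _)]; exact tb_le _ _ _) hSf
    (fun x hx hne => by
      obtain ⟨x1, x2⟩ := hx
      obtain ⟨s1, s2, s3⟩ := tb_size h hθ hW0 hB0 x2 hne
      have e0 : B / W = t ^ 2 * T := by
        rw [hB, hW]
        field_simp
      rw [e0] at s3
      have hnx : nz x ^ 2 ≤ M * W := by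
        refine s3.trans ?_
        have e4 : C1 * (t ^ 2 * T) = C1 / t0 * (t ^ 2 * T * t0) := by
          field_simp
        have e5 : W = t ^ 2 * T * t := by
          rw [hW]
          ring
        rw [e4, e5]
        gcongr
      have hg := gg_pos x2
      have hg0 : (0 : ℝ) < gg x := by exact_mod_cast hg
      have hnn := nz_nonneg x
      have hgG : (gg x : ℝ) ≤ G := by
        have f1 := nz_mm_le x
        have f2 : nz x ≤ (C1 + 1) * Y := by
          have f3 : nz x ^ 2 ≤ ((C1 + 1) * Y) ^ 2 := by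
            refine s3.trans ?_
            rw [mul_pow, hY, mul_pow, hsT2]
            refine mul_le_mul_of_nonneg_right ?_ (by positivity)
            nlinarith
          exact (pow_le_pow_iff_left₀ hnn (by positivity) two_ne_zero).1 f3
        have f4 : nz x ^ 3 ≤ ((C1 + 1) * Y) ^ 3 := pow_le_pow_left₀ hnn f2 3
        have f5 : W / 2 * gg x ≤ W / 2 * G := by
          calc W / 2 * gg x ≤ 6 * nz x ^ 3 := s1.le.trans f1
            _ ≤ 6 * ((C1 + 1) * Y) ^ 3 := by linarith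
            _ = 6 * (C1 + 1) ^ 3 * t ^ 3 * √T ^ 3 := by
              rw [hY]
              ring
            _ = 6 * (C1 + 1) ^ 3 * t ^ 3 * (T * √T) := by
              have : √T ^ 3 = T * √T := by rw [pow_succ, hsT2]
              rw [this]
            _ = W / 2 * G := by
              rw [hG, hK, hW]
              ring
        exact le_of_mul_le_mul_left f5 (by positivity)
      by_cases h2 : nz (mm x) ≤ W * gg x
      · left
        exact ⟨x1, x2, hnx, s1, h2, hgG⟩
      · right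
        push Not at h2
        refine ⟨x1, x2, hnx.trans ?_, ?_, s2.le, hgG⟩
        · have : 0 ≤ M * W := by positivity
          linarith
        · linarith) zero_le_one
  rw [one_mul] at h1
  exact (le_abs_self _).trans (h1.trans hSc)

/-- the planes on rational lines at the large scales -/
theorem non_UU (h : Rd2 ψ η a b a' b') (hθ : ∀ x, θ x ∈ Set.Icc a b) (t0 ε : ℝ) (ht0 : 0 < t0)
    (hε : 0 < ε) : ∀ᶠ T in atTop, ∀ t : ℝ, t0 ≤ t →
      |Blk ψ η θ (t ^ 3 * T) (t ^ 5 * T ^ 2) - BlkU ψ η θ (t ^ 3 * T) (t ^ 5 * T ^ 2)| ≤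
        ε * (t ^ 5 * T ^ 2) := by
  classical
  have ha := h.ha
  have ha' := h.ha'
  have hη := h.hη
  obtain ⟨C2, hC2, h2⟩ := PS_card
  set C1 : ℝ := 2 * (1 + η) / (a' * a) with hC1
  have hC10 : 0 < C1 := by positivity
  set C3 : ℝ := 16 * C1 / t0 + 8 with hC3
  have hC30 : 0 < C3 := by positivity
  -- parameters
  set N : ℝ := max (1 / t0) (16 * C3 * C2 / ε) with hN
  have hN1 : 1 / t0 ≤ N := le_max_left _ _
  have hN2 : 16 * C3 * C2 / ε ≤ N := le_max_right _ _
  have hN0 : 0 < N := lt_of_lt_of_le (by positivity) hN1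
  set ε' : ℝ := ε / (2 * C3 * C2) with hε'
  have hε'0 : 0 < ε' := by positivity
  filter_upwards [eventually_gt_atTop 0, Real.tendsto_sqrt_atTop.eventually_ge_atTop
    (8 * (C1 + 1) * N ^ 2), eventually_ge_atTop (340 ^ 3 / (ε' ^ 2 * t0))] with T hT hT1 hT2 t ht
  have ht' : 0 < t := lt_of_lt_of_le ht0 ht
  have hsT : 0 < √T := Real.sqrt_pos.2 hT
  have hsT2 : √T ^ 2 = T := Real.sq_sqrt hT.le
  set W : ℝ := t ^ 3 * T with hW
  set B : ℝ := t ^ 5 * T ^ 2 with hB
  have hW0 : 0 < W := by positivity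
  have hB0 : 0 < B := by positivity
  have hBW : B / W = t ^ 2 * T := by
    rw [hB, hW]
    field_simp
  set X : ℝ := √(C1 * (t ^ 2 * T)) with hX
  have hX2 : X ^ 2 = C1 * (t ^ 2 * T) := Real.sq_sqrt (by positivity)
  have hX0 : 0 ≤ X := Real.sqrt_nonneg _
  have htN : 1 ≤ t * N := by
    rw [div_le_iff₀ ht0] at hN1
    nlinarith
  set N0 : ℕ := ⌊t * N⌋₊ with hN0def
  have hN01 : 1 ≤ N0 := Nat.le_floor (by simpa using htN)
  have hN0r : t * N / 2 ≤ N0 := by
    have h1 := Nat.lt_floor_add_one (t * N)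
    have h3 : (1 : ℝ) ≤ N0 := by exact_mod_cast hN01
    linarith
  have hN0r' : (N0 : ℝ) ≤ t * N := Nat.floor_le (by positivity)
  set N1 : ℕ := ⌊Real.sqrt (340 * W)⌋₊ with hN1def
  have hN1' : (N1 : ℝ) ≤ Real.sqrt (340 * W) := Nat.floor_le (Real.sqrt_nonneg _)
  -- the exceptional vectors
  set S : Set (Fin 5 → ℤ) := {x | ∃ w ∈ PS N0 N1 (2 * W), W / 2 < nz w ∧ Unimod x ∧ In w x ∧ nz x ≤ X}
    with hS
  have hPf : {w ∈ PS N0 N1 (2 * W) | W / 2 < nz w}.Finite := (nz_fin (2 * W)).subset fun w hw => hw.1.2.1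
  have hfw : ∀ w : Fin 5 × Fin 5 → ℤ, {x : Fin 5 → ℤ | Unimod x ∧ In w x ∧ nz x ≤ X}.Finite :=
    fun w => (nz_fin X).subset fun x hx => hx.2.2
  have hSub : S ⊆ (hPf.toFinset.biUnion fun w => (hfw w).toFinset : Finset (Fin 5 → ℤ)) := by
    rintro x ⟨w, hw, hw2, hx⟩
    simp only [Finset.coe_biUnion, Set.mem_iUnion, Set.Finite.coe_toFinset]
    exact ⟨w, ⟨hw, hw2⟩, hx⟩
  have hSf : S.Finite := (Finset.finite_toSet _).subset hSub
  have hSc : (S.ncard : ℝ) ≤ ε * B := by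
    have e1 := Set.ncard_le_ncard hSub (Finset.finite_toSet _)
    rw [Set.ncard_coe_finset] at e1
    have e2 := e1.trans Finset.card_biUnion_le
    have e3 : (S.ncard : ℝ) ≤ ∑ w ∈ hPf.toFinset, C3 := by
      refine le_trans (b := ((∑ w ∈ hPf.toFinset, (hfw w).toFinset.card : ℕ) : ℝ))
        (by exact_mod_cast e2) ?_
      push_cast
      refine Finset.sum_le_sum fun w hw => ?_
      rw [Set.Finite.mem_toFinset] at hw
      obtain ⟨hw1, hw2⟩ := hw
      rw [← Set.ncard_eq_toFinset_card _ (hfw w)]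
      obtain ⟨p1, p2⟩ := pl w hw1.1 X hX0
      refine p2.trans ?_
      rw [hX2, hC3]
      have hwpos : 0 < nz w := by linarith
      have : 8 * (C1 * (t ^ 2 * T)) / nz w ≤ 16 * C1 / t0 := by
        rw [div_le_div_iff₀ hwpos ht0]
        have e5 : 8 * (C1 * (t ^ 2 * T)) * t0 ≤ 8 * (C1 * (t ^ 2 * T)) * t := by gcongr
        have e6 : 8 * (C1 * (t ^ 2 * T)) * t = 16 * C1 * (W / 2) := by
          rw [hW]
          ring
        have e7 : 16 * C1 * (W / 2) ≤ 16 * C1 * nz w := by gcongr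
        linarith
      linarith
    rw [Finset.sum_const, nsmul_eq_mul] at e3
    have e4 : (hPf.toFinset.card : ℝ) ≤ (PS N0 N1 (2 * W)).ncard := by
      rw [← Set.ncard_eq_toFinset_card _ hPf]
      have f1 : (PS N0 N1 (2 * W)).Finite := (nz_fin (2 * W)).subset fun w hw => hw.2.1
      have f2 : {w ∈ PS N0 N1 (2 * W) | W / 2 < nz w} ⊆ PS N0 N1 (2 * W) := fun w hw => hw.1
      exact_mod_cast Set.ncard_le_ncard f2 f1
    have e5 := h2 N0 N1 (2 * W) hN01 (by positivity)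
    have e6 : (2 * W) ^ 2 / N0 ≤ 8 / N * B := by
      rw [div_le_iff₀ (by positivity)]
      calc (2 * W) ^ 2 = 8 / N * B * (t * N / 2) := by
            rw [hW, hB]
            field_simp
            ring
        _ ≤ 8 / N * B * N0 := mul_le_mul_of_nonneg_left hN0r (by positivity)
    have e7 : (N1 : ℝ) ^ 3 ≤ ε' * B := by
      have s1 : Real.sqrt (340 * W) ≤ ε' / 340 * (t ^ 2 * T) := by
        rw [Real.sqrt_le_left (by positivity)]
        rw [div_le_iff₀ (by positivity)] at hT2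
        have f1 : 340 ^ 3 ≤ T * (ε' ^ 2 * t) := by
          refine hT2.trans ?_
          gcongr
        have f2 : (ε' / 340 * (t ^ 2 * T)) ^ 2 = T * (ε' ^ 2 * t) * (t ^ 3 * T) / 340 ^ 2 := by ring
        rw [f2, hW, le_div_iff₀ (by norm_num)]
        have f3 : 0 ≤ t ^ 3 * T := by positivity
        nlinarith
      calc (N1 : ℝ) ^ 3 ≤ Real.sqrt (340 * W) ^ 3 := pow_le_pow_left₀ (by positivity) hN1' 3
        _ = Real.sqrt (340 * W) ^ 2 * Real.sqrt (340 * W) := by ring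
        _ = 340 * W * Real.sqrt (340 * W) := by rw [Real.sq_sqrt (by positivity)]
        _ ≤ 340 * W * (ε' / 340 * (t ^ 2 * T)) := mul_le_mul_of_nonneg_left s1 (by positivity)
        _ = _ := by
          rw [hW, hB]
          ring
    have e8 : C3 * C2 * (8 / N) ≤ ε / 2 := by
      rw [div_le_iff₀ hε] at hN2
      rw [mul_div_assoc', div_le_iff₀ hN0]
      linarith
    have e9 : C3 * C2 * ε' = ε / 2 := by
      rw [hε']
      field_simp
    calc (S.ncard : ℝ) ≤ hPf.toFinset.card * C3 := e3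
      _ ≤ C2 * ((2 * W) ^ 2 / N0 + (N1 : ℝ) ^ 3) * C3 :=
          mul_le_mul_of_nonneg_right (e4.trans e5) hC30.le
      _ ≤ C2 * (8 / N * B + ε' * B) * C3 := by gcongr
      _ = C3 * C2 * (8 / N) * B + C3 * C2 * ε' * B := by ring
      _ ≤ ε / 2 * B + ε / 2 * B := by
          rw [e9]
          gcongr
      _ = _ := by ring
  refine (fs_set_le (M := 1) (t := S) (fun x => by
    rw [abs_of_nonneg (tb_nonneg _ _ _)]; exact tb_le _ _ _) hSf zero_le_one ?_ ?_ ?_).trans
      (by rw [one_mul]; exact hSc)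
  · rintro x ⟨x1, x2⟩ hx hne
    have hUX : ¬ UX x := fun hc => hx ⟨x1, x2, hc⟩
    unfold UX at hUX
    push Not at hUX
    obtain ⟨w, hw, hin, hU⟩ := hUX
    obtain ⟨s1, s2, s3⟩ := tb_size h hθ hW0 hB0 x2 hne
    have hg := gg_pos x2
    have hg0 : (0 : ℝ) < gg x := by exact_mod_cast hg
    rw [nz_mm hw hin] at s1 s2
    have w1 : W / 2 < nz w := by
      have : gg x * (W / 2) < gg x * nz w := by linarith
      exact lt_of_mul_lt_mul_left this hg0.le
    have w2 : nz w < 2 * W := by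
      have : gg x * nz w < gg x * (2 * W) := by linarith
      exact lt_of_mul_lt_mul_left this hg0.le
    rw [hBW] at s3
    obtain ⟨v, hv, hinv, hvle⟩ := exists_small hw hU
    have hne' : wedge (pf v) x ≠ 0 := by
      intro h0
      apply x2
      rcases prim_parallel (pf_unimod hv) x1 h0 with h | h
      · rw [h, mm_pf]
      · have e : -pf v = (-1 : ℤ) • pf v := by simp
        rw [h, e, mm_smul, mm_pf, smul_zero]
    have e1 := nz_wedge_ge hw hinv hin hne'
    have e2 := nz_wedge_le (pf v) x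
    have e3 := nz_pf_le v
    have nx := nz_nonneg x
    have nv : 1 ≤ nz v := one_le_nz' hv
    have hxX : nz x ≤ X := Real.le_sqrt_of_sq_le s3
    have e4 : nz w ≤ 4 * nz v ^ 2 * nz x := by
      have : 2 * nz (pf v) * nz x ≤ 2 * (2 * nz v ^ 2) * nz x := by
        refine mul_le_mul_of_nonneg_right ?_ nx
        linarith
      linarith
    have hXb : X ≤ (C1 + 1) * (t * √T) := by
      rw [hX]
      refine Real.sqrt_le_iff.2 ⟨by positivity, ?_⟩
      rw [mul_pow, mul_pow, hsT2]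
      refine mul_le_mul_of_nonneg_right ?_ (by positivity)
      nlinarith
    have e5 : (N0 : ℝ) ≤ nz v := by
      have f1 : W / 2 ≤ 4 * nz v ^ 2 * ((C1 + 1) * (t * √T)) := by
        refine w1.le.trans (e4.trans ?_)
        exact mul_le_mul_of_nonneg_left (hxX.trans hXb) (by positivity)
      have f2 : (t * N) ^ 2 * (8 * (C1 + 1) * (t * √T)) ≤ nz v ^ 2 * (8 * (C1 + 1) * (t * √T)) := by
        have f3 : (t * N) ^ 2 * (8 * (C1 + 1) * (t * √T)) = t ^ 3 * √T * (8 * (C1 + 1) * N ^ 2) := by ring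
        have f4 : t ^ 3 * √T * (8 * (C1 + 1) * N ^ 2) ≤ t ^ 3 * √T * √T :=
          mul_le_mul_of_nonneg_left hT1 (by positivity)
        have f5 : t ^ 3 * √T * √T = W := by
          rw [hW, mul_assoc, ← sq, hsT2]
        rw [f3]
        linarith
      have f6 : (t * N) ^ 2 ≤ nz v ^ 2 := le_of_mul_le_mul_right f2 (by positivity)
      exact hN0r'.trans ((pow_le_pow_iff_left₀ (by positivity) (by linarith) two_ne_zero).1 f6)
    refine ⟨w, ⟨hw, w2.le, v, hv, hinv, e5, ?_⟩, w1, x1, hin, hxX⟩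
    obtain ⟨n, hn⟩ := exists_nat_nz v
    rw [hn]
    have : n ≤ N1 := by
      apply Nat.le_floor
      rw [← hn]
      apply Real.le_sqrt_of_sq_le
      linarith
    exact_mod_cast this
  · rintro x ⟨x1, x2, x3⟩ hx
    exact absurd ⟨x1, x2⟩ hx
  · refine (tb_fin h hθ hW0 hB0).subset ?_
    rintro x ⟨hx | hx, hne⟩
    · exact ⟨hx.2, hne⟩
    · exact ⟨hx.2.1, hne⟩

end

end Pool.Agent.KS6_53.Y4
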