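import Pool.Agent.KS6_53.V5.La
import Pool.Agent.KS6_53.Y4.B1

set_option autoImplicit false
set_option linter.style.haveILetI false

namespace Pool.Agent.KS6_53.Y4

open Finset Filter Topology MeasureTheory ArithmeticFunction Pool.Agent.KS6_53.V5

/-- the coprime sum over a residue class -/
noncomputable def cs (F : (Fin 2 → ℝ) → ℝ) (Q : ℕ) (c : Fin 2 → ZMod Q) (r : ℝ) : ℝ :=
  (∑ᶠ z ∈ {z : Fin 2 → ℤ | Int.gcd (z 0) (z 1) = 1 ∧ red Q z = c}, F (fun i => (z i : ℝ) / r)) / r ^ 2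

/-- the restriction of `F` to the residue class -/
noncomputable def Fr (F : (Fin 2 → ℝ) → ℝ) (Q : ℕ) (c : Fin 2 → ZMod Q) (r : ℝ) (u : Fin 2 → ℝ) : ℝ := by
  classical
  exact if ∃ z : Fin 2 → ℤ, u = (fun i => (z i : ℝ) / r) ∧ red Q z = c then F u else 0

section

variable {F : (Fin 2 → ℝ) → ℝ} {Q : ℕ} {c : Fin 2 → ZMod Q} {r : ℝ}

open Classical in
theorem Fr_int (hr : 0 < r) (z : Fin 2 → ℤ) :
    Fr F Q c r (fun i => (z i : ℝ) / r) = if red Q z = c then F (fun i => (z i : ℝ) / r) else 0 := by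
  rw [Fr]
  have : (∃ z' : Fin 2 → ℤ, (fun i => (z i : ℝ) / r) = (fun i => (z' i : ℝ) / r) ∧ red Q z' = c) ↔
      red Q z = c := by
    constructor
    · rintro ⟨z', h1, h2⟩
      have : z = z' := by
        funext i
        have h3 : (z i : ℝ) / r = (z' i : ℝ) / r := congrFun h1 i
        rw [div_left_inj' hr.ne'] at h3
        exact_mod_cast h3
      rw [this]
      exact h2
    · intro h
      exact ⟨z, rfl, h⟩
  by_cases h : red Q z = c
  · rw [if_pos h, if_pos (this.2 h)]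
  · rw [if_neg h, if_neg fun h' => h (this.1 h')]

theorem Fr_hcs (hF : HasCompactSupport F) : HasCompactSupport (Fr F Q c r) := by
  refine hF.mono fun u hu => ?_
  rw [Function.mem_support] at hu ⊢
  intro h0
  apply hu
  rw [Fr]
  split_ifs
  · exact h0
  · rfl

theorem cs_eq (hF : HasCompactSupport F) (hr : 0 < r) :
    cs F Q c r = ∑' d : ℕ, (moebius d : ℝ) * sd (Fr F Q c r) d r := by
  classical
  rw [← coprime_sum (Fr_hcs hF) r hr, cs]
  congr 1
  rw [finsum_mem_def, finsum_mem_def]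
  refine finsum_congr fun z => ?_
  simp only [Set.indicator_apply, Set.mem_ofPred_eq, Fr_int hr]
  by_cases h1 : Int.gcd (z 0) (z 1) = 1 <;> by_cases h2 : red Q z = c <;> simp [h1, h2]

theorem abs_Fr_le (u : Fin 2 → ℝ) : |Fr F Q c r u| ≤ |F u| := by
  rw [Fr]
  split_ifs
  · exact le_rfl
  · rw [abs_zero]
    exact abs_nonneg _

theorem supp_sd (hF : HasCompactSupport F) (d : ℕ) (hd : 0 < d) (hr : 0 < r) :
    {z : Fin 2 → ℤ | F (fun i => (d : ℝ) * z i / r) ≠ 0}.Finite := by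
  obtain ⟨A, hA, hs⟩ := supp_bdd hF
  have hd0 : (0 : ℝ) < d := by exact_mod_cast hd
  refine (finite_box' (fun _ => 0) (A * r / d)).subset ?_
  intro z hz i
  have := hs _ hz i
  rw [abs_div, abs_mul, abs_of_pos hr, abs_of_pos hd0, div_le_iff₀ hr] at this
  rw [sub_zero, le_div_iff₀ hd0]
  linarith

theorem sd_abs_le (hF : HasCompactSupport F) (d : ℕ) (hr : 0 < r) :
    |(moebius d : ℝ) * sd (Fr F Q c r) d r| ≤ ‖(moebius d : ℝ) * sd (fun u => |F u|) d r‖ := by
  classical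
  rcases Nat.eq_zero_or_pos d with rfl | hd
  · simp
  rw [abs_mul, norm_mul, Real.norm_eq_abs, Real.norm_eq_abs]
  refine mul_le_mul_of_nonneg_left ?_ (abs_nonneg _)
  rw [sd, sd, abs_div, abs_div]
  refine div_le_div_of_nonneg_right ?_ (abs_nonneg _)
  refine le_trans ?_ (le_abs_self _)
  have hf := supp_sd hF d hd hr
  rw [fs_eq _ _ hf.toFinset (fun z _ hz => by
      rw [Set.Finite.mem_toFinset, Set.mem_ofPred_eq]
      intro h0
      apply hz
      have := abs_Fr_le (F := F) (Q := Q) (c := c) (r := r) (fun i => (d : ℝ) * z i / r)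
      rw [h0, abs_zero] at this
      exact abs_nonpos_iff.1 this),
    fs_eq _ _ hf.toFinset (fun z _ hz => by
      rw [Set.Finite.mem_toFinset, Set.mem_ofPred_eq]
      intro h0
      apply hz
      rw [h0, abs_zero])]
  refine (Finset.abs_sum_le_sum_abs _ _).trans (Finset.sum_le_sum fun z _ => ?_)
  split_ifs
  · exact abs_Fr_le _
  · rw [abs_zero]

/-- the limit of one term -/
theorem sd_lim (hc : Continuous F) (hF : HasCompactSupport F) (hQ : 0 < Q) (d : ℕ) :
    ∃ L : ℝ, Tendsto (fun r => (moebius d : ℝ) * sd (Fr F Q c r) d r) atTop (𝓝 L) := by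
  classical
  rcases Nat.eq_zero_or_pos d with rfl | hd
  · exact ⟨0, by simp⟩
  haveI : NeZero Q := ⟨hQ.ne'⟩
  have hd0 : (0 : ℝ) < d := by exact_mod_cast hd
  have hQ0 : (0 : ℝ) < Q := by exact_mod_cast hQ
  obtain ⟨A, hA, hs⟩ := supp_bdd hF
  have hfam : Fam ({0} : Set ℝ) (fun _ => F) A := by
    refine ⟨isCompact_singleton, (hc.comp continuous_snd).continuousOn, hA, fun _ _ u hu => ?_⟩
    rw [pi_norm_le_iff_of_nonneg hA.le]
    exact hs u hu
  set B : Set (Fin 2 → ZMod Q) := {x | (d : ZMod Q) • x = c} with hB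
  set N : ℕ := (univ.filter (· ∈ B)).card with hN
  refine ⟨(moebius d : ℝ) * (N * ((∫ u, F u) / (d * Q) ^ 2)), Tendsto.const_mul _ ?_⟩
  rw [Metric.tendsto_atTop]
  intro ε hε
  -- Riemann sums
  set ε' : ℝ := ε / (4 * (N + 1)) * (d * Q) ^ 2 with hε'
  have hε'0 : 0 < ε' := by positivity
  obtain ⟨r₀, hr₀, hr⟩ := hfam.riem ε' hε'0
  -- the origin
  have h0lim : Tendsto (fun r : ℝ => |F 0| / r ^ 2) atTop (𝓝 0) :=
    Tendsto.div_atTop tendsto_const_nhds (tendsto_pow_atTop (by norm_num))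
  obtain ⟨r₁, hr₁⟩ := Filter.eventually_atTop.1 (h0lim.eventually (gt_mem_nhds (show 0 < ε / 4 by positivity)))
  refine ⟨max (max r₁ 1) (r₀ * (d * Q)), fun r hrr => ?_⟩
  have hr1 : r₁ ≤ r := ((le_max_left _ _).trans (le_max_left _ _)).trans hrr
  have hr1' : 1 ≤ r := ((le_max_right _ _).trans (le_max_left _ _)).trans hrr
  have hr2 : r₀ * (d * Q) ≤ r := (le_max_right _ _).trans hrr
  have hr0 : 0 < r := by linarith
  have hr3 : r₀ ≤ r / (d * Q) := by rwa [le_div_iff₀ (by positivity)]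
  -- the full sum
  set G : (Fin 2 → ℝ) → ℝ := fun u => F (fun i => (d : ℝ) * (Q * u i) / r) with hG
  have hGc : HasCompactSupport G := by
    refine HasCompactSupport.intro (isCompact_closedBall (0 : Fin 2 → ℝ) (A * r / (d * Q))) fun u hu => ?_
    by_contra hne
    apply hu
    rw [mem_closedBall_zero_iff, pi_norm_le_iff_of_nonneg (by positivity)]
    intro i
    have := hs _ hne i
    rw [abs_div, abs_of_pos hr0, div_le_iff₀ hr0, abs_mul, abs_mul, abs_of_pos hd0, abs_of_pos hQ0] at this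
    rw [Real.norm_eq_abs, le_div_iff₀ (by positivity)]
    linarith
  have hfib := fib_sum hGc Q B
  have e1 : (∑ᶠ x ∈ {x : Fin 2 → ℤ | red Q x ∈ B}, F (fun i => (d : ℝ) * x i / r)) =
      ∑ x ∈ univ.filter (· ∈ B), perz G (fun i => ((x i).val : ℝ) / Q) := by
    refine Eq.trans (finsum_mem_congr rfl fun x _ => ?_) (hfib.trans (Finset.sum_congr ?_ fun _ _ => rfl))
    · simp only [hG]
      congr 1
      funext i
      field_simp
    · ext x
      simp only [Finset.mem_filter, Finset.mem_univ, true_and]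
  have e2 : ∀ v : Fin 2 → ℝ, |perz G v - (r / (d * Q)) ^ 2 * ∫ u, F u| ≤ ε' * (r / (d * Q)) ^ 2 := by
    intro v
    have h1 := hr (r / (d * Q)) hr3 0 rfl (fun i => (d : ℝ) * (Q * v i) / r)
    rw [Fintype.card_fin] at h1
    have h2 : perz G v = ∑ᶠ x : Fin 2 → ℤ, F (fun i => (x i : ℝ) / (r / (d * Q)) +
        (d : ℝ) * (Q * v i) / r) := by
      rw [perz]
      refine finsum_congr fun m => ?_
      simp only [hG]
      congr 1
      funext i
      field_simp
      ring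
    rw [h2]
    exact h1
  have e3 : |(∑ᶠ x ∈ {x : Fin 2 → ℤ | red Q x ∈ B}, F (fun i => (d : ℝ) * x i / r)) / r ^ 2 -
      N * ((∫ u, F u) / (d * Q) ^ 2)| ≤ ε / 4 := by
    have f1 : (N : ℝ) * ((∫ u, F u) / (d * Q) ^ 2) =
        (∑ _x ∈ univ.filter (· ∈ B), (r / (d * Q)) ^ 2 * ∫ u, F u) / r ^ 2 := by
      rw [Finset.sum_const, nsmul_eq_mul, ← hN, div_pow]
      field_simp
    rw [e1, f1, ← sub_div, ← Finset.sum_sub_distrib, abs_div, abs_of_pos (show (0 : ℝ) < r ^ 2 by positivity),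
      div_le_iff₀ (by positivity)]
    refine (Finset.abs_sum_le_sum_abs _ _).trans ((Finset.sum_le_sum fun x _ => e2 _).trans ?_)
    rw [Finset.sum_const, nsmul_eq_mul, ← hN, hε']
    have f2 : (N : ℝ) * (ε / (4 * (N + 1)) * (d * Q) ^ 2 * (r / (d * Q)) ^ 2) =
        ε / 4 * r ^ 2 * (N / (N + 1)) := by
      field_simp
    rw [f2]
    have f3 : (N : ℝ) / (N + 1) ≤ 1 := by
      rw [div_le_one (by positivity)]
      linarith
    have f4 : 0 ≤ ε / 4 * r ^ 2 := by positivity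
    nlinarith
  -- without the origin
  have e4 : |sd (Fr F Q c r) d r - (∑ᶠ x ∈ {x : Fin 2 → ℤ | red Q x ∈ B},
      F (fun i => (d : ℝ) * x i / r)) / r ^ 2| ≤ |F 0| / r ^ 2 := by
    rw [sd, ← sub_div, abs_div, abs_of_pos (show (0 : ℝ) < r ^ 2 by positivity)]
    refine div_le_div_of_nonneg_right ?_ (by positivity)
    have hval : ∀ z : Fin 2 → ℤ, Fr F Q c r (fun i => (d : ℝ) * z i / r) =
        if red Q z ∈ B then F (fun i => (d : ℝ) * z i / r) else 0 := by
      intro z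
      have h1 : (fun i => (d : ℝ) * z i / r) = fun i => (((d : ℤ) * z i : ℤ) : ℝ) / r := by
        funext i
        push_cast
        rfl
      rw [h1, Fr_int hr0 (fun i => (d : ℤ) * z i)]
      have h2 : (red Q (fun i => (d : ℤ) * z i) = c) ↔ red Q z ∈ B := by
        rw [hB, Set.mem_ofPred_eq]
        have : red Q (fun i => (d : ℤ) * z i) = (d : ZMod Q) • red Q z := by
          funext i
          simp [red]
        rw [this]
      simp only [h2]
    have hf := supp_sd hF d hd hr0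
    rw [fs_eq _ _ (insert 0 hf.toFinset) (fun z _ hz => by
        rw [Finset.mem_insert, Set.Finite.mem_toFinset, Set.mem_ofPred_eq]
        right
        intro h0
        apply hz
        rw [hval, h0, ite_self]),
      fs_eq _ _ (insert 0 hf.toFinset) (fun z _ hz => by
        rw [Finset.mem_insert, Set.Finite.mem_toFinset, Set.mem_ofPred_eq]
        exact Or.inr hz), ← Finset.sum_sub_distrib, Finset.sum_eq_single 0]
    · simp only [Set.mem_ofPred_eq, ne_eq, not_true_eq_false, if_false, zero_sub, abs_neg]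
      have h1 : F (fun i => (d : ℝ) * ((0 : Fin 2 → ℤ) i : ℤ) / r) = F 0 := by
        congr 1
        funext i
        simp
      rw [h1]
      split_ifs
      · exact le_rfl
      · rw [abs_zero]
        exact abs_nonneg _
    · intro z _ hz
      rw [hval]
      by_cases hb : red Q z ∈ B
      · rw [if_pos hb, if_pos (show z ∈ {x : Fin 2 → ℤ | red Q x ∈ B} from hb),
          if_pos (show z ∈ {z : Fin 2 → ℤ | z ≠ 0} from hz), sub_self]
      · rw [if_neg hb, if_neg (show z ∉ {x : Fin 2 → ℤ | red Q x ∈ B} from hb)]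
        simp
    · intro h
      exact absurd (Finset.mem_insert_self _ _) h
  have e5 := (hr₁ r hr1)
  rw [Real.dist_eq]
  have e6 : |sd (Fr F Q c r) d r - N * ((∫ u, F u) / (d * Q) ^ 2)| ≤ |F 0| / r ^ 2 + ε / 4 := by
    have := abs_add_le (sd (Fr F Q c r) d r - (∑ᶠ x ∈ {x : Fin 2 → ℤ | red Q x ∈ B},
      F (fun i => (d : ℝ) * x i / r)) / r ^ 2) ((∑ᶠ x ∈ {x : Fin 2 → ℤ | red Q x ∈ B},
      F (fun i => (d : ℝ) * x i / r)) / r ^ 2 - N * ((∫ u, F u) / (d * Q) ^ 2))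
    rw [sub_add_sub_cancel] at this
    linarith
  linarith

/-- existence of the limit -/
theorem cs_lim (hc : Continuous F) (hF : HasCompactSupport F) (hQ : 0 < Q) (c : Fin 2 → ZMod Q) :
    ∃ L : ℝ, Tendsto (cs F Q c) atTop (𝓝 L) := by
  have habs : Continuous fun u => |F u| := hc.abs
  have hFabs : HasCompactSupport fun u => |F u| := hF.comp_left (g := fun x : ℝ => |x|) abs_zero
  obtain ⟨C, hC⟩ := sd_le habs hFabs
  choose L hL using fun d => sd_lim (c := c) hc hF hQ d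
  have h := tendsto_tsum_of_dominated_convergence
    (f := fun r d => (moebius d : ℝ) * sd (Fr F Q c r) d r) (g := L) (𝓕 := atTop)
    (bound := fun d : ℕ => C * (1 / (d : ℝ) ^ 2)) (summ_inv_sq.mul_left C) hL
    (by
      filter_upwards [eventually_ge_atTop 1] with r hr d
      rw [Real.norm_eq_abs]
      exact (sd_abs_le hF d (by linarith)).trans (hC d r hr))
  refine ⟨∑' d, L d, h.congr' ?_⟩
  filter_upwards [eventually_gt_atTop 0] with r hr
  exact (cs_eq hF hr).symm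

end

section

variable {Z : Type*} [PseudoMetricSpace Z] {K : Set Z} {F : Z → (Fin 2 → ℝ) → ℝ} {D : ℝ}

theorem cs_close (h : Fam K F D) {Q : ℕ} {c : Fin 2 → ZMod Q} {η : ℝ} (hη : 0 ≤ η) {z z' : Z}
    (hz : z ∈ K) (hz' : z' ∈ K) (hcl : ∀ u, |F z u - F z' u| ≤ η) {r : ℝ} (hr : 1 ≤ r) :
    |cs (F z) Q c r - cs (F z') Q c r| ≤ η * (2 * D + 1) ^ 2 := by
  have hD := h.pos
  have hr0 : 0 < r := by linarith
  obtain ⟨b1, b2⟩ := box_card (ι := Fin 2) (D * r) (by positivity)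
  have hsup : ∀ z ∈ K, ∀ x ∈ {x : Fin 2 → ℤ | Int.gcd (x 0) (x 1) = 1 ∧ red Q x = c},
      F z (fun i => (x i : ℝ) / r) ≠ 0 → x ∈ {x : Fin 2 → ℤ | ∀ i, |(x i : ℝ)| ≤ D * r} := by
    intro z hz x _ hne i
    have h2 := (norm_le_pi_norm (fun i => (x i : ℝ) / r) i).trans (h.supp z hz _ hne)
    rw [Real.norm_eq_abs, abs_div, abs_of_pos hr0, div_le_iff₀ hr0] at h2
    exact h2
  have h1 := fs_sub_le (f := fun x : Fin 2 → ℤ => F z (fun i => (x i : ℝ) / r))
    (g := fun x : Fin 2 → ℤ => F z' (fun i => (x i : ℝ) / r))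
    (s := {x : Fin 2 → ℤ | Int.gcd (x 0) (x 1) = 1 ∧ red Q x = c}) (M := η)
    (fun x _ => hcl _) b1 (hsup z hz) (hsup z' hz') hη
  rw [cs, cs, ← sub_div, abs_div, abs_of_pos (show (0 : ℝ) < r ^ 2 by positivity),
    div_le_iff₀ (by positivity)]
  refine h1.trans ?_
  rw [Fintype.card_fin] at b2
  calc η * ({x : Fin 2 → ℤ | ∀ i, |(x i : ℝ)| ≤ D * r}.ncard : ℝ) ≤ η * (2 * (D * r) + 1) ^ 2 :=
        mul_le_mul_of_nonneg_left b2 hη
    _ ≤ η * ((2 * D + 1) * r) ^ 2 := by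
        refine mul_le_mul_of_nonneg_left (pow_le_pow_left₀ (by positivity) ?_ 2) hη
        nlinarith
    _ = _ := by ring

/-- uniform Cauchy property -/
theorem Fam.cauchy (h : Fam K F D) (Q : ℕ) (hQ : 0 < Q) (ε : ℝ) (hε : 0 < ε) : ∃ r₀ : ℝ, 1 ≤ r₀ ∧
    ∀ z ∈ K, ∀ c : Fin 2 → ZMod Q, ∀ r r' : ℝ, r₀ ≤ r → r₀ ≤ r' →
      |cs (F z) Q c r - cs (F z) Q c r'| ≤ ε := by
  classical
  haveI : NeZero Q := ⟨hQ.ne'⟩
  have hD := h.pos
  set η : ℝ := ε / (4 * (2 * D + 1) ^ 2) with hη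
  have hη0 : 0 < η := by positivity
  have hηC : η * (2 * D + 1) ^ 2 = ε / 4 := by
    rw [hη]
    field_simp
  obtain ⟨δ, hδ, he⟩ := h.equi η hη0
  have hpt : ∀ z ∈ K, ∃ r₀ : ℝ, ∀ c : Fin 2 → ZMod Q, ∀ r r' : ℝ, r₀ ≤ r → r₀ ≤ r' →
      |cs (F z) Q c r - cs (F z) Q c r'| ≤ ε / 2 := by
    intro z hz
    have h1 : ∀ c : Fin 2 → ZMod Q, ∃ r₀ : ℝ, ∀ r r' : ℝ, r₀ ≤ r → r₀ ≤ r' →
        |cs (F z) Q c r - cs (F z) Q c r'| ≤ ε / 2 := by
      intro c
      obtain ⟨L, hL⟩ := cs_lim (h.cts1 hz) (h.hcs hz) hQ c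
      rw [Metric.tendsto_atTop] at hL
      obtain ⟨r₀, hr₀⟩ := hL (ε / 4) (by positivity)
      refine ⟨r₀, fun r r' hr hr' => ?_⟩
      have a1 := hr₀ r hr
      have a2 := hr₀ r' hr'
      rw [Real.dist_eq, abs_lt] at a1 a2
      rw [abs_le]
      constructor
      · linarith [a1.1, a2.2]
      · linarith [a1.2, a2.1]
    choose R hR using h1
    obtain ⟨r₀, hr₀⟩ := (Finset.univ.image R).exists_le
    exact ⟨r₀, fun c r r' hr hr' => hR c r r'
      ((hr₀ _ (Finset.mem_image_of_mem _ (Finset.mem_univ c))).trans hr)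
      ((hr₀ _ (Finset.mem_image_of_mem _ (Finset.mem_univ c))).trans hr')⟩
  choose! R hR using hpt
  obtain ⟨t, ht, hcov⟩ := h.cmp.elim_nhds_subcover (fun z => Metric.ball z δ)
    (fun z _ => Metric.ball_mem_nhds z hδ)
  obtain ⟨R2, hR2⟩ := (t.image R).exists_le
  refine ⟨max 1 R2, le_max_left _ _, fun z hz c r r' hr hr' => ?_⟩
  have hr1 : 1 ≤ r := (le_max_left _ _).trans hr
  have hr1' : 1 ≤ r' := (le_max_left _ _).trans hr'
  obtain ⟨z', hz't, hzb⟩ : ∃ z' ∈ t, z ∈ Metric.ball z' δ := by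
    have := hcov hz
    simpa using this
  have hz' := ht z' hz't
  rw [Metric.mem_ball] at hzb
  have hRz : R z' ≤ max 1 R2 := (hR2 _ (Finset.mem_image_of_mem _ hz't)).trans (le_max_right _ _)
  have hcl : ∀ u, |F z u - F z' u| ≤ η := fun u => he z hz z' hz' u u hzb (by rw [dist_self]; exact hδ)
  have c1 := cs_close h (Q := Q) (c := c) hη0.le hz hz' hcl hr1
  have c2 := cs_close h (Q := Q) (c := c) hη0.le hz hz' hcl hr1'
  have c3 := hR z' hz' c r r' (hRz.trans hr) (hRz.trans hr')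
  rw [hηC] at c1 c2
  rw [abs_le] at c1 c2 c3 ⊢
  constructor
  · linarith [c1.1, c2.2, c3.1]
  · linarith [c1.2, c2.1, c3.2]

end

end Pool.Agent.KS6_53.Y4
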