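import Pool.Agent.KS6_53.Y4.E1
import Pool.Agent.KS6_53.Y4.D3
import Pool.Agent.KS6_53.V5.Kl

set_option autoImplicit false

namespace Pool.Agent.KS6_53.Y4

open Finset Filter Topology MeasureTheory Pool.Agent.KS6_53.V5

/-- bases and values of the finite part -/
def KZ (R a b : ℝ) : Set (((Fin 5 → ℝ) × (Fin 5 → ℝ)) × ℝ) :=
  {z | z.1 ∈ KK R ∧ Iso z.1.1 z.1.2 ∧ z.2 ∈ Set.Icc a b}

/-- the vector of the coordinates `u` -/
def cmb (z : ((Fin 5 → ℝ) × (Fin 5 → ℝ)) × ℝ) (u : Fin 2 → ℝ) : Fin 5 → ℝ :=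
  u 0 • z.1.1 + u 1 • z.1.2

/-- the height in the coordinates -/
noncomputable def hgz (ψ : (Fin 5 → ℝ) × (Fin 5 × Fin 5 → ℝ) → ℝ)
    (z : ((Fin 5 → ℝ) × (Fin 5 → ℝ)) × ℝ) (u : Fin 2 → ℝ) : ℝ :=
  ‖cmb z u‖ ^ 2 * ψ (cmb z u, wedge z.1.1 z.1.2) * z.2

noncomputable def FZ (ψ : (Fin 5 → ℝ) × (Fin 5 × Fin 5 → ℝ) → ℝ) (η : ℝ)
    (z : ((Fin 5 → ℝ) × (Fin 5 → ℝ)) × ℝ) (u : Fin 2 → ℝ) : ℝ := tz1 η (hgz ψ z u)

section

variable {ψ : (Fin 5 → ℝ) × (Fin 5 × Fin 5 → ℝ) → ℝ} {η a b a' b' R : ℝ}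

theorem iso_closed : IsClosed {z : (Fin 5 → ℝ) × (Fin 5 → ℝ) | Iso z.1 z.2} := by
  have : {z : (Fin 5 → ℝ) × (Fin 5 → ℝ) | Iso z.1 z.2} =
      {z | b0 z.1 z.2 = 0} ∩ ({z | b1 z.1 z.2 = 0} ∩ {z | b2 z.1 z.2 = 0}) := by
    ext z
    simp only [Iso, Set.mem_ofPred_eq, Set.mem_inter_iff]
  rw [this]
  refine IsClosed.inter (isClosed_eq ?_ continuous_const) (IsClosed.inter
    (isClosed_eq ?_ continuous_const) (isClosed_eq ?_ continuous_const))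
  · unfold b0
    fun_prop
  · unfold b1
    fun_prop
  · unfold b2
    fun_prop

theorem KZ_compact : IsCompact (KZ R a b) := by
  have h1 : IsCompact (KK R ×ˢ Set.Icc a b) := (KK_compact R).prod isCompact_Icc
  have h2 : KZ R a b = (KK R ×ˢ Set.Icc a b) ∩ (Prod.fst ⁻¹' {z | Iso z.1 z.2}) := by
    ext z
    simp only [KZ, Set.mem_ofPred_eq, Set.mem_inter_iff, Set.mem_prod, Set.mem_preimage]
    tauto
  rw [h2]
  exact h1.inter_right (iso_closed.preimage continuous_fst)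

theorem cmb_cts : Continuous fun p : (((Fin 5 → ℝ) × (Fin 5 → ℝ)) × ℝ) × (Fin 2 → ℝ) =>
    cmb p.1 p.2 := by
  unfold cmb
  fun_prop

theorem in_comb (p q : Fin 5 → ℝ) (s t : ℝ) : In (wedge p q) (s • p + t • q) := by
  intro i j k
  simp only [wedge, Pi.add_apply, Pi.smul_apply, smul_eq_mul]
  ring

theorem cmb_cone {z : ((Fin 5 → ℝ) × (Fin 5 → ℝ)) × ℝ} (hz : z ∈ KZ R a b) {u : Fin 2 → ℝ}
    (hu : cmb z u ≠ 0) : (cmb z u, wedge z.1.1 z.1.2) ∈ Cone2 ℝ := by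
  obtain ⟨⟨-, -, h1⟩, h2, -⟩ := hz
  refine ⟨hu, ⟨fun h0 => ?_, z.1.1, z.1.2, h2, rfl⟩, in_comb _ _ _ _⟩
  simp only at h0
  rw [h0, norm_zero] at h1
  exact zero_ne_one h1

theorem hgz_ge (h : Rd2 ψ η a b a' b') {z : ((Fin 5 → ℝ) × (Fin 5 → ℝ)) × ℝ} (hz : z ∈ KZ R a b)
    (u : Fin 2 → ℝ) : ‖cmb z u‖ ^ 2 * (a' * a) ≤ hgz ψ z u := by
  have ha := h.ha
  have ha' := h.ha'
  by_cases h0 : cmb z u = 0
  · rw [hgz, h0]
    simp
  · have h1 := (h.hψ _ (cmb_cone hz h0)).1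
    have h2 := hz.2.2.1
    rw [hgz]
    have h3 : 0 ≤ ψ (cmb z u, wedge z.1.1 z.1.2) := ha'.le.trans h1
    calc ‖cmb z u‖ ^ 2 * (a' * a) = ‖cmb z u‖ ^ 2 * a' * a := by ring
      _ ≤ ‖cmb z u‖ ^ 2 * ψ (cmb z u, wedge z.1.1 z.1.2) * z.2 := by gcongr

theorem hgz_le (h : Rd2 ψ η a b a' b') {z : ((Fin 5 → ℝ) × (Fin 5 → ℝ)) × ℝ} (hz : z ∈ KZ R a b)
    (u : Fin 2 → ℝ) : hgz ψ z u ≤ ‖cmb z u‖ ^ 2 * (b' * b) := by
  have ha := h.ha
  have ha' := h.ha'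
  by_cases h0 : cmb z u = 0
  · rw [hgz, h0]
    simp
  · have h1 := h.hψ _ (cmb_cone hz h0)
    have h2 := hz.2.2
    have h4 : 0 ≤ z.2 := ha.le.trans h2.1
    rw [hgz]
    have h3 : 0 ≤ ψ (cmb z u, wedge z.1.1 z.1.2) := ha'.le.trans h1.1
    calc ‖cmb z u‖ ^ 2 * ψ (cmb z u, wedge z.1.1 z.1.2) * z.2 ≤ ‖cmb z u‖ ^ 2 * b' * b := by
          have h5 := h1.2
          have h6 := h2.2
          have : 0 ≤ b' := h3.trans h5
          gcongr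
      _ = _ := by ring

theorem hgz_cts (h : Rd2 ψ η a b a' b') :
    ContinuousOn (fun p : (((Fin 5 → ℝ) × (Fin 5 → ℝ)) × ℝ) × (Fin 2 → ℝ) => hgz ψ p.1 p.2)
      (KZ R a b ×ˢ Set.univ) := by
  rintro ⟨z, u⟩ ⟨hzK, -⟩
  simp only at hzK
  by_cases h0 : cmb z u = 0
  · have e0 : hgz ψ z u = 0 := by
      rw [hgz, h0]
      simp
    rw [ContinuousWithinAt]
    simp only [e0]
    have hc : Continuous fun p : (((Fin 5 → ℝ) × (Fin 5 → ℝ)) × ℝ) × (Fin 2 → ℝ) =>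
        ‖cmb p.1 p.2‖ ^ 2 * (b' * b) := (cmb_cts.norm.pow 2).mul continuous_const
    have ht : Tendsto (fun p : (((Fin 5 → ℝ) × (Fin 5 → ℝ)) × ℝ) × (Fin 2 → ℝ) =>
        ‖cmb p.1 p.2‖ ^ 2 * (b' * b)) (𝓝[KZ R a b ×ˢ Set.univ] (z, u)) (𝓝 0) := by
      have := (hc.tendsto (z, u)).mono_left (nhdsWithin_le_nhds (s := KZ R a b ×ˢ Set.univ))
      simp only [h0, norm_zero] at this
      simpa using this
    refine squeeze_zero' ?_ ?_ ht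
    · filter_upwards [self_mem_nhdsWithin] with p hp
      refine le_trans ?_ (hgz_ge h hp.1 p.2)
      have := h.ha
      have := h.ha'
      positivity
    · filter_upwards [self_mem_nhdsWithin] with p hp
      exact hgz_le h hp.1 p.2
  · set S : Set ((((Fin 5 → ℝ) × (Fin 5 → ℝ)) × ℝ) × (Fin 2 → ℝ)) := {p | cmb p.1 p.2 ≠ 0} with hS
    have hopen : IsOpen S := isOpen_ne_fun cmb_cts continuous_const
    have hmem : S ∈ 𝓝 (z, u) := hopen.mem_nhds h0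
    have c1 : ContinuousOn (fun p : (((Fin 5 → ℝ) × (Fin 5 → ℝ)) × ℝ) × (Fin 2 → ℝ) =>
        ψ (cmb p.1 p.2, wedge p.1.1.1 p.1.1.2)) ((KZ R a b ×ˢ Set.univ) ∩ S) := by
      refine h.fac.cts.comp (cmb_cts.prodMk ?_).continuousOn fun p hp => cmb_cone hp.1.1 hp.2
      exact wedge_cts.comp (continuous_fst.comp continuous_fst)
    have c2 : ContinuousOn (fun p : (((Fin 5 → ℝ) × (Fin 5 → ℝ)) × ℝ) × (Fin 2 → ℝ) => hgz ψ p.1 p.2)
        ((KZ R a b ×ˢ Set.univ) ∩ S) := by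
      have e1 : Continuous fun p : (((Fin 5 → ℝ) × (Fin 5 → ℝ)) × ℝ) × (Fin 2 → ℝ) =>
        ‖cmb p.1 p.2‖ ^ 2 := cmb_cts.norm.pow 2
      have e2 : Continuous fun p : (((Fin 5 → ℝ) × (Fin 5 → ℝ)) × ℝ) × (Fin 2 → ℝ) => p.1.2 := by
        fun_prop
      exact (e1.continuousOn.mul c1).mul e2.continuousOn
    have := c2 (z, u) ⟨⟨hzK, Set.mem_univ _⟩, h0⟩
    exact this.mono_of_mem_nhdsWithin (inter_mem_nhdsWithin _ hmem)

/-- the family of test functions -/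
theorem FZ_fam (h : Rd2 ψ η a b a' b') (hR : 0 < R) : ∃ D : ℝ, Fam (KZ R a b) (FZ ψ η) D := by
  have ha := h.ha
  have ha' := h.ha'
  have hη := h.hη
  set A : ℝ := √((1 + η) / (a' * a)) with hA
  have hA0 : 0 < A := by positivity
  have hA2 : A ^ 2 = (1 + η) / (a' * a) := Real.sq_sqrt (by positivity)
  refine ⟨2 * A * R, KZ_compact, ?_, by positivity, fun z hzK u hu => ?_⟩
  · exact (tz1_cts η).comp_continuousOn (hgz_cts h)
  · have h1 := tz1_supp hη hu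
    have h2 := hgz_ge h hzK u
    have h3 : ‖cmb z u‖ ≤ A := by
      rw [hA]
      refine Real.le_sqrt_of_sq_le ?_
      rw [le_div_iff₀ (by positivity)]
      linarith
    rw [pi_norm_le_iff_of_nonneg (by positivity)]
    intro i
    rw [Real.norm_eq_abs]
    exact coord_bound (p := z.1.1) (q := z.1.2) hzK.1 h3 i

end

end Pool.Agent.KS6_53.Y4
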