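import Pool.Agent.KS6_53.Y4.E2
import Pool.Agent.KS6_53.Y4.D4

set_option autoImplicit false
set_option linter.style.haveILetI false

namespace Pool.Agent.KS6_53.Y4

open Finset Filter Topology MeasureTheory Pool.Agent.KS6_53.V5

/-- the data at the finite primes -/
structure Th (θ : (Fin 5 → ℤ) → ℝ) (Θ : (Fin 5 → ℤ) → (Fin 5 × Fin 5 → ℤ) → ℝ) (a b : ℝ) : Prop where
  mem : ∀ x w, Θ x w ∈ Set.Icc a b
  eq : ∀ w ∈ VV, ∀ x, Unimod x → In w x → mm x ≠ 0 → θ x = Θ x w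
  cg : ∀ η : ℝ, 0 < η → ∃ Q : ℕ, 0 < Q ∧ ∀ w ∈ VV, ∀ x x' : Fin 5 → ℤ, Unimod x → Unimod x' →
    In w x → In w x' → (∀ i, (Q : ℤ) ∣ x i - x' i) → |Θ x w - Θ x' w| ≤ η

/-- the sum over the vectors of one plane -/
noncomputable def Sw (ψ : (Fin 5 → ℝ) × (Fin 5 × Fin 5 → ℝ) → ℝ) (η : ℝ)
    (Θ : (Fin 5 → ℤ) → (Fin 5 × Fin 5 → ℤ) → ℝ) (w : Fin 5 × Fin 5 → ℤ) (B : ℝ) : ℝ :=
  ∑ᶠ x ∈ {x : Fin 5 → ℤ | Unimod x ∧ In w x},
    tz1 η (nz x ^ 2 * nz w * ψ (rv x, rv w) * Θ x w / B)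

section

variable {ψ : (Fin 5 → ℝ) × (Fin 5 × Fin 5 → ℝ) → ℝ} {η a b a' b' R ξ : ℝ} {θ : (Fin 5 → ℤ) → ℝ}
  {Θ : (Fin 5 → ℤ) → (Fin 5 × Fin 5 → ℤ) → ℝ}

/-- the normalized reduced basis -/
theorem exists_base (hξ : 0 < ξ) {w : Fin 5 × Fin 5 → ℤ} (hw : w ∈ VV)
    (hmin : ∀ x, Unimod x → In w x → ξ * √(nz w) ≤ nz x) : ∃ x y : Fin 5 → ℤ, Iso x y ∧
      w = wedge x y ∧ ((√(nz w))⁻¹ • rv x, (√(nz w))⁻¹ • rv y) ∈ KK (max (2 / ξ) 1) := by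
  set R : ℝ := max (2 / ξ) 1 with hR
  have hR1 : 1 ≤ R := le_max_right _ _
  have hR2 : 2 / ξ ≤ R := le_max_left _ _
  obtain ⟨x, y, hx, hinx, hiny, hiso, hwxy, a1, a2, a3⟩ := exists_reduced hw
  have hw1 : 1 ≤ nz w := one_le_nz' hw.1
  have hw0 : 0 < nz w := by linarith
  refine ⟨x, y, hiso, hwxy, ?_⟩
  set s : ℝ := √(nz w) with hs
  have hs0 : 0 < s := Real.sqrt_pos.2 hw0
  have hss : s ^ 2 = nz w := Real.sq_sqrt hw0.le
  have hxmin := hmin x hx hinx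
  have hny : nz y ≤ R * s := by
    have e1 : ξ * s * nz y ≤ 2 * s ^ 2 := by
      rw [hss]
      refine le_trans ?_ a2
      exact mul_le_mul_of_nonneg_right hxmin (nz_nonneg y)
    have e2 : ξ * nz y ≤ 2 * s := by
      have : s * (ξ * nz y) ≤ s * (2 * s) := by nlinarith
      exact le_of_mul_le_mul_left this hs0
    have e3 : nz y ≤ 2 / ξ * s := by
      rw [div_mul_eq_mul_div, le_div_iff₀ hξ]
      linarith
    exact e3.trans (mul_le_mul_of_nonneg_right hR2 hs0.le)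
  have hwedge : wedge (s⁻¹ • rv x) (s⁻¹ • rv y) = (nz w)⁻¹ • rv (wedge x y) := by
    rw [wedge_smul, ← mul_inv, ← sq, hss]
    congr 1
    funext i
    simp [rv, wedge]
  refine ⟨?_, ?_, ?_⟩
  · simp only
    rw [norm_smul, Real.norm_eq_abs, abs_of_pos (by positivity), inv_mul_le_iff₀ hs0, mul_comm]
    exact a1.trans hny
  · simp only
    rw [norm_smul, Real.norm_eq_abs, abs_of_pos (by positivity), inv_mul_le_iff₀ hs0, mul_comm]
    exact hny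
  · simp only
    rw [hwedge, ← hwxy, norm_smul, Real.norm_eq_abs, abs_of_pos (by positivity)]
    exact inv_mul_cancel₀ hw0.ne'

/-- the sum over one plane in coordinates -/
theorem Sw_eq (h : Rd2 ψ η a b a' b') {w : Fin 5 × Fin 5 → ℤ} (hw : w ∈ VV) {x y : Fin 5 → ℤ}
    (hwxy : w = wedge x y) {B : ℝ} (hB : 0 < B) :
    Sw ψ η Θ w B = ∑ᶠ z ∈ {z : Fin 2 → ℤ | Int.gcd (z 0) (z 1) = 1},
      FZ ψ η (((√(nz w))⁻¹ • rv x, (√(nz w))⁻¹ • rv y), Θ (z 0 • x + z 1 • y) w)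
        (fun i => (z i : ℝ) / (√B / nz w)) := by
  have hw1 : 1 ≤ nz w := one_le_nz' hw.1
  have hw0 : 0 < nz w := by linarith
  set s : ℝ := √(nz w) with hs
  have hs0 : 0 < s := Real.sqrt_pos.2 hw0
  have hss : s ^ 2 = nz w := Real.sq_sqrt hw0.le
  have hsB : 0 < √B := Real.sqrt_pos.2 hB
  have hsB2 : √B ^ 2 = B := Real.sq_sqrt hB.le
  have hu : Unimod (wedge x y) := hwxy ▸ hw.1
  have hcone := rv_cone hw
  have hwedge : wedge (s⁻¹ • rv x) (s⁻¹ • rv y) = (nz w)⁻¹ • rv w := by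
    rw [wedge_smul, ← mul_inv, ← sq, hss, hwxy]
    congr 1
    funext i
    simp [rv, wedge]
  rw [Sw]
  symm
  refine finsum_mem_eq_of_bijOn (fun z => z 0 • x + z 1 • y) ⟨?_, ?_, ?_⟩ ?_
  · intro z hz
    refine ⟨(unimod_comb hu _ _).2 (Int.isCoprime_iff_gcd_eq_one.2 hz), ?_⟩
    rw [hwxy, in_wedge_iff hu]
    exact ⟨_, _, rfl⟩
  · intro z _ z' _ he
    obtain ⟨e1, e2⟩ := comb_unique hu he
    funext i
    fin_cases i
    · exact e1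
    · exact e2
  · rintro v ⟨hv1, hv2⟩
    rw [hwxy, in_wedge_iff hu] at hv2
    obtain ⟨a, b, rfl⟩ := hv2
    exact ⟨![a, b], Int.isCoprime_iff_gcd_eq_one.1 ((unimod_comb hu _ _).1 hv1), rfl⟩
  · intro z hz
    have hvu : Unimod (z 0 • x + z 1 • y) := (unimod_comb hu _ _).2 (Int.isCoprime_iff_gcd_eq_one.2 hz)
    have hin : In w (z 0 • x + z 1 • y) := by
      rw [hwxy, in_wedge_iff hu]
      exact ⟨_, _, rfl⟩
    simp only [FZ, hgz]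
    congr 1
    set v := z 0 • x + z 1 • y with hv
    set r : ℝ := √B / nz w with hr
    have hr0 : 0 < r := by positivity
    have e1 : cmb ((s⁻¹ • rv x, s⁻¹ • rv y), Θ v w) (fun i => (z i : ℝ) / r) = (r * s)⁻¹ • rv v := by
      funext i
      simp only [cmb, Pi.add_apply, Pi.smul_apply, smul_eq_mul, rv, hv]
      push_cast
      field_simp
    rw [e1, hwedge]
    have hmem : (rv v, rv w) ∈ Cone2 ℝ := by
      refine ⟨rv_ne (unimod_ne hvu), hcone, ?_⟩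
      intro i j k
      have := hin i j k
      simp only [rv]
      exact_mod_cast this
    rw [h.fac.inv _ _ (by positivity) (by positivity) _ hmem, norm_smul, Real.norm_of_nonneg (by positivity)]
    have e2 : ((r * s)⁻¹ * ‖rv v‖) ^ 2 = nz v ^ 2 * nz w / B := by
      have : (r * s) ^ 2 = B / nz w := by
        rw [mul_pow, hss, hr, div_pow, hsB2]
        field_simp
      rw [mul_pow, inv_pow, this, show ‖rv v‖ = nz v from rfl]
      field_simp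
    rw [e2]
    ring

open Classical in
/-- the representative of the finite part in a class -/
noncomputable def tw (Θ : (Fin 5 → ℤ) → (Fin 5 × Fin 5 → ℤ) → ℝ) (a : ℝ) (x y : Fin 5 → ℤ) (Q : ℕ)
    (c : Fin 2 → ZMod Q) : ℝ :=
  if h : ∃ z : Fin 2 → ℤ, Int.gcd (z 0) (z 1) = 1 ∧ red Q z = c then
    Θ (h.choose 0 • x + h.choose 1 • y) (wedge x y) else a

theorem tw_mem (hΘ : Th θ Θ a b) (hab : a ≤ b) (x y : Fin 5 → ℤ) (Q : ℕ) (c : Fin 2 → ZMod Q) :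
    tw Θ a x y Q c ∈ Set.Icc a b := by
  rw [tw]
  split_ifs
  · exact hΘ.mem _ _
  · exact ⟨le_rfl, hab⟩

theorem dvd_of_red {Q : ℕ} {z z' : Fin 2 → ℤ} (h : red Q z = red Q z') (i : Fin 2) :
    (Q : ℤ) ∣ z i - z' i := by
  have h1 := congrFun h i
  simp only [red] at h1
  rw [← ZMod.intCast_zmod_eq_zero_iff_dvd] 
  push_cast
  rw [h1, sub_self]

theorem tw_close {Q : ℕ} {η' : ℝ} {x y : Fin 5 → ℤ} (hw : wedge x y ∈ VV)
    (hQ : ∀ w ∈ VV, ∀ x x' : Fin 5 → ℤ, Unimod x → Unimod x' →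
    In w x → In w x' → (∀ i, (Q : ℤ) ∣ x i - x' i) → |Θ x w - Θ x' w| ≤ η') {z : Fin 2 → ℤ}
    (hz : Int.gcd (z 0) (z 1) = 1) :
    |Θ (z 0 • x + z 1 • y) (wedge x y) - tw Θ a x y Q (red Q z)| ≤ η' := by
  have hex : ∃ z' : Fin 2 → ℤ, Int.gcd (z' 0) (z' 1) = 1 ∧ red Q z' = red Q z := ⟨z, hz, rfl⟩
  rw [tw, dif_pos hex]
  obtain ⟨h1, h2⟩ := hex.choose_spec
  set z' := hex.choose with hz'
  have hu : Unimod (wedge x y) := hw.1
  refine hQ _ hw _ _ ((unimod_comb hu _ _).2 (Int.isCoprime_iff_gcd_eq_one.2 hz))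
    ((unimod_comb hu _ _).2 (Int.isCoprime_iff_gcd_eq_one.2 h1)) ?_ ?_ fun i => ?_
  · rw [in_wedge_iff hu]
    exact ⟨_, _, rfl⟩
  · rw [in_wedge_iff hu]
    exact ⟨_, _, rfl⟩
  · have e : (z 0 • x + z 1 • y) i - (z' 0 • x + z' 1 • y) i =
        (z 0 - z' 0) * x i + (z 1 - z' 1) * y i := by
      simp only [Pi.add_apply, Pi.smul_apply, smul_eq_mul]
      ring
    rw [e]
    exact dvd_add (Dvd.dvd.mul_right (dvd_of_red h2.symm 0) _) (Dvd.dvd.mul_right (dvd_of_red h2.symm 1) _)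

/-- the sum over a plane and the sums over the classes -/
theorem Sw_approx (h : Rd2 ψ η a b a' b') (hΘ : Th θ Θ a b) {D : ℝ} (hF : Fam (KZ R a b) (FZ ψ η) D)
    {ε₁ δ : ℝ} (hε₁ : 0 ≤ ε₁)
    (hcl : ∀ z ∈ KZ R a b, ∀ z' ∈ KZ R a b, ∀ u u' : Fin 2 → ℝ, dist z z' < δ → dist u u' < δ →
      |FZ ψ η z u - FZ ψ η z' u'| ≤ ε₁) {Q : ℕ} (hQ0 : 0 < Q) (hδ : 0 < δ)
    (hQ : ∀ w ∈ VV, ∀ x x' : Fin 5 → ℤ, Unimod x → Unimod x' →
    In w x → In w x' → (∀ i, (Q : ℤ) ∣ x i - x' i) → |Θ x w - Θ x' w| ≤ δ / 2)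
    {x y : Fin 5 → ℤ} (hiso : Iso x y) (hw : wedge x y ∈ VV)
    (hKK : ((√(nz (wedge x y)))⁻¹ • rv x, (√(nz (wedge x y)))⁻¹ • rv y) ∈ KK R)
    {B : ℝ} (hB : 0 < B) (hr : 1 ≤ √B / nz (wedge x y)) [NeZero Q] :
    |Sw ψ η Θ (wedge x y) B / (√B / nz (wedge x y)) ^ 2 - ∑ c : Fin 2 → ZMod Q,
      cs (FZ ψ η (((√(nz (wedge x y)))⁻¹ • rv x, (√(nz (wedge x y)))⁻¹ • rv y), tw Θ a x y Q c)) Q c
        (√B / nz (wedge x y))| ≤ ε₁ * (2 * D + 1) ^ 2 := by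
  classical
  have hD := hF.pos
  set w := wedge x y with hwdef
  set pq : (Fin 5 → ℝ) × (Fin 5 → ℝ) := ((√(nz w))⁻¹ • rv x, (√(nz w))⁻¹ • rv y) with hpq
  set r : ℝ := √B / nz w with hrdef
  have hr0 : 0 < r := by linarith
  have hisoR : Iso pq.1 pq.2 := by
    have h1 := iso_rv hiso
    have := iso_comb (√(nz w))⁻¹ 0 0 (√(nz w))⁻¹ h1
    simpa [hpq] using this
  have hKZ : ∀ τ ∈ Set.Icc a b, (pq, τ) ∈ KZ R a b := fun τ hτ => ⟨hKK, hisoR, hτ⟩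
  obtain ⟨b1, b2⟩ := box_card (ι := Fin 2) (D * r) (by positivity)
  set Z := b1.toFinset with hZ
  have hsup : ∀ τ ∈ Set.Icc a b, ∀ z : Fin 2 → ℤ, FZ ψ η (pq, τ) (fun i => (z i : ℝ) / r) ≠ 0 → z ∈ Z := by
    intro τ hτ z hne
    rw [hZ, Set.Finite.mem_toFinset]
    intro i
    have h2 := (norm_le_pi_norm (fun i => (z i : ℝ) / r) i).trans (hF.supp _ (hKZ τ hτ) _ hne)
    rw [Real.norm_eq_abs, abs_div, abs_of_pos hr0, div_le_iff₀ hr0] at h2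
    exact h2
  have e1 : Sw ψ η Θ w B = ∑ z ∈ Z, if Int.gcd (z 0) (z 1) = 1 then
      FZ ψ η (pq, Θ (z 0 • x + z 1 • y) w) (fun i => (z i : ℝ) / r) else 0 := by
    rw [Sw_eq h hw hwdef hB, fs_eq _ _ Z (fun z _ hne => hsup _ (hΘ.mem _ _) z hne)]
    refine Finset.sum_congr rfl fun z _ => ?_
    simp only [Set.mem_ofPred_eq]
    split_ifs <;> rfl
  have e2 : ∀ c : Fin 2 → ZMod Q, cs (FZ ψ η (pq, tw Θ a x y Q c)) Q c r =
      (∑ z ∈ Z, if Int.gcd (z 0) (z 1) = 1 ∧ red Q z = c then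
        FZ ψ η (pq, tw Θ a x y Q c) (fun i => (z i : ℝ) / r) else 0) / r ^ 2 := by
    intro c
    rw [cs, fs_eq _ _ Z (fun z _ hne => hsup _ (tw_mem hΘ h.hab _ _ _ _) z hne)]
    congr 1
    refine Finset.sum_congr rfl fun z _ => ?_
    simp only [Set.mem_ofPred_eq]
    split_ifs <;> rfl
  have e3 : ∑ c : Fin 2 → ZMod Q, cs (FZ ψ η (pq, tw Θ a x y Q c)) Q c r =
      (∑ z ∈ Z, if Int.gcd (z 0) (z 1) = 1 then
        FZ ψ η (pq, tw Θ a x y Q (red Q z)) (fun i => (z i : ℝ) / r) else 0) / r ^ 2 := by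
    rw [Finset.sum_congr rfl fun c _ => e2 c, ← Finset.sum_div, Finset.sum_comm]
    congr 1
    refine Finset.sum_congr rfl fun z _ => ?_
    rw [Finset.sum_eq_single (red Q z)]
    · simp only [and_true]
    · intro c _ hc
      rw [if_neg fun h' => hc h'.2.symm]
    · intro h'
      exact absurd (Finset.mem_univ _) h'
  rw [e1, e3, ← sub_div, ← Finset.sum_sub_distrib, abs_div, abs_of_pos (show (0 : ℝ) < r ^ 2 by positivity),
    div_le_iff₀ (by positivity)]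
  refine (Finset.abs_sum_le_sum_abs _ _).trans ((Finset.sum_le_sum (g := fun _ => ε₁) fun z _ => ?_).trans ?_)
  · split_ifs with hg
    · refine hcl _ (hKZ _ (hΘ.mem _ _)) _ (hKZ _ (tw_mem hΘ h.hab _ _ _ _)) _ _ ?_ (by rw [dist_self]; exact hδ)
      rw [Prod.dist_eq, dist_self, Real.dist_eq]
      have := tw_close (a := a) hw hQ hg
      refine max_lt hδ (lt_of_le_of_lt this ?_)
      linarith
    · rw [sub_self, abs_zero]
      exact hε₁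
  · rw [Finset.sum_const, nsmul_eq_mul, hZ, ← Set.ncard_eq_toFinset_card _ b1]
    rw [Fintype.card_fin] at b2
    calc ({x : Fin 2 → ℤ | ∀ i, |(x i : ℝ)| ≤ D * r}.ncard : ℝ) * ε₁ ≤ (2 * (D * r) + 1) ^ 2 * ε₁ :=
          mul_le_mul_of_nonneg_right b2 hε₁
      _ ≤ ((2 * D + 1) * r) ^ 2 * ε₁ := by
          refine mul_le_mul_of_nonneg_right (pow_le_pow_left₀ (by positivity) ?_ 2) hε₁
          nlinarith
      _ = _ := by ring

/-- **the sums over the planes without short vectors** -/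
theorem lin (h : Rd2 ψ η a b a' b') (hΘ : Th θ Θ a b) (hξ : 0 < ξ) (ε : ℝ) (hε : 0 < ε) :
    ∃ K₀ : ℝ, 1 ≤ K₀ ∧ ∀ w ∈ VV, (∀ x, Unimod x → In w x → ξ * √(nz w) ≤ nz x) → ∀ B B' : ℝ,
      K₀ ^ 2 * nz w ^ 2 ≤ B → K₀ ^ 2 * nz w ^ 2 ≤ B' →
        |Sw ψ η Θ w B / B - Sw ψ η Θ w B' / B'| * nz w ^ 2 ≤ ε := by
  classical
  set R : ℝ := max (2 / ξ) 1 with hR
  have hR1 : 1 ≤ R := le_max_right _ _
  obtain ⟨D, hF⟩ := FZ_fam h (R := R) (by linarith)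
  have hD := hF.pos
  set ε₁ : ℝ := ε / (4 * (2 * D + 1) ^ 2) with hε₁
  have hε₁0 : 0 < ε₁ := by positivity
  obtain ⟨δ, hδ, hcl⟩ := hF.equi ε₁ hε₁0
  obtain ⟨Q, hQ0, hQ⟩ := hΘ.cg (δ / 2) (by positivity)
  haveI : NeZero Q := ⟨hQ0.ne'⟩
  obtain ⟨r₀, hr₀, hcau⟩ := hF.cauchy Q hQ0 (ε / (2 * (Q : ℝ) ^ 2)) (by positivity)
  refine ⟨r₀, hr₀, fun w hw hmin B B' hB hB' => ?_⟩
  have hw1 : 1 ≤ nz w := one_le_nz' hw.1
  have hw0 : 0 < nz w := by linarith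
  have hB0 : 0 < B := lt_of_lt_of_le (by positivity) hB
  have hB0' : 0 < B' := lt_of_lt_of_le (by positivity) hB'
  obtain ⟨x, y, hiso, hwxy, hKK⟩ := exists_base hξ hw hmin
  rw [← hR] at hKK
  have hrr : ∀ B : ℝ, 0 < B → r₀ ^ 2 * nz w ^ 2 ≤ B → r₀ ≤ √B / nz w := by
    intro B hB0 hB
    rw [le_div_iff₀ hw0]
    refine Real.le_sqrt_of_sq_le ?_
    rw [mul_pow]
    exact hB
  have hsq : ∀ B : ℝ, 0 < B → Sw ψ η Θ w B / (√B / nz w) ^ 2 = Sw ψ η Θ w B / B * nz w ^ 2 := by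
    intro B hB0
    rw [div_pow, Real.sq_sqrt hB0.le]
    field_simp
  have hap : ∀ B : ℝ, 0 < B → r₀ ^ 2 * nz w ^ 2 ≤ B → |Sw ψ η Θ w B / B * nz w ^ 2 -
      ∑ c : Fin 2 → ZMod Q, cs (FZ ψ η (((√(nz w))⁻¹ • rv x, (√(nz w))⁻¹ • rv y), tw Θ a x y Q c)) Q c
        (√B / nz w)| ≤ ε / 4 := by
    intro B hB0 hB
    rw [← hsq B hB0]
    subst hwxy
    refine (Sw_approx h hΘ hF hε₁0.le hcl hQ0 hδ hQ hiso hw hKK hB0 (hr₀.trans (hrr B hB0 hB))).trans ?_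
    rw [hε₁]
    apply le_of_eq
    field_simp
  have hc : |(∑ c : Fin 2 → ZMod Q, cs (FZ ψ η (((√(nz w))⁻¹ • rv x, (√(nz w))⁻¹ • rv y),
        tw Θ a x y Q c)) Q c (√B / nz w)) -
      ∑ c : Fin 2 → ZMod Q, cs (FZ ψ η (((√(nz w))⁻¹ • rv x, (√(nz w))⁻¹ • rv y),
        tw Θ a x y Q c)) Q c (√B' / nz w)| ≤ ε / 2 := by
    rw [← Finset.sum_sub_distrib]
    refine (Finset.abs_sum_le_sum_abs _ _).trans ((Finset.sum_le_sum
      (g := fun _ => ε / (2 * (Q : ℝ) ^ 2)) fun c _ => ?_).trans ?_)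
    · refine hcau _ ⟨hKK, ?_, tw_mem hΘ h.hab _ _ _ _⟩ c _ _ (hrr B hB0 hB) (hrr B' hB0' hB')
      have h1 := iso_rv hiso
      have := iso_comb (√(nz w))⁻¹ 0 0 (√(nz w))⁻¹ h1
      simpa using this
    · rw [Finset.sum_const, nsmul_eq_mul, Finset.card_univ, Fintype.card_fun, ZMod.card, Fintype.card_fin]
      have hQr : (0 : ℝ) < Q := by exact_mod_cast hQ0
      push_cast
      apply le_of_eq
      field_simp
  have c1 := hap B hB0 hB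
  have c2 := hap B' hB0' hB'
  have e : |Sw ψ η Θ w B / B - Sw ψ η Θ w B' / B'| * nz w ^ 2 =
      |Sw ψ η Θ w B / B * nz w ^ 2 - Sw ψ η Θ w B' / B' * nz w ^ 2| := by
    rw [← sub_mul, abs_mul, abs_of_pos (show 0 < nz w ^ 2 by positivity)]
  rw [e]
  rw [abs_le] at c1 c2 hc ⊢
  constructor
  · linarith [c1.1, c2.2, hc.1]
  · linarith [c1.2, c2.1, hc.2]

end

end Pool.Agent.KS6_53.Y4
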