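import Pool.Agent.KS6_53.Y4.E3
import Pool.Agent.KS6_53.Y4.D6

set_option autoImplicit false

namespace Pool.Agent.KS6_53.Y4

open Finset Filter Topology MeasureTheory Pool.Agent.KS6_53.V5

theorem in_neg_iff {w : Fin 5 × Fin 5 → ℤ} {x : Fin 5 → ℤ} : In (-w) x ↔ In w x := by
  constructor
  · intro h
    have := in_neg' h
    rwa [neg_neg] at this
  · exact in_neg'

theorem UU_neg {w : Fin 5 × Fin 5 → ℤ} (h : UU w) : UU (-w) := fun x hx hin => h x hx (in_neg_iff.1 hin)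

theorem UX_of {x : Fin 5 → ℤ} {w : Fin 5 × Fin 5 → ℤ} (hw : w ∈ VV) (hU : UU w) (hin : In w x)
    (hm : mm x ≠ 0) : UX x := by
  intro w' hw' hin'
  rcases planes_of hw hw' hin hin' hm with h | h
  · rw [h]
    exact hU
  · rw [h]
    exact UU_neg hU

theorem VV_ne_neg {w : Fin 5 × Fin 5 → ℤ} (hw : w ∈ VV) : w ≠ -w := by
  intro h0
  have h6 := VV_nz_pos hw
  have h7 : w = 0 := by
    funext p
    have := congrFun h0 p
    simp only [Pi.neg_apply] at this
    simp only [Pi.zero_apply]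
    omega
  rw [h7] at h6
  have : nz (0 : Fin 5 × Fin 5 → ℤ) = 0 := by
    have : rv (0 : Fin 5 × Fin 5 → ℤ) = 0 := by
      funext p
      simp [rv]
    rw [nz, this, norm_zero]
  linarith

section

variable {ψ : (Fin 5 → ℝ) × (Fin 5 × Fin 5 → ℝ) → ℝ} {η a b a' b' ξ : ℝ} {θ : (Fin 5 → ℤ) → ℝ}
  {Θ : (Fin 5 → ℤ) → (Fin 5 × Fin 5 → ℤ) → ℝ}

theorem in_cone2 {w : Fin 5 × Fin 5 → ℤ} (hw : w ∈ VV) {x : Fin 5 → ℤ} (hx : Unimod x) (hin : In w x) :
    (rv x, rv w) ∈ Cone2 ℝ := by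
  refine ⟨rv_ne (unimod_ne hx), rv_cone hw, ?_⟩
  intro i j k
  have := hin i j k
  simp only [rv]
  exact_mod_cast this

/-- the term through the plane -/
theorem tb_plane (h : Rd2 ψ η a b a' b') (hΘ : Th θ Θ a b) {W B : ℝ} {w : Fin 5 × Fin 5 → ℤ}
    (hw : w ∈ VV) {x : Fin 5 → ℤ} (hx : Unimod x) (hin : In w x) (hm : mm x ≠ 0) :
    tb ψ η θ W B x = rho (nz w / W) * tz1 η (nz x ^ 2 * nz w * ψ (rv x, rv w) * Θ x w / B) := by
  have hg := gg_pos hm
  have hg0 : (0 : ℝ) < gg x := by exact_mod_cast hg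
  obtain ⟨c, hc, hgc⟩ := mm_of_in hw hin
  have hc0 : c ≠ 0 := by
    rintro rfl
    rw [hgc] at hg
    simp at hg
  have e1 : nz (mm x) / gg x = nz w := by
    rw [nz_mm hw hin]
    field_simp
  have e2 : ψ (rv x, rv (mm x)) = ψ (rv x, rv w) := by
    have := h.fac.inv 1 (c : ℝ) one_ne_zero (by exact_mod_cast hc0) _ (in_cone2 hw hx hin)
    simp only [one_smul] at this
    rw [← this, hc, rv_smul]
  rw [tb, HH, e1, e2, hΘ.eq w hw x hx hin hm]

/-- support of the sum over one plane -/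
theorem Sw_supp (h : Rd2 ψ η a b a' b') (hΘ : Th θ Θ a b) {B : ℝ} (hB : 0 < B)
    {w : Fin 5 × Fin 5 → ℤ} (hw : w ∈ VV) {x : Fin 5 → ℤ} (hx : Unimod x) (hin : In w x)
    (hne : tz1 η (nz x ^ 2 * nz w * ψ (rv x, rv w) * Θ x w / B) ≠ 0) :
    nz x ^ 2 * nz w * (a' * a) < (1 + η) * B := by
  have ha := h.ha
  have ha' := h.ha'
  have h1 := tz1_supp h.hη hne
  rw [div_lt_iff₀ hB] at h1
  have h2 := (h.hψ _ (in_cone2 hw hx hin)).1
  have h3 := (hΘ.mem x w).1
  have h4 := nz_nonneg w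
  refine lt_of_le_of_lt ?_ h1
  have h5 : 0 ≤ ψ (rv x, rv w) := ha'.le.trans h2
  calc nz x ^ 2 * nz w * (a' * a) = nz x ^ 2 * nz w * a' * a := by ring
    _ ≤ nz x ^ 2 * nz w * ψ (rv x, rv w) * Θ x w := by gcongr

/-- **double counting** -/
theorem BlkU_eq (h : Rd2 ψ η a b a' b') (hΘ : Th θ Θ a b) (hθ : ∀ x, θ x ∈ Set.Icc a b) {W B : ℝ}
    (hW : 0 < W) (hB : 0 < B) (Ws : Finset (Fin 5 × Fin 5 → ℤ))
    (hWs : ∀ w, w ∈ Ws ↔ w ∈ VV ∧ UU w ∧ nz w ≤ 2 * W) :
    ∑ w ∈ Ws, rho (nz w / W) * Sw ψ η Θ w B = 2 * BlkU ψ η θ W B := by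
  classical
  have ha := h.ha
  have ha' := h.ha'
  have hη := h.hη
  set C1 : ℝ := 2 * (1 + η) / (a' * a) with hC1
  have hC10 : 0 < C1 := by positivity
  have hX := nz_fin (ι := Fin 5) (√(C1 * (B / W)))
  set X : Finset (Fin 5 → ℤ) := hX.toFinset with hXdef
  have hXm : ∀ x : Fin 5 → ℤ, nz x ^ 2 ≤ C1 * (B / W) → x ∈ X := fun x hx => by
    rw [hXdef, Set.Finite.mem_toFinset, Set.mem_ofPred_eq]
    exact Real.le_sqrt_of_sq_le hx
  have hL : ∀ w ∈ Ws, rho (nz w / W) * Sw ψ η Θ w B =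
      ∑ x ∈ X, if Unimod x ∧ In w x then tb ψ η θ W B x else 0 := by
    intro w hwW
    obtain ⟨hw, hU, hwT⟩ := (hWs w).1 hwW
    by_cases hr : rho (nz w / W) = 0
    · rw [hr, zero_mul]
      symm
      refine Finset.sum_eq_zero fun x _ => ?_
      split_ifs with h1
      · rw [tb_plane h hΘ hw h1.1 h1.2 (hU x h1.1 h1.2), hr, zero_mul]
      · rfl
    · have hr1 := (rho_supp hr).1
      rw [lt_div_iff₀ hW] at hr1
      rw [Sw, fs_eq _ _ X, Finset.mul_sum]
      · refine Finset.sum_congr rfl fun x _ => ?_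
        by_cases h1 : Unimod x ∧ In w x
        · rw [if_pos h1, if_pos (show x ∈ {x : Fin 5 → ℤ | Unimod x ∧ In w x} from h1),
            tb_plane h hΘ hw h1.1 h1.2 (hU x h1.1 h1.2)]
        · rw [if_neg h1, if_neg (show x ∉ {x : Fin 5 → ℤ | Unimod x ∧ In w x} from h1), mul_zero]
      · intro x hx hne
        have h2 := Sw_supp h hΘ hB hw hx.1 hx.2 hne
        refine hXm x ?_
        rw [hC1, div_mul_div_comm, le_div_iff₀ (by positivity)]
        have h3 : nz x ^ 2 * (W / 2) * (a' * a) ≤ nz x ^ 2 * nz w * (a' * a) := by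
          have : W / 2 ≤ nz w := by linarith
          gcongr
        nlinarith
  rw [Finset.sum_congr rfl hL, Finset.sum_comm]
  have hR : BlkU ψ η θ W B = ∑ x ∈ X, if Unimod x ∧ mm x ≠ 0 ∧ UX x then tb ψ η θ W B x else 0 := by
    rw [BlkU, fs_eq _ _ X]
    · refine Finset.sum_congr rfl fun x _ => ?_
      by_cases h1 : Unimod x ∧ mm x ≠ 0 ∧ UX x
      · rw [if_pos h1, if_pos (show x ∈ {x : Fin 5 → ℤ | Unimod x ∧ mm x ≠ 0 ∧ UX x} from h1)]
      · rw [if_neg h1, if_neg (show x ∉ {x : Fin 5 → ℤ | Unimod x ∧ mm x ≠ 0 ∧ UX x} from h1)]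
    · rintro x ⟨hx, hm, -⟩ hne
      exact hXm x (tb_size h hθ hW hB hm hne).2.2
  rw [hR, Finset.mul_sum]
  refine Finset.sum_congr rfl fun x _ => ?_
  by_cases h1 : Unimod x ∧ mm x ≠ 0 ∧ UX x
  swap
  · rw [if_neg h1, mul_zero]
    refine Finset.sum_eq_zero fun w hw => ?_
    rw [if_neg]
    rintro ⟨h2, h3⟩
    obtain ⟨hwV, hU, -⟩ := (hWs w).1 hw
    have hm := hU x h2 h3
    exact h1 ⟨h2, hm, UX_of hwV hU h3 hm⟩
  · rw [if_pos h1]
    obtain ⟨hx, hm, hUX⟩ := h1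
    obtain ⟨w, hw, -, hin⟩ := exists_plane hx hm
    have hU := hUX w hw hin
    by_cases h2 : tb ψ η θ W B x = 0
    · rw [h2, mul_zero]
      refine Finset.sum_eq_zero fun w _ => ?_
      rw [ite_self]
    · have h4 : w ∈ Ws := by
        rw [hWs]
        refine ⟨hw, hU, ?_⟩
        rw [tb_plane h hΘ hw hx hin hm] at h2
        have h3 : rho (nz w / W) ≠ 0 := fun h0 => h2 (by rw [h0, zero_mul])
        have := (rho_supp h3).2
        rw [div_lt_iff₀ hW] at this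
        exact this.le
      have h5 : -w ∈ Ws := by
        rw [hWs] at h4 ⊢
        refine ⟨VV_neg hw, UU_neg hU, ?_⟩
        rw [nz_neg]
        exact h4.2.2
      have hne := VV_ne_neg hw
      have h6 : ∑ w' ∈ Ws, (if Unimod x ∧ In w' x then tb ψ η θ W B x else 0) =
          ∑ w' ∈ ({w, -w} : Finset (Fin 5 × Fin 5 → ℤ)), tb ψ η θ W B x := by
        symm
        refine Finset.sum_subset_zero_on_sdiff ?_ ?_ ?_
        · intro v hv
          rw [Finset.mem_insert, Finset.mem_singleton] at hv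
          rcases hv with rfl | rfl
          · exact h4
          · exact h5
        · intro v hv
          rw [Finset.mem_sdiff, Finset.mem_insert, Finset.mem_singleton] at hv
          rw [if_neg]
          rintro ⟨-, h7⟩
          exact hv.2 (planes_of hw ((hWs v).1 hv.1).1 hin h7 hm)
        · intro v hv
          rw [Finset.mem_insert, Finset.mem_singleton] at hv
          rcases hv with rfl | rfl
          · rw [if_pos ⟨hx, hin⟩]
          · rw [if_pos ⟨hx, in_neg' hin⟩]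
      rw [h6, Finset.sum_const, Finset.card_pair hne]
      simp

end

end Pool.Agent.KS6_53.Y4
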