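import Pool.Agent.KS6_53.Y4.E4

set_option autoImplicit false

namespace Pool.Agent.KS6_53.Y4

open Finset Filter Topology MeasureTheory Pool.Agent.KS6_53.V5

section

variable {ψ : (Fin 5 → ℝ) × (Fin 5 × Fin 5 → ℝ) → ℝ} {η a b a' b' ξ : ℝ} {θ : (Fin 5 → ℤ) → ℝ}
  {Θ : (Fin 5 → ℤ) → (Fin 5 × Fin 5 → ℤ) → ℝ}

theorem Sw_nonneg (w : Fin 5 × Fin 5 → ℤ) (B : ℝ) : 0 ≤ Sw ψ η Θ w B :=
  fs_nonneg fun _ _ => tz1_nonneg _ _

/-- upper bound of the sum over one plane -/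
theorem Sw_le (h : Rd2 ψ η a b a' b') (hΘ : Th θ Θ a b) : ∃ C : ℝ, 0 < C ∧ ∀ w ∈ VV, ∀ B : ℝ, 0 < B →
    Sw ψ η Θ w B ≤ C * (B / nz w ^ 2 + 1) := by
  have ha := h.ha
  have ha' := h.ha'
  have hη := h.hη
  set C1 : ℝ := (1 + η) / (a' * a) with hC1
  have hC10 : 0 < C1 := by positivity
  refine ⟨8 * C1 + 8, by positivity, fun w hw B hB => ?_⟩
  have hw0 : 0 < nz w := VV_nz_pos hw
  set X : ℝ := √(C1 * B / nz w) with hX
  have hX2 : X ^ 2 = C1 * B / nz w := Real.sq_sqrt (by positivity)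
  obtain ⟨p1, p2⟩ := pl w hw X (Real.sqrt_nonneg _)
  have h1 := fs_norm_le (s := {x : Fin 5 → ℤ | Unimod x ∧ In w x})
    (f := fun x => tz1 η (nz x ^ 2 * nz w * ψ (rv x, rv w) * Θ x w / B)) (M := 1)
    (t := {x | Unimod x ∧ In w x ∧ nz x ≤ X})
    (fun x _ => by rw [abs_of_nonneg (tz1_nonneg _ _)]; exact tz1_le _ _) p1
    (fun x hx hne => by
      refine ⟨hx.1, hx.2, Real.le_sqrt_of_sq_le ?_⟩
      have h2 := Sw_supp h hΘ hB hw hx.1 hx.2 hne
      rw [le_div_iff₀ hw0, hC1, div_mul_eq_mul_div, le_div_iff₀ (by positivity)]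
      exact h2.le) zero_le_one
  refine (le_abs_self _).trans (h1.trans ?_)
  rw [one_mul]
  refine p2.trans ?_
  rw [hX2]
  have e : 8 * (C1 * B / nz w) / nz w = 8 * C1 * (B / nz w ^ 2) := by
    field_simp
  rw [e]
  have : 0 ≤ B / nz w ^ 2 := by positivity
  nlinarith

/-- the planes of a block -/
theorem exists_Ws (W : ℝ) : ∃ Ws : Finset (Fin 5 × Fin 5 → ℤ), ∀ w, w ∈ Ws ↔ w ∈ VV ∧ UU w ∧ nz w ≤ 2 * W := by
  have hf : {w : Fin 5 × Fin 5 → ℤ | w ∈ VV ∧ UU w ∧ nz w ≤ 2 * W}.Finite :=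
    (nz_fin (2 * W)).subset fun w hw => hw.2.2
  refine ⟨hf.toFinset, fun w => ?_⟩
  rw [Set.Finite.mem_toFinset, Set.mem_ofPred_eq]

theorem Ws_card : ∃ C : ℝ, 0 < C ∧ ∀ W : ℝ, 1 ≤ W → ∀ Ws : Finset (Fin 5 × Fin 5 → ℤ),
    (∀ w, w ∈ Ws ↔ w ∈ VV ∧ UU w ∧ nz w ≤ 2 * W) → (Ws.card : ℝ) ≤ C * W ^ 2 := by
  obtain ⟨C, hC, hub⟩ := ub
  refine ⟨4 * C, by positivity, fun W hW Ws hWs => ?_⟩
  obtain ⟨h1, h2⟩ := hub (2 * W) (by linarith)
  have h3 : (Ws.card : ℝ) ≤ ({w ∈ VV | nz w ≤ 2 * W}.ncard : ℝ) := by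
    have h4 : (Ws : Set (Fin 5 × Fin 5 → ℤ)) ⊆ {w ∈ VV | nz w ≤ 2 * W} := fun w hw => by
      have := (hWs w).1 (Finset.mem_coe.1 hw)
      exact ⟨this.1, this.2.2⟩
    have h5 := Set.ncard_le_ncard h4 h1
    rw [Set.ncard_coe_finset] at h5
    exact_mod_cast h5
  nlinarith

/-- upper bound of the blocks, small scales -/
theorem BlkU_up1 (h : Rd2 ψ η a b a' b') (hΘ : Th θ Θ a b) (hθ : ∀ x, θ x ∈ Set.Icc a b) :
    ∃ C : ℝ, 0 < C ∧ ∀ W B : ℝ, 1 ≤ W → W ^ 2 ≤ B → BlkU ψ η θ W B ≤ C * B := by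
  obtain ⟨C1, hC1, h1⟩ := Sw_le h hΘ
  obtain ⟨C2, hC2, h2⟩ := Ws_card
  refine ⟨C1 * C2 * 5, by positivity, fun W B hW hB => ?_⟩
  have hW0 : 0 < W := by linarith
  have hB0 : 0 < B := lt_of_lt_of_le (by positivity) hB
  obtain ⟨Ws, hWs⟩ := exists_Ws W
  have h3 := BlkU_eq h hΘ hθ hW0 hB0 Ws hWs
  have h4 : ∑ w ∈ Ws, rho (nz w / W) * Sw ψ η Θ w B ≤ ∑ w ∈ Ws, C1 * (5 * B / W ^ 2) := by
    refine Finset.sum_le_sum fun w hw => ?_
    obtain ⟨hwV, -, -⟩ := (hWs w).1 hw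
    by_cases hr : rho (nz w / W) = 0
    · rw [hr, zero_mul]
      positivity
    · have hr1 := (rho_supp hr).1
      rw [lt_div_iff₀ hW0] at hr1
      have e1 := h1 w hwV B hB0
      have e2 := rho_le (nz w / W)
      have e3 := Sw_nonneg (ψ := ψ) (η := η) (Θ := Θ) w B
      have e4 : B / nz w ^ 2 + 1 ≤ 5 * B / W ^ 2 := by
        have f1 : B / nz w ^ 2 ≤ 4 * B / W ^ 2 := by
          rw [div_le_div_iff₀ (by have := VV_nz_pos hwV; positivity) (by positivity)]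
          have : (W / 2) ^ 2 ≤ nz w ^ 2 := pow_le_pow_left₀ (by positivity) (by linarith) 2
          nlinarith
        have f2 : 1 ≤ B / W ^ 2 := by
          rw [le_div_iff₀ (by positivity)]
          linarith
        have f3 : 5 * B / W ^ 2 = 4 * B / W ^ 2 + B / W ^ 2 := by ring
        linarith
      calc rho (nz w / W) * Sw ψ η Θ w B ≤ 1 * Sw ψ η Θ w B := mul_le_mul_of_nonneg_right e2 e3
        _ ≤ C1 * (B / nz w ^ 2 + 1) := by rw [one_mul]; exact e1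
        _ ≤ _ := mul_le_mul_of_nonneg_left e4 hC1.le
  rw [Finset.sum_const, nsmul_eq_mul] at h4
  have h5 := h2 W hW Ws hWs
  have h6 : (Ws.card : ℝ) * (C1 * (5 * B / W ^ 2)) ≤ C1 * C2 * 5 * B := by
    calc (Ws.card : ℝ) * (C1 * (5 * B / W ^ 2)) ≤ C2 * W ^ 2 * (C1 * (5 * B / W ^ 2)) :=
          mul_le_mul_of_nonneg_right h5 (by positivity)
      _ = _ := by field_simp
  have h7 : 0 ≤ BlkU ψ η θ W B := fs_nonneg fun _ _ => tb_nonneg _ _ _
  linarith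

/-- **the small scales** -/
theorem regI (h : Rd2 ψ η a b a' b') (hΘ : Th θ Θ a b) (hθ : ∀ x, θ x ∈ Set.Icc a b) {l : ℝ}
    (hl : ∀ t0 ε : ℝ, 0 < t0 → 0 < ε → ∀ᶠ T in atTop, ∀ t : ℝ, t0 ≤ t →
      |Blk ψ η θ (t ^ 3 * T) (t ^ 5 * T ^ 2) / (t ^ 5 * T ^ 2) - l| ≤ ε) (ε : ℝ) (hε : 0 < ε) :
    ∃ K : ℝ, 1 ≤ K ∧ ∃ W₀ : ℝ, 1 ≤ W₀ ∧ ∀ W B : ℝ, W₀ ≤ W → K ^ 2 * W ^ 2 ≤ B →
      |BlkU ψ η θ W B / B - l| ≤ ε := by
  classical
  obtain ⟨C1, hC1, h1⟩ := Sw_le h hΘ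
  obtain ⟨C2, hC2, h2⟩ := Ws_card
  obtain ⟨C3, hC3, h3⟩ := sk
  set ξ : ℝ := √(ε / (40 * C1 * C3)) with hξ
  have hξ0 : 0 < ξ := by positivity
  have hξ2 : ξ ^ 2 = ε / (40 * C1 * C3) := Real.sq_sqrt (by positivity)
  set ε₁ : ℝ := ε / (8 * C2) with hε₁
  have hε₁0 : 0 < ε₁ := by positivity
  obtain ⟨K', hK', hlin⟩ := lin h hΘ hξ0 ε₁ hε₁0
  set K : ℝ := 2 * K' with hK
  have hK1 : 1 ≤ K := by linarith
  have hK0 : 0 < K := by linarith
  have hev1 := hl (K ^ 2)⁻¹ (ε / 4) (by positivity) (by positivity)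
  have hev2 := non_UU h hθ (K ^ 2)⁻¹ (ε / 4) (by positivity) (by positivity)
  obtain ⟨T₀, hT₀⟩ := Filter.eventually_atTop.1 (hev1.and hev2)
  refine ⟨K, hK1, max 1 T₀, le_max_left _ _, fun W B hW hB => ?_⟩
  have hW1 : 1 ≤ W := (le_max_left _ _).trans hW
  have hWT : T₀ ≤ W := (le_max_right _ _).trans hW
  have hW0 : 0 < W := by linarith
  have hB0 : 0 < B := lt_of_lt_of_le (by positivity) hB
  set B0 : ℝ := K ^ 2 * W ^ 2 with hB0def
  have hB00 : 0 < B0 := by positivity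
  -- the comparison scale
  have hbase : |BlkU ψ η θ W B0 / B0 - l| ≤ ε / 2 := by
    have hTT : T₀ ≤ K ^ 6 * W := by
      refine hWT.trans ?_
      have : 1 ≤ K ^ 6 := one_le_pow₀ hK1
      nlinarith
    obtain ⟨g1, g2⟩ := hT₀ (K ^ 6 * W) hTT
    have g3 := g1 (K ^ 2)⁻¹ le_rfl
    have g4 := g2 (K ^ 2)⁻¹ le_rfl
    have e1 : ((K ^ 2)⁻¹) ^ 3 * (K ^ 6 * W) = W := by field_simp
    have e2 : ((K ^ 2)⁻¹) ^ 5 * (K ^ 6 * W) ^ 2 = B0 := by
      rw [hB0def]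
      field_simp
    rw [e1, e2] at g3 g4
    have g5 : |BlkU ψ η θ W B0 / B0 - Blk ψ η θ W B0 / B0| ≤ ε / 4 := by
      rw [← sub_div, abs_div, abs_of_pos hB00, div_le_iff₀ hB00, abs_sub_comm]
      exact g4
    rw [abs_le] at g3 g5 ⊢
    constructor
    · linarith [g3.1, g5.1]
    · linarith [g3.2, g5.2]
  -- the sums over the planes
  obtain ⟨Ws, hWs⟩ := exists_Ws W
  have e1 := BlkU_eq h hΘ hθ hW0 hB0 Ws hWs
  have e2 := BlkU_eq h hΘ hθ hW0 hB00 Ws hWs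
  set Sk : Set (Fin 5 × Fin 5 → ℤ) := {w ∈ VV | nz w ≤ 2 * W ∧ UU w ∧ ∃ x, Unimod x ∧ In w x ∧
    nz x ≤ ξ * √(2 * W)} with hSk
  have hSkf : Sk.Finite := (nz_fin (2 * W)).subset fun w hw => hw.2.1
  have hSkc := h3 (2 * W) ξ (by linarith) hξ0
  have hWsc := h2 W hW1 Ws hWs
  have hterm : ∀ w ∈ Ws, |rho (nz w / W) * (Sw ψ η Θ w B / B - Sw ψ η Θ w B0 / B0)| ≤
      4 * ε₁ / W ^ 2 + if w ∈ Sk then 5 * C1 / W ^ 2 else 0 := by
    intro w hw
    obtain ⟨hwV, hU, hwW⟩ := (hWs w).1 hw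
    have hwp := VV_nz_pos hwV
    by_cases hr : rho (nz w / W) = 0
    · rw [hr, zero_mul, abs_zero]
      split_ifs <;> positivity
    · have hr1 := (rho_supp hr).1
      rw [lt_div_iff₀ hW0] at hr1
      have hww : W ^ 2 ≤ 4 * nz w ^ 2 := by
        have : (W / 2) ^ 2 ≤ nz w ^ 2 := pow_le_pow_left₀ (by positivity) (by linarith) 2
        nlinarith
      have f0 : |rho (nz w / W) * (Sw ψ η Θ w B / B - Sw ψ η Θ w B0 / B0)| ≤
          |Sw ψ η Θ w B / B - Sw ψ η Θ w B0 / B0| := by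
        rw [abs_mul, abs_of_nonneg (rho_nonneg _)]
        exact mul_le_of_le_one_left (abs_nonneg _) (rho_le _)
      refine f0.trans ?_
      by_cases hs : w ∈ Sk
      · rw [if_pos hs]
        have f1 : ∀ B : ℝ, B0 ≤ B → 0 ≤ Sw ψ η Θ w B / B ∧ Sw ψ η Θ w B / B ≤ 5 * C1 / W ^ 2 := by
          intro B hB
          have hBp : 0 < B := lt_of_lt_of_le hB00 hB
          refine ⟨div_nonneg (Sw_nonneg _ _) hBp.le, ?_⟩
          rw [div_le_iff₀ hBp]
          refine (h1 w hwV B hBp).trans ?_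
          have g1 : B / nz w ^ 2 ≤ 4 * B / W ^ 2 := by
            rw [div_le_div_iff₀ (by positivity) (by positivity)]
            nlinarith
          have g2 : 1 ≤ B / W ^ 2 := by
            rw [le_div_iff₀ (by positivity), one_mul]
            refine le_trans ?_ hB
            have : 1 ≤ K ^ 2 := one_le_pow₀ hK1
            have : 0 ≤ W ^ 2 := by positivity
            rw [hB0def]
            nlinarith
          have g3 : 5 * C1 / W ^ 2 * B = C1 * (4 * B / W ^ 2 + B / W ^ 2) := by ring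
          rw [g3]
          exact mul_le_mul_of_nonneg_left (by linarith) hC1.le
        obtain ⟨u1, u2⟩ := f1 B hB
        obtain ⟨u3, u4⟩ := f1 B0 le_rfl
        have u5 : 0 ≤ 4 * ε₁ / W ^ 2 := by positivity
        rw [abs_le]
        constructor <;> linarith
      · rw [if_neg hs, add_zero]
        have hmin : ∀ x, Unimod x → In w x → ξ * √(nz w) ≤ nz x := by
          intro x hx hin
          by_contra hc
          push Not at hc
          apply hs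
          refine ⟨hwV, hwW, hU, x, hx, hin, hc.le.trans ?_⟩
          exact mul_le_mul_of_nonneg_left (Real.sqrt_le_sqrt hwW) hξ0.le
        have hKB : K' ^ 2 * nz w ^ 2 ≤ B0 := by
          rw [hB0def, hK]
          have : nz w ^ 2 ≤ (2 * W) ^ 2 := pow_le_pow_left₀ hwp.le hwW 2
          have : 0 ≤ K' ^ 2 := by positivity
          nlinarith
        have f2 := hlin w hwV hmin B B0 (hKB.trans hB) hKB
        rw [le_div_iff₀ (by positivity)]
        have f3 := abs_nonneg (Sw ψ η Θ w B / B - Sw ψ η Θ w B0 / B0)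
        nlinarith
  have hdiff : |BlkU ψ η θ W B / B - BlkU ψ η θ W B0 / B0| ≤ ε / 2 := by
    have g1 : 2 * (BlkU ψ η θ W B / B - BlkU ψ η θ W B0 / B0) =
        ∑ w ∈ Ws, rho (nz w / W) * (Sw ψ η Θ w B / B - Sw ψ η Θ w B0 / B0) := by
      have : ∀ w ∈ Ws, rho (nz w / W) * (Sw ψ η Θ w B / B - Sw ψ η Θ w B0 / B0) =
          rho (nz w / W) * Sw ψ η Θ w B / B - rho (nz w / W) * Sw ψ η Θ w B0 / B0 := fun w _ => by ring
      rw [Finset.sum_congr rfl this, Finset.sum_sub_distrib, ← Finset.sum_div, ← Finset.sum_div, e1, e2]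
      ring
    have g2 : |2 * (BlkU ψ η θ W B / B - BlkU ψ η θ W B0 / B0)| ≤ ε := by
      rw [g1]
      refine (Finset.abs_sum_le_sum_abs _ _).trans ((Finset.sum_le_sum hterm).trans ?_)
      rw [Finset.sum_add_distrib, Finset.sum_const, nsmul_eq_mul, ← Finset.sum_filter, Finset.sum_const,
        nsmul_eq_mul]
      have k1 : (Ws.card : ℝ) * (4 * ε₁ / W ^ 2) ≤ ε / 2 := by
        calc (Ws.card : ℝ) * (4 * ε₁ / W ^ 2) ≤ C2 * W ^ 2 * (4 * ε₁ / W ^ 2) :=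
              mul_le_mul_of_nonneg_right hWsc (by positivity)
          _ = ε / 2 := by
              rw [hε₁]
              field_simp
              norm_num
      have k2 : ((Ws.filter (· ∈ Sk)).card : ℝ) ≤ Sk.ncard := by
        rw [Set.ncard_eq_toFinset_card _ hSkf]
        exact_mod_cast Finset.card_le_card fun w hw => by
          rw [Finset.mem_filter] at hw
          simpa using hw.2
      have k3 : ((Ws.filter (· ∈ Sk)).card : ℝ) * (5 * C1 / W ^ 2) ≤ ε / 2 := by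
        calc ((Ws.filter (· ∈ Sk)).card : ℝ) * (5 * C1 / W ^ 2) ≤
              C3 * ξ ^ 2 * (2 * W) ^ 2 * (5 * C1 / W ^ 2) :=
              mul_le_mul_of_nonneg_right (k2.trans hSkc) (by positivity)
          _ = ε / 2 := by
              rw [hξ2]
              field_simp
              norm_num
      linarith
    rw [abs_mul, abs_of_pos (show (0 : ℝ) < 2 by norm_num)] at g2
    linarith
  rw [abs_le] at hbase hdiff ⊢
  constructor
  · linarith [hbase.1, hdiff.1]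
  · linarith [hbase.2, hdiff.2]

end

end Pool.Agent.KS6_53.Y4
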