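import Mathlib

set_option autoImplicit false

namespace Pool.Agent.KS6_53.Y4

open Finset Filter Topology

/-- summation over the dyadic blocks -/
theorem dyad_sum {g : ℕ → ℝ → ℝ} {S : ℝ → ℝ} {l C : ℝ} {c' : ℕ} (hl : 0 ≤ l) (hC : 0 ≤ C)
    (h1 : ∀ B : ℝ, 1 ≤ B → ∀ j, 0 ≤ g j B ∧ g j B ≤ C)
    (h2 : ∀ B : ℝ, 1 ≤ B → ∀ J : ℕ, (2 : ℝ) ^ c' * B ^ 3 ≤ (2 : ℝ) ^ (5 * J) →
      S B = ∑ j ∈ range (J + 1), g j B)
    (h3 : ∀ ε : ℝ, 0 < ε → ∃ n0 τ : ℕ, ∀ B : ℝ, 1 ≤ B → ∀ j, n0 ≤ j →
      (2 : ℝ) ^ (5 * j + τ) ≤ B ^ 3 → |g j B - l| ≤ ε) :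
    Tendsto (fun B => S B / Real.log B) atTop (𝓝 (3 * l / (5 * Real.log 2))) := by
  have hlog2 : 0 < Real.log 2 := Real.log_pos one_lt_two
  -- the limit in base 2
  have key : Tendsto (fun B => S B / Real.logb 2 B) atTop (𝓝 (3 * l / 5)) := by
    rw [Metric.tendsto_atTop]
    intro ε hε
    obtain ⟨n0, τ, h3'⟩ := h3 (ε / 4) (by positivity)
    -- the constant
    set E : ℝ := l * (c' / 5 + 2) + ε / 4 * (c' / 5 + 2) + n0 * (C + l) + ((c' + τ) / 5 + 2) * (C + l) with hE
    have hE0 : 0 ≤ E := by positivity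
    set L0 : ℝ := max (τ + 1) (2 * E / ε + 1) with hL0
    refine ⟨(2 : ℝ) ^ L0, fun B hB => ?_⟩
    have hB1 : 1 ≤ B := by
      refine le_trans ?_ hB
      refine Real.one_le_rpow one_lt_two.le ?_
      exact le_trans (by positivity) (le_max_left _ _)
    have hB0 : 0 < B := by linarith
    set L : ℝ := Real.logb 2 B with hL
    have hLL : L0 ≤ L := by
      rw [hL, Real.le_logb_iff_rpow_le one_lt_two hB0]
      exact hB
    have hL1 : (τ : ℝ) + 1 ≤ L := (le_max_left _ _).trans hLL
    have hL2 : 2 * E / ε + 1 ≤ L := (le_max_right _ _).trans hLL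
    have hLp : 0 < L := by
      have : (0 : ℝ) ≤ τ := Nat.cast_nonneg _
      linarith
    have hBL : B ^ 3 = (2 : ℝ) ^ (3 * L) := by
      rw [mul_comm, Real.rpow_mul (by norm_num), hL, Real.rpow_logb two_pos (by norm_num) hB0]
      norm_cast
    set J : ℕ := ⌈(3 * L + c') / 5⌉₊ with hJ
    have hJ1 : (3 * L + c') / 5 ≤ J := Nat.le_ceil _
    have hJ2 : (J : ℝ) < (3 * L + c') / 5 + 1 := Nat.ceil_lt_add_one (by positivity)
    set m : ℕ := ⌊(3 * L - τ) / 5⌋₊ with hm
    have hτ0 : (0 : ℝ) ≤ τ := Nat.cast_nonneg _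
    have hm1 : (m : ℝ) ≤ (3 * L - τ) / 5 := Nat.floor_le (by
      apply div_nonneg _ (by norm_num)
      linarith)
    have hm2 : (3 * L - τ) / 5 < m + 1 := Nat.lt_floor_add_one _
    have hS : S B = ∑ j ∈ range (J + 1), g j B := by
      refine h2 B hB1 J ?_
      rw [hBL, ← Real.rpow_natCast 2 c', ← Real.rpow_add two_pos, ← Real.rpow_natCast 2 (5 * J)]
      refine Real.rpow_le_rpow_of_exponent_le one_lt_two.le ?_
      push_cast
      linarith
    have hterm : ∀ j ∈ range (J + 1), |g j B - l| ≤ ε / 4 + (if j < n0 then C + l else 0) +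
        (if m < j then C + l else 0) := by
      intro j _
      obtain ⟨g1, g2⟩ := h1 B hB1 j
      have g3 : |g j B - l| ≤ C + l := by
        rw [abs_le]
        constructor <;> linarith
      have hCl : 0 ≤ C + l := by positivity
      by_cases a1 : j < n0
      · rw [if_pos a1]
        split_ifs <;> linarith
      · by_cases a2 : m < j
        · rw [if_pos a2]
          split_ifs <;> linarith
        · rw [if_neg a1, if_neg a2, add_zero, add_zero]
          push Not at a1 a2
          refine h3' B hB1 j a1 ?_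
          rw [hBL, ← Real.rpow_natCast 2 (5 * j + τ)]
          refine Real.rpow_le_rpow_of_exponent_le one_lt_two.le ?_
          have : (j : ℝ) ≤ m := by exact_mod_cast a2
          push_cast
          linarith
    have hsum : |S B - (J + 1) * l| ≤ (J + 1) * (ε / 4) + n0 * (C + l) + ((c' + τ) / 5 + 2) * (C + l) := by
      have e1 : S B - (J + 1) * l = ∑ j ∈ range (J + 1), (g j B - l) := by
        rw [Finset.sum_sub_distrib, ← hS, Finset.sum_const, Finset.card_range, nsmul_eq_mul]
        push_cast
        ring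
      rw [e1]
      refine (Finset.abs_sum_le_sum_abs _ _).trans ((Finset.sum_le_sum hterm).trans ?_)
      rw [Finset.sum_add_distrib, Finset.sum_add_distrib, Finset.sum_const, Finset.card_range,
        nsmul_eq_mul, ← Finset.sum_filter, ← Finset.sum_filter, Finset.sum_const, Finset.sum_const,
        nsmul_eq_mul, nsmul_eq_mul]
      have hCl : 0 ≤ C + l := by positivity
      have e2 : (((range (J + 1)).filter (· < n0)).card : ℝ) ≤ n0 := by
        have : ((range (J + 1)).filter (· < n0)).card ≤ (range n0).card := by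
          refine Finset.card_le_card fun j hj => ?_
          rw [Finset.mem_filter] at hj
          exact Finset.mem_range.2 hj.2
        rw [Finset.card_range] at this
        exact_mod_cast this
      have e3 : (((range (J + 1)).filter (m < ·)).card : ℝ) ≤ (c' + τ) / 5 + 2 := by
        have h5 : ((range (J + 1)).filter (m < ·)).card ≤ (Finset.Ioc m J).card := by
          refine Finset.card_le_card fun j hj => ?_
          rw [Finset.mem_filter, Finset.mem_range] at hj
          rw [Finset.mem_Ioc]
          omega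
        rw [Nat.card_Ioc] at h5
        have h6 : ((J - m : ℕ) : ℝ) ≤ (c' + τ) / 5 + 2 := by
          rcases le_total m J with h7 | h7
          · rw [Nat.cast_sub h7]
            linarith
          · rw [Nat.sub_eq_zero_of_le h7, Nat.cast_zero]
            positivity
        exact le_trans (by exact_mod_cast h5) h6
      have e4 := mul_le_mul_of_nonneg_right e2 hCl
      have e5 := mul_le_mul_of_nonneg_right e3 hCl
      push_cast
      linarith
    have hfin : |S B - 3 * l / 5 * L| ≤ ε / 4 * L + E := by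
      have f1 : |(J + 1) * l - 3 * l / 5 * L| ≤ l * (c' / 5 + 2) := by
        have e : ((J : ℝ) + 1) * l - 3 * l / 5 * L = l * (J + 1 - 3 * L / 5) := by ring
        rw [e, abs_mul, abs_of_nonneg hl]
        refine mul_le_mul_of_nonneg_left ?_ hl
        have hc0 : (0 : ℝ) ≤ c' := Nat.cast_nonneg _
        rw [abs_le]
        constructor <;> linarith
      have f2 : ((J : ℝ) + 1) * (ε / 4) ≤ ε / 4 * L + ε / 4 * (c' / 5 + 2) := by
        have : (J : ℝ) + 1 ≤ L + (c' / 5 + 2) := by linarith
        nlinarith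
      have f3 := abs_add_le (S B - (J + 1) * l) ((J + 1) * l - 3 * l / 5 * L)
      rw [sub_add_sub_cancel] at f3
      rw [hE]
      linarith
    rw [Real.dist_eq]
    have e6 : S B / L - 3 * l / 5 = (S B - 3 * l / 5 * L) / L := by
      field_simp
    rw [e6, abs_div, abs_of_pos hLp, div_lt_iff₀ hLp]
    have e7 : 2 * E < ε * L := by
      have : 2 * E / ε < L := by linarith
      rw [div_lt_iff₀ hε] at this
      linarith
    have : 0 < ε * L := by positivity
    linarith
  have h4 : ∀ B : ℝ, S B / Real.log B = S B / Real.logb 2 B / Real.log 2 := by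
    intro B
    rw [Real.logb]
    field_simp
  have h5 := key.div_const (Real.log 2)
  have h6 : 3 * l / (5 * Real.log 2) = 3 * l / 5 / Real.log 2 := by
    field_simp
  rw [h6]
  exact h5.congr fun B => (h4 B).symm

end Pool.Agent.KS6_53.Y4
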