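import Pool.Agent.KS6_53.Y4.F0
import Pool.Agent.KS6_53.Y4.E5
import Pool.Agent.KS6_53.Y4.D5

set_option autoImplicit false

namespace Pool.Agent.KS6_53.Y4

open Finset Filter Topology MeasureTheory Pool.Agent.KS6_53.V5

/-- the clamp -/
noncomputable def clp (v : ℝ) : ℝ := max 0 (min 1 (v - 1))

theorem rho_clp {v : ℝ} (hv : 0 ≤ v) : rho v = clp (2 * v) - clp v := by
  unfold rho clp
  rcases le_total v (1 / 2) with h1 | h1
  · rw [max_eq_left, max_eq_left, max_eq_left, sub_self]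
    · exact (min_le_right _ _).trans (by linarith)
    · exact (min_le_right _ _).trans (by linarith)
    · exact (min_le_left _ _).trans (by linarith)
  · rcases le_total v 1 with h2 | h2
    · rw [min_eq_left (by linarith : 2 * v - 1 ≤ 2 - v), min_eq_right (by linarith : 2 * v - 1 ≤ 1),
        max_eq_left (a := (0 : ℝ)) (b := min 1 (v - 1)) ((min_le_right _ _).trans (by linarith))]
      ring
    · rcases le_total v 2 with h3 | h3
      · rw [min_eq_right (by linarith : 2 - v ≤ 2 * v - 1), min_eq_left (by linarith : (1 : ℝ) ≤ 2 * v - 1),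
          min_eq_right (by linarith : v - 1 ≤ 1), max_eq_right (by linarith : 0 ≤ 2 - v),
          max_eq_right (zero_le_one), max_eq_right (by linarith : 0 ≤ v - 1)]
        ring
      · rw [min_eq_right (by linarith : 2 - v ≤ 2 * v - 1), min_eq_left (by linarith : (1 : ℝ) ≤ 2 * v - 1),
          min_eq_left (by linarith : (1 : ℝ) ≤ v - 1), max_eq_left (by linarith : 2 - v ≤ 0), sub_self]

theorem clp_one {v : ℝ} (h : 2 ≤ v) : clp v = 1 := by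
  unfold clp
  rw [min_eq_left (by linarith), max_eq_right zero_le_one]

theorem clp_zero {v : ℝ} (h : v ≤ 1) : clp v = 0 := by
  unfold clp
  rw [max_eq_left ((min_le_right _ _).trans (by linarith))]

/-- partition of unity -/
theorem rho_sum {v : ℝ} (hv : 1 ≤ v) (J : ℕ) (hJ : v ≤ 2 ^ J) :
    ∑ j ∈ range (J + 1), rho (v / 2 ^ j) = 1 := by
  have h1 : ∀ N : ℕ, ∑ j ∈ range N, rho (v / 2 ^ j) = clp (2 * v) - clp (2 * v / 2 ^ N) := by
    intro N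
    induction N with
    | zero => simp
    | succ n ih =>
      rw [Finset.sum_range_succ, ih, rho_clp (by positivity)]
      have e1 : 2 * (v / 2 ^ n) = 2 * v / 2 ^ n := by ring
      have e2 : 2 * v / 2 ^ (n + 1) = v / 2 ^ n := by
        rw [pow_succ]
        field_simp
      rw [e1, e2]
      ring
  rw [h1, clp_one (by linarith), clp_zero, sub_zero]
  rw [pow_succ, div_le_one (by positivity)]
  linarith

/-- the smooth sum -/
noncomputable def NS (ψ : (Fin 5 → ℝ) × (Fin 5 × Fin 5 → ℝ) → ℝ) (η : ℝ) (θ : (Fin 5 → ℤ) → ℝ)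
    (B : ℝ) : ℝ := ∑ᶠ x ∈ {x : Fin 5 → ℤ | Unimod x ∧ mm x ≠ 0 ∧ UX x}, tz1 η (HH ψ θ x / B)

section

variable {ψ : (Fin 5 → ℝ) × (Fin 5 × Fin 5 → ℝ) → ℝ} {η a b a' b' ξ : ℝ} {θ : (Fin 5 → ℤ) → ℝ}
  {Θ : (Fin 5 → ℤ) → (Fin 5 × Fin 5 → ℤ) → ℝ}

theorem one_le_hw {x : Fin 5 → ℤ} (hm : mm x ≠ 0) : 1 ≤ nz (mm x) / gg x := by
  have hg := gg_pos hm
  have hg0 : (0 : ℝ) < gg x := by exact_mod_cast hg
  rw [le_div_iff₀ hg0, one_mul]
  obtain ⟨p, hp⟩ : ∃ p, mm x p ≠ 0 := by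
    by_contra hc
    push Not at hc
    exact hm (funext hc)
  have h1 := gg_dvd x p
  have h2 : (gg x : ℤ) ≤ |mm x p| := Int.le_of_dvd (abs_pos.2 hp) ((dvd_abs _ _).2 h1)
  have h3 : |((mm x p : ℤ) : ℝ)| ≤ nz (mm x) := by
    have := norm_le_pi_norm (rv (mm x)) p
    rwa [Real.norm_eq_abs] at this
  refine le_trans ?_ h3
  exact_mod_cast h2

/-- bounds of the height -/
theorem HH_ge (h : Rd2 ψ η a b a' b') (hθ : ∀ x, θ x ∈ Set.Icc a b) {x : Fin 5 → ℤ} (hm : mm x ≠ 0) :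
    nz x ^ 2 * (nz (mm x) / gg x) * (a' * a) ≤ HH ψ θ x := by
  have ha := h.ha
  have ha' := h.ha'
  have h1 := (h.hψ _ (rv_cone2 hm)).1
  have h2 := (hθ x).1
  have h3 := one_le_hw hm
  rw [HH]
  have h4 : 0 ≤ ψ (rv x, rv (mm x)) := ha'.le.trans h1
  calc nz x ^ 2 * (nz (mm x) / gg x) * (a' * a) = nz x ^ 2 * (nz (mm x) / gg x) * a' * a := by ring
    _ ≤ _ := by gcongr

/-- size of the plane -/
theorem plane_size (h : Rd2 ψ η a b a' b') (hθ : ∀ x, θ x ∈ Set.Icc a b) {x : Fin 5 → ℤ} (hm : mm x ≠ 0)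
    {H : ℝ} (hH : HH ψ θ x ≤ H) : (nz (mm x) / gg x) ^ 5 ≤ 36 * (H / (a' * a)) ^ 3 := by
  have ha := h.ha
  have ha' := h.ha'
  have hg := gg_pos hm
  have hg1 : (1 : ℝ) ≤ gg x := by exact_mod_cast hg
  have h1 := HH_ge h hθ hm
  have h2 := one_le_hw hm
  set v := nz (mm x) / gg x with hv
  have hv0 : 0 < v := by linarith
  have hn := nz_nonneg x
  have h3 : v ≤ 6 * nz x ^ 3 := by
    refine le_trans ?_ (nz_mm_le x)
    rw [hv]
    exact div_le_self (nz_nonneg _) hg1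
  have h4 : nz x ^ 2 * v ≤ H / (a' * a) := by
    rw [le_div_iff₀ (by positivity)]
    exact h1.trans hH
  calc v ^ 5 = v ^ 2 * v ^ 3 := by ring
    _ ≤ (6 * nz x ^ 3) ^ 2 * v ^ 3 := by gcongr
    _ = 36 * (nz x ^ 2 * v) ^ 3 := by ring
    _ ≤ 36 * (H / (a' * a)) ^ 3 := by gcongr

/-- the finite set of the vectors of bounded height -/
theorem HH_fin (h : Rd2 ψ η a b a' b') (hθ : ∀ x, θ x ∈ Set.Icc a b) (H : ℝ) :
    {x : Fin 5 → ℤ | mm x ≠ 0 ∧ HH ψ θ x ≤ H}.Finite := by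
  have ha := h.ha
  have ha' := h.ha'
  refine (nz_fin (√(H / (a' * a)))).subset ?_
  rintro x ⟨hm, hH⟩
  refine Real.le_sqrt_of_sq_le ?_
  rw [le_div_iff₀ (by positivity)]
  refine le_trans ?_ ((HH_ge h hθ hm).trans hH)
  have h2 := one_le_hw hm
  have : 0 ≤ nz x ^ 2 := by positivity
  have : nz x ^ 2 * 1 ≤ nz x ^ 2 * (nz (mm x) / gg x) := mul_le_mul_of_nonneg_left h2 this
  have h3 : 0 < a' * a := by positivity
  nlinarith

/-- the smooth sum is the sum of the blocks -/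
theorem NS_eq (h : Rd2 ψ η a b a' b') (hθ : ∀ x, θ x ∈ Set.Icc a b) : ∃ c' : ℕ, ∀ B : ℝ, 1 ≤ B →
    ∀ J : ℕ, (2 : ℝ) ^ c' * B ^ 3 ≤ (2 : ℝ) ^ (5 * J) →
      NS ψ η θ B = ∑ j ∈ range (J + 1), BlkU ψ η θ (2 ^ j) B := by
  classical
  have ha := h.ha
  have ha' := h.ha'
  have hη := h.hη
  obtain ⟨c', hc'⟩ := pow_unbounded_of_one_lt (36 * ((1 + η) / (a' * a)) ^ 3) one_lt_two
  refine ⟨c', fun B hB J hJ => ?_⟩
  have hB0 : 0 < B := by linarith
  set X := (HH_fin h hθ ((1 + η) * B)).toFinset with hX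
  have hXm : ∀ x : Fin 5 → ℤ, mm x ≠ 0 → tz1 η (HH ψ θ x / B) ≠ 0 → x ∈ X := by
    intro x hm hne
    have := tz1_supp hη hne
    rw [div_lt_iff₀ hB0] at this
    rw [hX, Set.Finite.mem_toFinset]
    exact ⟨hm, this.le⟩
  have e1 : NS ψ η θ B = ∑ x ∈ X, if Unimod x ∧ mm x ≠ 0 ∧ UX x then tz1 η (HH ψ θ x / B) else 0 := by
    rw [NS, fs_eq _ _ X (fun x hx hne => hXm x hx.2.1 hne)]
    refine Finset.sum_congr rfl fun x _ => ?_
    by_cases h1 : Unimod x ∧ mm x ≠ 0 ∧ UX x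
    · rw [if_pos h1, if_pos (show x ∈ {x : Fin 5 → ℤ | Unimod x ∧ mm x ≠ 0 ∧ UX x} from h1)]
    · rw [if_neg h1, if_neg (show x ∉ {x : Fin 5 → ℤ | Unimod x ∧ mm x ≠ 0 ∧ UX x} from h1)]
  have e2 : ∀ j ∈ range (J + 1), BlkU ψ η θ (2 ^ j) B =
      ∑ x ∈ X, if Unimod x ∧ mm x ≠ 0 ∧ UX x then tb ψ η θ (2 ^ j) B x else 0 := by
    intro j _
    rw [BlkU, fs_eq _ _ X (fun x hx hne => hXm x hx.2.1 (fun h0 => hne (by rw [tb, h0, mul_zero])))]
    refine Finset.sum_congr rfl fun x _ => ?_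
    by_cases h1 : Unimod x ∧ mm x ≠ 0 ∧ UX x
    · rw [if_pos h1, if_pos (show x ∈ {x : Fin 5 → ℤ | Unimod x ∧ mm x ≠ 0 ∧ UX x} from h1)]
    · rw [if_neg h1, if_neg (show x ∉ {x : Fin 5 → ℤ | Unimod x ∧ mm x ≠ 0 ∧ UX x} from h1)]
  rw [e1, Finset.sum_congr rfl e2, Finset.sum_comm]
  refine Finset.sum_congr rfl fun x hx => ?_
  by_cases h1 : Unimod x ∧ mm x ≠ 0 ∧ UX x
  · simp only [if_pos h1, tb]
    rw [← Finset.sum_mul, rho_sum (one_le_hw h1.2.1) J, one_mul]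
    rw [hX, Set.Finite.mem_toFinset] at hx
    have h2 := plane_size h hθ hx.1 hx.2
    have h3 := one_le_hw h1.2.1
    have h4 : (nz (mm x) / gg x) ^ 5 ≤ (2 ^ J) ^ 5 := by
      refine h2.trans ?_
      have e3 : 36 * ((1 + η) * B / (a' * a)) ^ 3 = 36 * ((1 + η) / (a' * a)) ^ 3 * B ^ 3 := by ring
      rw [e3, ← pow_mul, mul_comm J 5]
      refine le_trans ?_ hJ
      exact mul_le_mul_of_nonneg_right hc'.le (by positivity)
    exact (pow_le_pow_iff_left₀ (by linarith) (by positivity) (by norm_num)).1 h4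
  · simp only [if_neg h1]
    rw [Finset.sum_const_zero]

theorem BlkU_nonneg (W B : ℝ) : 0 ≤ BlkU ψ η θ W B := fs_nonneg fun _ _ => tb_nonneg _ _ _

theorem BlkU_le_Blk (h : Rd2 ψ η a b a' b') (hθ : ∀ x, θ x ∈ Set.Icc a b) {W B : ℝ} (hW : 0 < W)
    (hB : 0 < B) : BlkU ψ η θ W B ≤ Blk ψ η θ W B := by
  classical
  set X := (tb_fin h hθ hW hB).toFinset with hX
  rw [BlkU, Blk, fs_eq _ _ X (fun x hx hne => by
      rw [hX, Set.Finite.mem_toFinset]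
      exact ⟨hx.2.1, hne⟩), fs_eq _ _ X (fun x hx hne => by
      rw [hX, Set.Finite.mem_toFinset]
      exact ⟨hx.2, hne⟩)]
  refine Finset.sum_le_sum fun x _ => ?_
  by_cases h1 : x ∈ {x : Fin 5 → ℤ | Unimod x ∧ mm x ≠ 0 ∧ UX x}
  · rw [if_pos h1, if_pos (show x ∈ {x : Fin 5 → ℤ | Unimod x ∧ mm x ≠ 0} from ⟨h1.1, h1.2.1⟩)]
  · rw [if_neg h1]
    split_ifs
    · exact tb_nonneg _ _ _
    · exact le_rfl

/-- **the smooth asymptotics** -/
theorem smooth_lim (h : Rd2 ψ η a b a' b') (hΘ : Th θ Θ a b) (hθ : ∀ x, θ x ∈ Set.Icc a b)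
    {P : Finset ℕ} (hP : ∀ p ∈ P, p.Prime) (hadm : Adm P θ) :
    ∃ L : ℝ, 0 < L ∧ Tendsto (fun B => NS ψ η θ B / (B * Real.log B)) atTop (𝓝 L) := by
  obtain ⟨l, hl0, hl⟩ := blk_lim h hθ hP hadm
  obtain ⟨C1, hC1, h1⟩ := BlkU_up1 h hΘ hθ
  obtain ⟨C2, hC2, h2⟩ := blk_up2 h hθ 1 one_pos
  obtain ⟨c', hc'⟩ := NS_eq h hθ
  have hlog2 : 0 < Real.log 2 := Real.log_pos one_lt_two
  refine ⟨3 * l / (5 * Real.log 2), by positivity, ?_⟩
  -- the scales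
  have hsc : ∀ W B : ℝ, 0 < W → 0 < B → (W ^ 2 / B) ^ 3 * (B ^ 3 / W ^ 5) = W ∧
      (W ^ 2 / B) ^ 5 * (B ^ 3 / W ^ 5) ^ 2 = B := by
    intro W B hW hB
    constructor <;> field_simp
  have := dyad_sum (g := fun j B => BlkU ψ η θ (2 ^ j) B / B) (S := fun B => NS ψ η θ B / B) (l := l)
    (C := C1 + C2) (c' := c') hl0.le (by positivity) ?_ ?_ ?_
  · refine this.congr fun B => ?_
    rw [div_div]
  · intro B hB j
    have hB0 : 0 < B := by linarith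
    have hW1 : (1 : ℝ) ≤ 2 ^ j := one_le_pow₀ one_le_two
    refine ⟨div_nonneg (BlkU_nonneg _ _) hB0.le, ?_⟩
    rw [div_le_iff₀ hB0]
    by_cases hWB : ((2 : ℝ) ^ j) ^ 2 ≤ B
    · have := h1 _ B hW1 hWB
      nlinarith
    · push Not at hWB
      have hW0 : (0 : ℝ) < 2 ^ j := by positivity
      obtain ⟨e1, e2⟩ := hsc (2 ^ j) B hW0 hB0
      have h3 := h2 (B ^ 3 / (2 ^ j) ^ 5) ((2 ^ j) ^ 2 / B) (by positivity) (by
        rw [le_div_iff₀ hB0, one_mul]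
        exact hWB.le)
      rw [e1, e2] at h3
      have h4 := BlkU_le_Blk h hθ hW0 hB0
      nlinarith
  · intro B hB J hJ
    rw [hc' B hB J hJ, Finset.sum_div]
  · intro ε hε
    obtain ⟨K, hK, W₀, hW₀, hI⟩ := regI h hΘ hθ hl ε hε
    have hev1 := hl (K ^ 2)⁻¹ (ε / 2) (by positivity) (by positivity)
    have hev2 := non_UU h hθ (K ^ 2)⁻¹ (ε / 2) (by positivity) (by positivity)
    obtain ⟨T₀, hT₀⟩ := Filter.eventually_atTop.1 (hev1.and hev2)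
    obtain ⟨n0, hn0⟩ := pow_unbounded_of_one_lt W₀ one_lt_two
    obtain ⟨τ, hτ⟩ := pow_unbounded_of_one_lt T₀ one_lt_two
    refine ⟨n0, τ, fun B hB j hj hjB => ?_⟩
    have hB0 : 0 < B := by linarith
    have hW0 : (0 : ℝ) < 2 ^ j := by positivity
    have hWj : W₀ ≤ 2 ^ j := hn0.le.trans (pow_le_pow_right₀ one_le_two hj)
    by_cases hreg : K ^ 2 * (2 ^ j) ^ 2 ≤ B
    · exact hI _ B hWj hreg
    · push Not at hreg
      obtain ⟨e1, e2⟩ := hsc (2 ^ j) B hW0 hB0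
      have hT : T₀ ≤ B ^ 3 / (2 ^ j) ^ 5 := by
        rw [le_div_iff₀ (by positivity), ← pow_mul, mul_comm j 5]
        refine le_trans ?_ hjB
        rw [pow_add, mul_comm]
        exact mul_le_mul_of_nonneg_left hτ.le (by positivity)
      have ht : (K ^ 2)⁻¹ ≤ (2 ^ j) ^ 2 / B := by
        rw [inv_le_iff_one_le_mul₀ (by positivity), div_mul_eq_mul_div, le_div_iff₀ hB0, one_mul, mul_comm]
        exact hreg.le
      obtain ⟨g1, g2⟩ := hT₀ _ hT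
      have g3 := g1 _ ht
      have g4 := g2 _ ht
      rw [e1, e2] at g3 g4
      have g5 : |BlkU ψ η θ (2 ^ j) B / B - Blk ψ η θ (2 ^ j) B / B| ≤ ε / 2 := by
        rw [← sub_div, abs_div, abs_of_pos hB0, div_le_iff₀ hB0, abs_sub_comm]
        exact g4
      rw [abs_le] at g3 g5 ⊢
      constructor
      · linarith [g3.1, g5.1]
      · linarith [g3.2, g5.2]

end

end Pool.Agent.KS6_53.Y4
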