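import Pool.Agent.KS6_53.Y4.F1
import Pool.Agent.KS6_53.V5.Bl8

set_option autoImplicit false

namespace Pool.Agent.KS6_53.Y4

open Finset Filter Topology MeasureTheory Pool.Agent.KS6_53.V5

/-- the vectors of bounded height -/
def NX (ψ : (Fin 5 → ℝ) × (Fin 5 × Fin 5 → ℝ) → ℝ) (θ : (Fin 5 → ℤ) → ℝ) (B : ℝ) :
    Set (Fin 5 → ℤ) := {x | Unimod x ∧ mm x ≠ 0 ∧ UX x ∧ HH ψ θ x ≤ B}

section

variable {ψ : (Fin 5 → ℝ) × (Fin 5 × Fin 5 → ℝ) → ℝ} {η a b a' b' ξ : ℝ} {θ : (Fin 5 → ℤ) → ℝ}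
  {Θ : (Fin 5 → ℤ) → (Fin 5 × Fin 5 → ℤ) → ℝ}

theorem NX_fin (h : Rd2 ψ η a b a' b') (hθ : ∀ x, θ x ∈ Set.Icc a b) (B : ℝ) : (NX ψ θ B).Finite :=
  (HH_fin h hθ B).subset fun _ hx => ⟨hx.2.1, hx.2.2.2⟩

theorem NX_le (h : Rd2 ψ η a b a' b') (hθ : ∀ x, θ x ∈ Set.Icc a b) {B : ℝ} (hB : 0 < B) :
    ((NX ψ θ B).ncard : ℝ) ≤ NS ψ η θ B := by
  classical
  have hη := h.hη
  set X := (HH_fin h hθ ((1 + η) * B)).toFinset with hX
  have hXm : ∀ x : Fin 5 → ℤ, mm x ≠ 0 → tz1 η (HH ψ θ x / B) ≠ 0 → x ∈ X := by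
    intro x hm hne
    have := tz1_supp hη hne
    rw [div_lt_iff₀ hB] at this
    rw [hX, Set.Finite.mem_toFinset]
    exact ⟨hm, this.le⟩
  rw [NS, fs_eq _ _ X (fun x hx hne => hXm x hx.2.1 hne), Set.ncard_eq_toFinset_card _ (NX_fin h hθ B)]
  have h1 : (((NX_fin h hθ B).toFinset.card : ℕ) : ℝ) = ∑ x ∈ (NX_fin h hθ B).toFinset, (1 : ℝ) := by
    rw [Finset.sum_const, nsmul_eq_mul, mul_one]
  rw [h1]
  have hval : ∀ x ∈ NX ψ θ B, tz1 η (HH ψ θ x / B) = 1 := by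
    intro x hx
    refine tz1_one hη ?_
    rw [div_le_one hB]
    exact hx.2.2.2
  have hsub : (NX_fin h hθ B).toFinset ⊆ X := by
    intro x hx
    rw [Set.Finite.mem_toFinset] at hx
    refine hXm x hx.2.1 ?_
    rw [hval x hx]
    exact one_ne_zero
  refine le_trans ?_ (Finset.sum_le_sum_of_subset_of_nonneg hsub fun x _ _ => ?_)
  · refine Finset.sum_le_sum fun x hx => ?_
    rw [Set.Finite.mem_toFinset] at hx
    rw [if_pos (show x ∈ {x : Fin 5 → ℤ | Unimod x ∧ mm x ≠ 0 ∧ UX x} from ⟨hx.1, hx.2.1, hx.2.2.1⟩),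
      hval x hx]
  · split_ifs
    · exact tz1_nonneg _ _
    · exact le_rfl

theorem NX_ge (h : Rd2 ψ η a b a' b') (hθ : ∀ x, θ x ∈ Set.Icc a b) {B : ℝ} (hB : 0 < B) :
    NS ψ η θ (B / (1 + η)) ≤ (NX ψ θ B).ncard := by
  have hη := h.hη
  have h1 := fs_norm_le (s := {x : Fin 5 → ℤ | Unimod x ∧ mm x ≠ 0 ∧ UX x})
    (f := fun x => tz1 η (HH ψ θ x / (B / (1 + η)))) (M := 1) (t := NX ψ θ B)
    (fun x _ => by rw [abs_of_nonneg (tz1_nonneg _ _)]; exact tz1_le _ _) (NX_fin h hθ B)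
    (fun x hx hne => by
      have h2 := tz1_supp hη hne
      rw [div_lt_iff₀ (by positivity)] at h2
      refine ⟨hx.1, hx.2.1, hx.2.2, ?_⟩
      have : (1 + η) * (B / (1 + η)) = B := by field_simp
      rw [this] at h2
      exact h2.le) zero_le_one
  rw [one_mul] at h1
  exact (le_abs_self _).trans h1

theorem scale_lim {f : ℝ → ℝ} {L c : ℝ} (hc : 0 < c)
    (h : Tendsto (fun B => f B / (B * Real.log B)) atTop (𝓝 L)) :
    Tendsto (fun B => f (B * c) / (B * Real.log B)) atTop (𝓝 (L * c)) := by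
  have h1 : Tendsto (fun B : ℝ => B * c) atTop atTop := tendsto_id.atTop_mul_const hc
  have h2 := h.comp h1
  have h3 : Tendsto (fun B : ℝ => Real.log (B * c) / Real.log B) atTop (𝓝 1) := by
    have h4 : Tendsto (fun B : ℝ => 1 + Real.log c / Real.log B) atTop (𝓝 (1 + 0)) :=
      tendsto_const_nhds.add (tendsto_const_nhds.div_atTop Real.tendsto_log_atTop)
    rw [add_zero] at h4
    refine h4.congr' ?_
    filter_upwards [eventually_gt_atTop 1] with B hB
    have hl : 0 < Real.log B := Real.log_pos hB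
    rw [Real.log_mul (by positivity) hc.ne']
    field_simp
  have h5 := (h2.mul h3).mul_const c
  rw [mul_one] at h5
  refine h5.congr' ?_
  filter_upwards [eventually_gt_atTop 1, eventually_gt_atTop (1 / c)] with B hB hB2
  have hl : 0 < Real.log B := Real.log_pos hB
  have hB0 : 0 < B := by linarith
  have hBc : 1 < B * c := by rwa [div_lt_iff₀ hc] at hB2
  have hl2 : 0 < Real.log (B * c) := Real.log_pos hBc
  simp only [Function.comp]
  field_simp

/-- **the sharp asymptotics** -/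
theorem sharp (hfac : Fac2 ℝ ψ) (ha : 0 < a) (hab : a ≤ b) (ha' : 0 < a')
    (hψ : ∀ z ∈ Cone2 ℝ, a' ≤ ψ z ∧ ψ z ≤ b') (hΘ : Th θ Θ a b) (hθ : ∀ x, θ x ∈ Set.Icc a b)
    {P : Finset ℕ} (hP : ∀ p ∈ P, p.Prime) (hadm : Adm P θ) :
    ∃ L : ℝ, 0 < L ∧ Tendsto (fun B => ((NX ψ θ B).ncard : ℝ) / (B * Real.log B)) atTop (𝓝 L) := by
  have hrd : ∀ η : ℝ, 0 < η → Rd2 ψ η a b a' b' := fun η hη => ⟨hfac, hη, ha, hab, ha', hψ⟩
  choose! L hL0 hL using fun η (hη : 0 < η) => smooth_lim (hrd η hη) hΘ hθ hP hadm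
  set f : ℝ → ℝ := fun B => ((NX ψ θ B).ncard : ℝ) / (B * Real.log B) with hf
  have hup : ∀ η : ℝ, 0 < η → ∀ ε : ℝ, 0 < ε → ∀ᶠ B in atTop, f B ≤ L η + ε := by
    intro η hη ε hε
    filter_upwards [(hL η hη).eventually (gt_mem_nhds (show L η < L η + ε by linarith)),
      eventually_gt_atTop 1] with B h1 h2
    have hl : 0 < Real.log B := Real.log_pos h2
    have hB0 : 0 < B := by linarith
    refine le_trans ?_ h1.le
    exact div_le_div_of_nonneg_right (NX_le (hrd η hη) hθ hB0) (by positivity)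
  have hlow : ∀ η : ℝ, 0 < η → ∀ ε : ℝ, 0 < ε → ∀ᶠ B in atTop, L η / (1 + η) - ε ≤ f B := by
    intro η hη ε hε
    have h0 : 0 < 1 / (1 + η) := by positivity
    have h1 := scale_lim h0 (hL η hη)
    have h2 : L η * (1 / (1 + η)) = L η / (1 + η) := by ring
    rw [h2] at h1
    filter_upwards [h1.eventually (lt_mem_nhds (show L η / (1 + η) - ε < L η / (1 + η) by linarith)),
      eventually_gt_atTop 1] with B h3 h4
    have hl : 0 < Real.log B := Real.log_pos h4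
    have hB0 : 0 < B := by linarith
    refine h3.le.trans ?_
    refine div_le_div_of_nonneg_right ?_ (by positivity)
    have := NX_ge (hrd η hη) hθ hB0
    rwa [div_eq_mul_one_div] at this
  -- boundedness of the constants
  have hLb : ∀ η : ℝ, 0 < η → η ≤ 1 → L η ≤ 2 * L 1 := by
    intro η hη hη1
    refine le_of_forall_pos_le_add fun ε hε => ?_
    obtain ⟨B, h1, h2⟩ := ((hup 1 one_pos (ε / 4) (by positivity)).and
      (hlow η hη (ε / 4) (by positivity))).exists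
    have h3 : L η / (1 + η) ≤ L 1 + ε / 2 := by linarith
    rw [div_le_iff₀ (by positivity)] at h3
    have h4 := hL0 1 one_pos
    nlinarith
  have hL1 := hL0 1 one_pos
  obtain ⟨M, hM⟩ : ∃ M, Tendsto f atTop (𝓝 M) := by
    refine exists_limit fun ε hε => ?_
    set η : ℝ := min 1 (ε / (4 * L 1)) with hη
    have hη0 : 0 < η := by positivity
    have hη1 : η ≤ 1 := min_le_left _ _
    have hη2 : η ≤ ε / (4 * L 1) := min_le_right _ _
    refine ⟨L η, ?_⟩
    filter_upwards [hup η hη0 ε hε, hlow η hη0 (ε / 2) (by positivity)] with B h1 h2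
    have h3 : L η - ε / 2 ≤ L η / (1 + η) := by
      rw [le_div_iff₀ (by positivity)]
      have h4 := hLb η hη0 hη1
      have h5 := hL0 η hη0
      have h6 : L η * η ≤ ε / 2 := by
        rw [le_div_iff₀ (by positivity)] at hη2
        nlinarith
      nlinarith
    rw [abs_le]
    constructor <;> linarith
  refine ⟨M, ?_, hM⟩
  have h1 : L 1 / (1 + 1) - L 1 / 4 ≤ M := by
    refine ge_of_tendsto hM ?_
    exact hlow 1 one_pos (L 1 / 4) (by positivity)
  linarith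

end

end Pool.Agent.KS6_53.Y4
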