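import Pool.Agent.KS6_53.Y4.F2
import Pool.Agent.KS6_53.V5.Fa9

set_option autoImplicit false

namespace Pool.Agent.KS6_53.Y4

open Finset Filter Topology Pool.Agent.KS6_53.V5

local instance instFactPrimesY (p : Nat.Primes) : Fact (p : ℕ).Prime := ⟨p.2⟩

/-- the local factor of a vector -/
noncomputable def fy (p : Nat.Primes) (φ : (Fin 5 → ℚ_[p]) × (Fin 5 × Fin 5 → ℚ_[p]) → ℝ)
    (x : Fin 5 → ℤ) : ℝ := by
  classical
  exact if mm x = 0 then 1 else φ (pv p x, pv p (mm x))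

/-- the local factor of a vector in a plane -/
noncomputable def fw (p : Nat.Primes) (φ : (Fin 5 → ℚ_[p]) × (Fin 5 × Fin 5 → ℚ_[p]) → ℝ)
    (x : Fin 5 → ℤ) (w : Fin 5 × Fin 5 → ℤ) : ℝ := by
  classical
  exact if (pv p x, pv p w) ∈ Cone2 ℚ_[p] then φ (pv p x, pv p w) else 1

theorem pv_norm_one (p : Nat.Primes) {ι : Type*} [Fintype ι] {x : ι → ℤ} (hx : Unimod x) :
    ‖pv p x‖ = 1 := by
  refine le_antisymm (pv_norm_le p x) ?_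
  by_contra hc
  push Not at hc
  have h1 : ∀ i, ((p : ℕ) : ℤ) ∣ x i := by
    intro i
    have h2 := lt_of_le_of_lt (norm_le_pi_norm (pv p x) i) hc
    exact (Padic.norm_intCast_lt_one_iff (p := (p : ℕ)) (k := x i)).1 h2
  obtain ⟨a, ha⟩ := hx
  have h3 : ((p : ℕ) : ℤ) ∣ 1 := by
    rw [← ha]
    exact Finset.dvd_sum fun i _ => Dvd.dvd.mul_left (h1 i) _
  have := Int.natCast_dvd_natCast.1 (by simpa using h3 : ((p : ℕ) : ℤ) ∣ ((1 : ℕ) : ℤ))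
  exact p.2.one_lt.ne' (Nat.dvd_one.1 this)

theorem pv_in (p : Nat.Primes) {w : Fin 5 × Fin 5 → ℤ} {x : Fin 5 → ℤ} (h : In w x) :
    In (pv p w) (pv p x) := by
  intro i j k
  have := h i j k
  simp only [pv]
  exact_mod_cast this

theorem pv_cone2 (p : Nat.Primes) {w : Fin 5 × Fin 5 → ℤ} (hw : w ∈ VV) {x : Fin 5 → ℤ}
    (hx : Unimod x) (hin : In w x) : (pv p x, pv p w) ∈ Cone2 ℚ_[p] :=
  ⟨pv_ne (unimod_ne hx), pv_cone p hw, pv_in p hin⟩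

theorem exists_pow_small (p : Nat.Primes) {δ : ℝ} (hδ : 0 < δ) :
    ∃ m : ℕ, ((p : ℕ) : ℝ) ^ (-(m : ℤ)) < δ := by
  have hp1 : (1 : ℝ) < (p : ℕ) := by exact_mod_cast p.2.one_lt
  obtain ⟨m, hm⟩ := exists_pow_lt_of_lt_one hδ (inv_lt_one_of_one_lt₀ hp1)
  exact ⟨m, by rwa [zpow_neg, zpow_natCast, ← inv_pow]⟩

theorem pv_sub_le (p : Nat.Primes) {x x' : Fin 5 → ℤ} {m : ℕ}
    (hd : ∀ i, (((p : ℕ) ^ m : ℕ) : ℤ) ∣ x i - x' i) :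
    ‖pv p x - pv p x'‖ ≤ ((p : ℕ) : ℝ) ^ (-(m : ℤ)) := by
  have hp0 : (0 : ℝ) < (p : ℕ) := by exact_mod_cast p.2.pos
  rw [pi_norm_le_iff_of_nonneg (zpow_pos hp0 _).le]
  intro i
  have h1 : (pv p x - pv p x') i = (((x i - x' i : ℤ)) : ℚ_[p]) := by
    simp [pv]
  rw [h1, Padic.norm_int_le_pow_iff_dvd]
  exact_mod_cast hd i

theorem fy_adm {p : Nat.Primes} {φ : (Fin 5 → ℚ_[p]) × (Fin 5 × Fin 5 → ℚ_[p]) → ℝ}
    (h : Fac2 ℚ_[p] φ) (k : ℕ) {ε : ℝ} (hε : 0 < ε) :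
    ∃ Q : ℕ, 0 < Q ∧ ∀ x x' : Fin 5 → ℤ, (∀ i, (Q : ℤ) ∣ x i - x' i) →
      ¬ (p : ℕ) ^ k ∣ gg x → |fy p φ x - fy p φ x'| ≤ ε := by
  have hp0 : (0 : ℝ) < (p : ℕ) := by exact_mod_cast p.2.pos
  have hck : (0 : ℝ) < ((p : ℕ) : ℝ) ^ (-(k : ℤ)) := zpow_pos hp0 _
  obtain ⟨δ, hδ, hu⟩ := h.unif hck hε
  obtain ⟨m, hm⟩ := exists_pow_small p hδ
  refine ⟨(p : ℕ) ^ (m + k), pow_pos p.2.pos _, fun x x' hd hk => ?_⟩
  have key : ∀ y : Fin 5 → ℤ, ¬ (p : ℕ) ^ k ∣ gg y → mm y ≠ 0 ∧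
      ((p : ℕ) : ℝ) ^ (-(k : ℤ)) ≤ ‖mm (pv p y)‖ := by
    intro y hy
    have hex : ∃ q, ¬ (((p : ℕ) ^ k : ℕ) : ℤ) ∣ mm y q := by
      by_contra hc
      push Not at hc
      exact hy (dvd_gg hc)
    obtain ⟨q, hq⟩ := hex
    constructor
    · intro h0
      apply hq
      rw [h0]
      exact dvd_zero _
    · rw [← pv_mm]
      refine le_trans ?_ (norm_le_pi_norm _ q)
      by_contra hc
      apply hq
      have := (Padic.norm_int_le_pow_iff_dvd (p := (p : ℕ)) (mm y q) k).1 (not_le.1 hc).le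
      exact_mod_cast this
  have hk' : ¬ (p : ℕ) ^ k ∣ gg x' := by
    intro hc
    apply hk
    refine dvd_gg fun q => ?_
    have h1 : (((p : ℕ) ^ k : ℕ) : ℤ) ∣ mm x' q := (Int.natCast_dvd_natCast.2 hc).trans (gg_dvd x' q)
    have h2 : (((p : ℕ) ^ k : ℕ) : ℤ) ∣ mm x q - mm x' q :=
      (Int.natCast_dvd_natCast.2 (pow_dvd_pow _ (Nat.le_add_left k m))).trans (mm_congr hd q)
    have := dvd_add h1 h2
    simpa using this
  obtain ⟨n1, c1⟩ := key x hk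
  obtain ⟨n2, c2⟩ := key x' hk'
  rw [fy, fy, if_neg n1, if_neg n2, pv_mm, pv_mm]
  refine hu _ _ (pv_norm_le p x) (pv_norm_le p x') c1 c2 ?_
  refine lt_of_le_of_lt (pv_sub_le p fun i => ?_) hm
  exact (Int.natCast_dvd_natCast.2 (pow_dvd_pow _ (Nat.le_add_right m k))).trans (hd i)

/-- uniform continuity in a plane -/
theorem fw_cong {p : Nat.Primes} {φ : (Fin 5 → ℚ_[p]) × (Fin 5 × Fin 5 → ℚ_[p]) → ℝ}
    (h : Fac2 ℚ_[p] φ) {ε : ℝ} (hε : 0 < ε) :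
    ∃ Q : ℕ, 0 < Q ∧ ∀ w ∈ VV, ∀ x x' : Fin 5 → ℤ, Unimod x → Unimod x' → In w x → In w x' →
      (∀ i, (Q : ℤ) ∣ x i - x' i) → |fw p φ x w - fw p φ x' w| ≤ ε := by
  obtain ⟨δ, hδ, hu⟩ := h.unif2 hε
  obtain ⟨m, hm⟩ := exists_pow_small p hδ
  refine ⟨(p : ℕ) ^ m, pow_pos p.2.pos _, fun w hw x x' hx hx' hin hin' hd => ?_⟩
  obtain ⟨hne, u, v, huv, hwuv⟩ := pv_cone p hw
  rw [hwuv] at hne
  obtain ⟨pq, b, hpq, hb, hbn, hbe⟩ := norm_basis huv hne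
  have hval : ∀ y : Fin 5 → ℤ, Unimod y → In w y → (pv p y, wedge pq.1 pq.2) ∈ N2 ℚ_[p] ∧
      fw p φ y w = φ (pv p y, wedge pq.1 pq.2) := by
    intro y hy hiny
    have h4 : wedge pq.1 pq.2 = b⁻¹ • pv p w := by
      rw [hwuv, hbe, smul_smul, inv_mul_cancel₀ hb, one_smul]
    have h5 : In (wedge pq.1 pq.2) (pv p y) := by
      rw [h4]
      have := in_smul_both b⁻¹ 1 (pv_in p hiny)
      rwa [one_smul] at this
    have h6 : (pv p y, wedge pq.1 pq.2) ∈ N2 ℚ_[p] := ⟨pv_norm_one p hy, ⟨pq, hpq, rfl⟩, h5⟩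
    refine ⟨h6, ?_⟩
    rw [fw, if_pos (pv_cone2 p hw hy hiny)]
    have h7 := h.inv 1 b one_ne_zero hb _ (N2_cone h6)
    simp only [one_smul] at h7
    rw [← h7, ← hbe, ← hwuv]
  obtain ⟨n1, e1⟩ := hval x hx hin
  obtain ⟨n2, e2⟩ := hval x' hx' hin'
  rw [e1, e2]
  refine hu _ n1 _ n2 ?_
  rw [Prod.dist_eq, dist_self]
  refine max_lt ?_ hδ
  simp only
  rw [dist_eq_norm]
  exact lt_of_le_of_lt (pv_sub_le p hd) hm

theorem fy_bounds {p : Nat.Primes} {φ : (Fin 5 → ℚ_[p]) × (Fin 5 × Fin 5 → ℚ_[p]) → ℝ}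
    (h : Fac2 ℚ_[p] φ) : ∃ a b : ℝ, 0 < a ∧ a ≤ 1 ∧ 1 ≤ b ∧ (∀ x, fy p φ x ∈ Set.Icc a b) ∧
      ∀ x w, fw p φ x w ∈ Set.Icc a b := by
  obtain ⟨a, b, ha, hab⟩ := h.bounds
  refine ⟨min a 1, max b 1, by positivity, min_le_right _ _, le_max_right _ _, fun x => ?_,
    fun x w => ?_⟩
  · rw [fy]
    split_ifs with h0
    · exact ⟨min_le_right _ _, le_max_right _ _⟩
    · have hc : (pv p x, pv p (mm x)) ∈ Cone2 ℚ_[p] := by
        rw [pv_mm]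
        exact mm_cone2 (by rw [← pv_mm]; exact pv_ne h0)
      obtain ⟨h1, h2⟩ := hab _ hc
      exact ⟨(min_le_left _ _).trans h1, h2.trans (le_max_left _ _)⟩
  · rw [fw]
    split_ifs with h0
    · obtain ⟨h1, h2⟩ := hab _ h0
      exact ⟨(min_le_left _ _).trans h1, h2.trans (le_max_left _ _)⟩
    · exact ⟨min_le_right _ _, le_max_right _ _⟩

end Pool.Agent.KS6_53.Y4
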