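import Pool.Agent.KS6_53.Y4.G1

set_option autoImplicit false

namespace Pool.Agent.KS6_53.Y4

open Finset Filter Topology Pool.Agent.KS6_53.V5

local instance instFactPrimesY2 (p : Nat.Primes) : Fact (p : ℕ).Prime := ⟨p.2⟩

/-- products of uniformly continuous functions -/
theorem prod_cong {X : Type*} {S : Finset Nat.Primes} (g : Nat.Primes → X → ℝ) (B : Nat.Primes → ℝ)
    (hB : ∀ p, 0 < B p) (hg : ∀ p ∈ S, ∀ x, 0 ≤ g p x ∧ g p x ≤ B p)
    (R : ℕ → X → X → Prop) (hR : ∀ Q Q' x x', Q ∣ Q' → R Q' x x' → R Q x x')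
    (G : Nat.Primes → X → Prop)
    (h : ∀ p ∈ S, ∀ ε : ℝ, 0 < ε → ∃ Q : ℕ, 0 < Q ∧ ∀ x x', R Q x x' → G p x → |g p x - g p x'| ≤ ε) :
    ∀ ε : ℝ, 0 < ε → ∃ Q : ℕ, 0 < Q ∧ ∀ x x', R Q x x' → (∀ p ∈ S, G p x) →
      |∏ p ∈ S, g p x - ∏ p ∈ S, g p x'| ≤ ε := by
  classical
  induction S using Finset.induction_on with
  | empty =>
    intro ε hε
    exact ⟨1, one_pos, fun x x' _ _ => by simpa using hε.le⟩
  | insert p S' hp ih =>
    intro ε hε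
    have hM : ∀ x, |∏ q ∈ S', g q x| ≤ ∏ q ∈ S', B q := by
      intro x
      rw [Finset.abs_prod]
      refine Finset.prod_le_prod (fun q _ => abs_nonneg _) fun q hq => ?_
      have := hg q (Finset.mem_insert_of_mem hq) x
      rw [abs_of_nonneg this.1]
      exact this.2
    have hMp : 0 < ∏ q ∈ S', B q := Finset.prod_pos fun q _ => hB q
    set M := ∏ q ∈ S', B q with hMdef
    have hBp : 0 < B p := hB p
    obtain ⟨Q1, hQ1, h1⟩ := h p (Finset.mem_insert_self _ _) (ε / (2 * M)) (by positivity)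
    obtain ⟨Q2, hQ2, h2⟩ := ih (fun q hq => hg q (Finset.mem_insert_of_mem hq))
      (fun q hq => h q (Finset.mem_insert_of_mem hq)) (ε / (2 * B p)) (by positivity)
    refine ⟨Q1 * Q2, Nat.mul_pos hQ1 hQ2, fun x x' hd hk => ?_⟩
    have d1 := h1 x x' (hR _ _ _ _ (Nat.dvd_mul_right Q1 Q2) hd) (hk p (Finset.mem_insert_self _ _))
    have d2 := h2 x x' (hR _ _ _ _ (Nat.dvd_mul_left Q2 Q1) hd)
      (fun q hq => hk q (Finset.mem_insert_of_mem hq))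
    rw [Finset.prod_insert hp, Finset.prod_insert hp]
    have e : g p x * ∏ q ∈ S', g q x - g p x' * ∏ q ∈ S', g q x' =
        (g p x - g p x') * ∏ q ∈ S', g q x + g p x' * (∏ q ∈ S', g q x - ∏ q ∈ S', g q x') := by ring
    rw [e]
    refine (abs_add_le _ _).trans ?_
    rw [abs_mul, abs_mul]
    have f1 : |g p x - g p x'| * |∏ q ∈ S', g q x| ≤ ε / (2 * M) * M :=
      mul_le_mul d1 (hM x) (abs_nonneg _) (by positivity)
    have f2 : |g p x'| ≤ B p := by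
      have := hg p (Finset.mem_insert_self _ _) x'
      rw [abs_of_nonneg this.1]
      exact this.2
    have f3 : |g p x'| * |∏ q ∈ S', g q x - ∏ q ∈ S', g q x'| ≤ B p * (ε / (2 * B p)) :=
      mul_le_mul f2 d2 (abs_nonneg _) hBp.le
    have f4 : ε / (2 * M) * M = ε / 2 := by
      field_simp
    have f5 : B p * (ε / (2 * B p)) = ε / 2 := by
      field_simp
    linarith

/-- the finite part -/
theorem finite_part2 (S : Finset Nat.Primes)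
    (φ : ∀ p : Nat.Primes, (Fin 5 → ℚ_[p]) × (Fin 5 × Fin 5 → ℚ_[p]) → ℝ)
    (hφ : ∀ p ∈ S, Fac2 ℚ_[p] (φ p)) :
    ∃ (a b : ℝ) (θ : (Fin 5 → ℤ) → ℝ) (Θ : (Fin 5 → ℤ) → (Fin 5 × Fin 5 → ℤ) → ℝ), 0 < a ∧ a ≤ b ∧
      (∀ x, θ x ∈ Set.Icc a b) ∧ Th θ Θ a b ∧
      (∀ w ∈ VV, ∀ x, Unimod x → In w x → Θ x w = ∏ p ∈ S, φ p (pv p x, pv p w)) ∧
      Adm (S.image fun p : Nat.Primes => (p : ℕ)) θ := by
  classical
  have hbd : ∀ p : Nat.Primes, ∃ a b : ℝ, 0 < a ∧ a ≤ 1 ∧ 1 ≤ b ∧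
      (p ∈ S → (∀ x, fy p (φ p) x ∈ Set.Icc a b) ∧ ∀ x w, fw p (φ p) x w ∈ Set.Icc a b) := by
    intro p
    by_cases hp : p ∈ S
    · obtain ⟨a, b, h1, h2, h3, h4, h5⟩ := fy_bounds (hφ p hp)
      exact ⟨a, b, h1, h2, h3, fun _ => ⟨h4, h5⟩⟩
    · exact ⟨1, 1, one_pos, le_rfl, le_rfl, fun h => absurd h hp⟩
  choose A B hA hA1 hB1 hAB using hbd
  have hBp : ∀ p, 0 < B p := fun p => by linarith [hB1 p]
  refine ⟨∏ p ∈ S, A p, ∏ p ∈ S, B p, fun x => ∏ p ∈ S, fy p (φ p) x,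
    fun x w => ∏ p ∈ S, fw p (φ p) x w, Finset.prod_pos fun p _ => hA p,
    Finset.prod_le_prod (fun p _ => (hA p).le) fun p _ => (hA1 p).trans (hB1 p),
    fun x => ⟨?_, ?_⟩, ⟨fun x w => ⟨?_, ?_⟩, ?_, ?_⟩, ?_, ?_⟩
  · exact Finset.prod_le_prod (fun p _ => (hA p).le) fun p hp => ((hAB p hp).1 x).1
  · exact Finset.prod_le_prod (fun p hp => (hA p).le.trans ((hAB p hp).1 x).1)
      fun p hp => ((hAB p hp).1 x).2
  · exact Finset.prod_le_prod (fun p _ => (hA p).le) fun p hp => ((hAB p hp).2 x w).1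
  · exact Finset.prod_le_prod (fun p hp => (hA p).le.trans ((hAB p hp).2 x w).1)
      fun p hp => ((hAB p hp).2 x w).2
  · intro w hw x hx hin hm
    refine Finset.prod_congr rfl fun p hp => ?_
    rw [fy, if_neg hm, fw, if_pos (pv_cone2 p hw hx hin)]
    obtain ⟨c, hc, -⟩ := mm_of_in hw hin
    have hc0 : c ≠ 0 := by
      rintro rfl
      apply hm
      rw [hc, zero_smul]
    rw [hc, pv_smul]
    have := (hφ p hp).inv 1 (c : ℚ_[p]) one_ne_zero (by exact_mod_cast hc0) _ (pv_cone2 p hw hx hin)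
    simp only [one_smul] at this
    exact this
  · intro ε hε
    obtain ⟨Q, hQ, h⟩ := prod_cong (X := {z : (Fin 5 → ℤ) × (Fin 5 × Fin 5 → ℤ) // z.2 ∈ VV ∧ Unimod z.1 ∧ In z.2 z.1}) (S := S)
      (fun p z => fw p (φ p) z.1.1 z.1.2) B hBp
      (fun p hp z => ⟨(hA p).le.trans ((hAB p hp).2 _ _).1, ((hAB p hp).2 _ _).2⟩)
      (fun Q z z' => z.1.2 = z'.1.2 ∧ ∀ i, (Q : ℤ) ∣ z.1.1 i - z'.1.1 i)
      (fun Q Q' z z' hQ hz => ⟨hz.1, fun i => (Int.natCast_dvd_natCast.2 hQ).trans (hz.2 i)⟩)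
      (fun _ _ => True)
      (fun p hp ε hε => by
        obtain ⟨Q, hQ, h⟩ := fw_cong (hφ p hp) hε
        refine ⟨Q, hQ, fun z z' hz _ => ?_⟩
        have h1 := h z.1.2 z.2.1 z.1.1 z'.1.1 z.2.2.1 z'.2.2.1 z.2.2.2 (by rw [hz.1]; exact z'.2.2.2) hz.2
        rw [← hz.1]
        exact h1) ε hε
    refine ⟨Q, hQ, fun w hw x x' hx hx' hin hin' hd => ?_⟩
    exact h ⟨(x, w), hw, hx, hin⟩ ⟨(x', w), hw, hx', hin'⟩ ⟨rfl, hd⟩ fun _ _ => trivial
  · intro w hw x hx hin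
    refine Finset.prod_congr rfl fun p _ => ?_
    rw [fw, if_pos (pv_cone2 p hw hx hin)]
  · intro k ε hε
    obtain ⟨Q, hQ, h⟩ := prod_cong (X := Fin 5 → ℤ) (S := S)
      (fun p x => fy p (φ p) x) B hBp
      (fun p hp z => ⟨(hA p).le.trans ((hAB p hp).1 _).1, ((hAB p hp).1 _).2⟩)
      (fun Q z z' => ∀ i, (Q : ℤ) ∣ z i - z' i)
      (fun Q Q' z z' hQ hz i => (Int.natCast_dvd_natCast.2 hQ).trans (hz i))
      (fun p x => ¬ (p : ℕ) ^ k ∣ gg x)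
      (fun p hp ε hε => by
        obtain ⟨Q, hQ, h⟩ := fy_adm (hφ p hp) k hε
        exact ⟨Q, hQ, fun z z' hz hg => h z z' hz hg⟩) ε hε
    refine ⟨Q, hQ, fun x x' _ _ hd hk => h x x' hd fun p hp => ?_⟩
    exact hk p (Finset.mem_image_of_mem _ hp)

end Pool.Agent.KS6_53.Y4
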