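import Pool.Agent.KS6_53.Y4.G2
import Pool.Agent.KS6_53.V5.Fin

set_option autoImplicit false

namespace Pool.Agent.KS6_53.Y4

open Finset Filter Topology Pool.Agent.KS6_53.V5

local instance instFactPrimesY3 (p : Nat.Primes) : Fact (p : ℕ).Prime := ⟨p.2⟩

/-- the pairs of points of the two projective spaces -/
abbrev PY := Projectivization ℚ (Fin 5 → ℚ) × Projectivization ℚ (Fin 5 × Fin 5 → ℚ)

def PtY (z : PY) : Prop := ∃ y : Fin 5 → ℚ, Iso z.1.rep y ∧ z.2.rep = wedge z.1.rep y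

/-- the primitive vector of a point -/
def RI {ι : Type*} (x : ι → ℤ) (p : Projectivization ℚ (ι → ℚ)) : Prop :=
  ∃ c : ℚ, c ≠ 0 ∧ p.rep = c • cw x

section

variable {ι : Type*}

theorem RI_unique {x : ι → ℤ} {p p' : Projectivization ℚ (ι → ℚ)} (h : RI x p) (h' : RI x p') : p = p' := by
  obtain ⟨c, hc, he⟩ := h
  obtain ⟨c', hc', he'⟩ := h'
  rw [← p.mk_rep, ← p'.mk_rep, Projectivization.mk_eq_mk_iff']
  refine ⟨c / c', ?_⟩
  rw [he, he', smul_smul, div_mul_cancel₀ _ hc']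

theorem RI_sign [Fintype ι] {x x' : ι → ℤ} (hx : Unimod x) (hx' : Unimod x')
    {p : Projectivization ℚ (ι → ℚ)} (h : RI x p) (h' : RI x' p) : x' = x ∨ x' = -x := by
  obtain ⟨c, hc, he⟩ := h
  obtain ⟨c', hc', he'⟩ := h'
  refine prim_parallel' hx hx' ?_
  intro i j
  have h1 : ∀ q, c * (x q : ℚ) = c' * (x' q : ℚ) := by
    intro q
    have := congrFun (he.symm.trans he') q
    simpa [cw] using this
  have h2 : (c * c') * ((x i : ℚ) * x' j - x j * x' i) = 0 := by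
    linear_combination (c' * x' j) * h1 i - (c' * x' i) * h1 j
  have h3 := sub_eq_zero.1 ((mul_eq_zero.1 h2).resolve_left (mul_ne_zero hc hc'))
  exact_mod_cast h3

theorem RI_neg {x : ι → ℤ} {p : Projectivization ℚ (ι → ℚ)} (h : RI x p) : RI (-x) p := by
  obtain ⟨c, hc, he⟩ := h
  refine ⟨-c, neg_ne_zero.2 hc, ?_⟩
  rw [he]
  funext q
  simp [cw]

theorem RI_exists [Fintype ι] (p : Projectivization ℚ (ι → ℚ)) : ∃ x : ι → ℤ, Unimod x ∧ RI x p := by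
  obtain ⟨c, w, hc, hw, hcw⟩ := exists_cw p.rep_nonzero
  exact ⟨w, hw, c, hc, hcw⟩

theorem RI_point [Fintype ι] {x : ι → ℤ} (hx : Unimod x) : ∃ p : Projectivization ℚ (ι → ℚ), RI x p := by
  have h0 : cw x ≠ 0 := by
    intro h
    rw [← cw_zero] at h
    exact unimod_ne hx (cw_inj h)
  obtain ⟨a, ha⟩ := Projectivization.exists_smul_eq_mk_rep ℚ (cw x) h0
  exact ⟨Projectivization.mk ℚ (cw x) h0, a, a.ne_zero, ha.symm⟩

theorem RI_height [Fintype ι] [Nonempty ι] {x : ι → ℤ} (hx : Unimod x) {p : Projectivization ℚ (ι → ℚ)}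
    (h : RI x p) : p.mulHeight = nz x := by
  obtain ⟨c, hc, he⟩ := h
  have h1 : p.mulHeight = Height.mulHeight (cw x) := by
    have e : p.mulHeight = Height.mulHeight p.rep := by
      conv_lhs => rw [← p.mk_rep]
      exact Projectivization.mulHeight_mk _
    rw [e, he, Height.mulHeight_smul_eq_mulHeight _ hc]
  rw [h1]
  have h2 := Rat.mulHeight_eq_max_abs_of_gcd_eq_one (gcd_unimod hx)
  have h3 : (cw x) = (((↑) : ℤ → ℚ) ∘ x) := rfl
  rw [h3, h2]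
  apply le_antisymm
  · obtain ⟨i, hi⟩ := exists_eq_ciSup_of_finite (f := fun i => |x i|)
    rw [← hi, Int.cast_abs]
    exact le_nz x i
  · obtain ⟨i, hi⟩ := exists_nz x
    rw [hi, ← Int.cast_abs]
    exact_mod_cast le_ciSup (f := fun i => |x i|) (Set.finite_range _).bddAbove i

end

/-- the height of a point -/
noncomputable def htY (S : Finset Nat.Primes) (ψ : (Fin 5 → ℝ) × (Fin 5 × Fin 5 → ℝ) → ℝ)
    (φ : ∀ p : Nat.Primes, (Fin 5 → ℚ_[p]) × (Fin 5 × Fin 5 → ℚ_[p]) → ℝ) (z : PY) : ℝ :=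
  z.1.mulHeight ^ 2 * z.2.mulHeight * (ψ (fun i => (z.1.rep i : ℝ), fun q => (z.2.rep q : ℝ)) *
    ∏ r ∈ S, φ r (fun i => (z.1.rep i : ℚ_[r]), fun q => (z.2.rep q : ℚ_[r])))

def bddY (S : Finset Nat.Primes) (ψ : (Fin 5 → ℝ) × (Fin 5 × Fin 5 → ℝ) → ℝ)
    (φ : ∀ p : Nat.Primes, (Fin 5 → ℚ_[p]) × (Fin 5 × Fin 5 → ℚ_[p]) → ℝ) (B : ℝ) : Set PY :=
  {z | (PtY z ∧ ¬ OnL z.2) ∧ htY S ψ φ z ≤ B}

/-- a point and its primitive vectors -/
theorem PtY_iff {z : PY} {x : Fin 5 → ℤ} (hx : Unimod x) (hxz : RI x z.1) :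
    PtY z ↔ ∃ w ∈ VV, RI w z.2 ∧ In w x := by
  obtain ⟨c, hc, he⟩ := hxz
  constructor
  · rintro ⟨y, hi, hy⟩
    obtain ⟨w, hw, hwr⟩ := R1 (p := z.2) ⟨_, y, hi, hy⟩
    refine ⟨w, hw, hwr, ?_⟩
    obtain ⟨d, hd, hed⟩ := hwr
    rw [← in_cw]
    refine in_smul' hd hc ?_
    rw [← hed, ← he, hy]
    exact wedge_in_left _ _
  · rintro ⟨w, hw, ⟨d, hd, hed⟩, hin⟩
    obtain ⟨y, hi, hwy⟩ := VV_basis hw hx hin
    refine ⟨(d / c) • cw y, ?_, ?_⟩
    · rw [he]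
      exact iso_smul_left _ (iso_comm (iso_smul_left _ (iso_comm (iso_cw.2 hi))))
    · rw [hed, he, hwy, cw_wedge, wedge_smul]
      congr 1
      field_simp

section

variable {ψ : (Fin 5 → ℝ) × (Fin 5 × Fin 5 → ℝ) → ℝ} {a b : ℝ} {θ : (Fin 5 → ℤ) → ℝ}
  {Θ : (Fin 5 → ℤ) → (Fin 5 × Fin 5 → ℤ) → ℝ}

theorem HH_plane (h : Fac2 ℝ ψ) (hΘ : Th θ Θ a b) {w : Fin 5 × Fin 5 → ℤ}
    (hw : w ∈ VV) {x : Fin 5 → ℤ} (hx : Unimod x) (hin : In w x) (hm : mm x ≠ 0) :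
    HH ψ θ x = nz x ^ 2 * nz w * (ψ (rv x, rv w) * Θ x w) := by
  have hg := gg_pos hm
  have hg0 : (0 : ℝ) < gg x := by exact_mod_cast hg
  obtain ⟨c, hc, hgc⟩ := mm_of_in hw hin
  have hc0 : c ≠ 0 := by
    rintro rfl
    rw [hgc] at hg
    simp at hg
  have e1 : nz (mm x) / gg x = nz w := by
    rw [nz_mm hw hin]
    field_simp
  have e2 : ψ (rv x, rv (mm x)) = ψ (rv x, rv w) := by
    have := h.inv 1 (c : ℝ) one_ne_zero (by exact_mod_cast hc0) _ (in_cone2 hw hx hin)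
    simp only [one_smul] at this
    rw [← this, hc, rv_smul]
  rw [HH, e1, e2, hΘ.eq w hw x hx hin hm]
  ring

end

theorem htY_eq (S : Finset Nat.Primes) {ψ : (Fin 5 → ℝ) × (Fin 5 × Fin 5 → ℝ) → ℝ}
    {φ : ∀ p : Nat.Primes, (Fin 5 → ℚ_[p]) × (Fin 5 × Fin 5 → ℚ_[p]) → ℝ}
    (hψ : Fac2 ℝ ψ) (hφ : ∀ p ∈ S, Fac2 ℚ_[p] (φ p)) {z : PY} {x : Fin 5 → ℤ}
    {w : Fin 5 × Fin 5 → ℤ} (hx : Unimod x) (hxz : RI x z.1) (hw : w ∈ VV) (hwz : RI w z.2)
    (hin : In w x) : htY S ψ φ z =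
      nz x ^ 2 * nz w * (ψ (rv x, rv w) * ∏ p ∈ S, φ p (pv p x, pv p w)) := by
  rw [htY, RI_height hx hxz, RI_height hw.1 hwz]
  obtain ⟨c, hc, he⟩ := hxz
  obtain ⟨d, hd, hed⟩ := hwz
  congr 1
  congr 1
  · have h1 : (fun q => ((z.1.rep q : ℚ) : ℝ)) = (c : ℝ) • rv x := by
      funext q
      rw [he]
      simp [cw, rv]
    have h2 : (fun q => ((z.2.rep q : ℚ) : ℝ)) = (d : ℝ) • rv w := by
      funext q
      rw [hed]
      simp [cw, rv]
    rw [h1, h2]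
    exact hψ.inv _ _ (by exact_mod_cast hc) (by exact_mod_cast hd) _ (in_cone2 hw hx hin)
  · refine Finset.prod_congr rfl fun r hr => ?_
    have h1 : (fun q => ((z.1.rep q : ℚ) : ℚ_[r])) = (c : ℚ_[r]) • pv r x := by
      funext q
      rw [he]
      simp [cw, pv]
    have h2 : (fun q => ((z.2.rep q : ℚ) : ℚ_[r])) = (d : ℚ_[r]) • pv r w := by
      funext q
      rw [hed]
      simp [cw, pv]
    rw [h1, h2]
    exact (hφ r hr).inv _ _ (by exact_mod_cast hc) (by exact_mod_cast hd) _ (pv_cone2 r hw hx hin)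

theorem main (S : Finset Nat.Primes) (ψ : (Fin 5 → ℝ) × (Fin 5 × Fin 5 → ℝ) → ℝ)
    (φ : ∀ p : Nat.Primes, (Fin 5 → ℚ_[p]) × (Fin 5 × Fin 5 → ℚ_[p]) → ℝ) (hψ : Fac2 ℝ ψ)
    (hφ : ∀ p ∈ S, Fac2 ℚ_[p] (φ p)) :
    ∃ c : ℝ, 0 < c ∧ Tendsto (fun B : ℝ => ((bddY S ψ φ B).ncard : ℝ) / (B * Real.log B)) atTop (𝓝 c) := by
  classical
  obtain ⟨a, b, θ, Θ, ha, hab, hθI, hΘ, hΘe, hadm⟩ := finite_part2 S φ hφ
  obtain ⟨a', b', ha', hψb⟩ := hψ.bounds
  obtain ⟨L, hL, hlim⟩ := sharp (b' := b') hψ ha hab ha' hψb hΘ hθI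
    (P := S.image fun p : Nat.Primes => (p : ℕ)) (by
      intro p hp
      obtain ⟨q, -, rfl⟩ := Finset.mem_image.1 hp
      exact q.2) hadm
  have hrd : Rd2 ψ 1 a b a' b' := ⟨hψ, one_pos, ha, hab, ha', hψb⟩
  have hht : ∀ {z : PY} {x : Fin 5 → ℤ} {w : Fin 5 × Fin 5 → ℤ}, Unimod x → RI x z.1 → w ∈ VV →
      RI w z.2 → In w x → mm x ≠ 0 → htY S ψ φ z = HH ψ θ x := by
    intro z x w hx hxz hw hwz hin hm
    rw [htY_eq S hψ hφ hx hxz hw hwz hin, HH_plane hψ hΘ hw hx hin hm, hΘe w hw x hx hin]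
  -- two vectors for every point
  have hcard : ∀ B : ℝ, (NX ψ θ B).ncard = 2 * (bddY S ψ φ B).ncard := by
    intro B
    have hfin : (NX ψ θ B).Finite := NX_fin hrd hθI B
    choose g hgU hgR using fun z : PY => RI_exists z.1
    -- the vector of a point of the set
    have hgN : ∀ z ∈ bddY S ψ φ B, ∀ x : Fin 5 → ℤ, Unimod x → RI x z.1 →
        x ∈ NX ψ θ B := by
      rintro z ⟨⟨h1, h2⟩, h3⟩ x hx hxz
      obtain ⟨w, hw, hwz, hin⟩ := (PtY_iff hx hxz).1 h1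
      have hU : UU w := by
        by_contra hc
        exact h2 ((R5 hw hwz).2 hc)
      have hm := hU x hx hin
      refine ⟨hx, hm, UX_of hw hU hin hm, ?_⟩
      rwa [← hht hx hxz hw hwz hin hm]
    -- the point of a vector
    have hNg : ∀ x ∈ NX ψ θ B, ∃ z ∈ bddY S ψ φ B, RI x z.1 := by
      rintro x ⟨hx, hm, hUX, hH⟩
      obtain ⟨w, hw, -, hin⟩ := exists_plane hx hm
      have hU := hUX w hw hin
      obtain ⟨p, hp⟩ := RI_point hx
      obtain ⟨q, hq⟩ := RI_point hw.1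
      refine ⟨(p, q), ⟨⟨(PtY_iff (z := (p, q)) hx hp).2 ⟨w, hw, hq, hin⟩, fun hc => (R5 hw hq).1 hc hU⟩, ?_⟩, hp⟩
      rwa [hht (z := (p, q)) hx hp hw hq hin hm]
    have hinj : Set.InjOn g (bddY S ψ φ B) := by
      intro z hz z' hz' he
      have h1 : z.1 = z'.1 := RI_unique (hgR z) (he ▸ hgR z')
      obtain ⟨w, hw, hwz, hin⟩ := (PtY_iff (hgU z) (hgR z)).1 hz.1.1
      obtain ⟨w', hw', hwz', hin'⟩ := (PtY_iff (hgU z') (hgR z')).1 hz'.1.1
      have hm := (hgN z hz _ (hgU z) (hgR z)).2.1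
      rw [← he] at hin'
      have h2 : z.2 = z'.2 := by
        rcases planes_of hw hw' hin hin' hm with h | h
        · rw [h] at hwz'
          exact RI_unique hwz hwz'
        · rw [h] at hwz'
          exact RI_unique (RI_neg hwz) hwz'
      exact Prod.ext h1 h2
    have hinj2 : Set.InjOn (fun z => -g z) (bddY S ψ φ B) := fun z hz z' hz' he =>
      hinj hz hz' (neg_injective he)
    have hnegU : ∀ z, Unimod (-g z) := by
      intro z
      obtain ⟨e, he⟩ := hgU z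
      refine ⟨-e, ?_⟩
      rw [← he]
      refine Finset.sum_congr rfl fun i _ => ?_
      simp
    have hU : NX ψ θ B = g '' bddY S ψ φ B ∪ (fun z => -g z) '' bddY S ψ φ B := by
      ext x
      constructor
      · intro hx
        obtain ⟨z, hz, hxz⟩ := hNg x hx
        rcases RI_sign (hgU z) hx.1 (hgR z) hxz with h | h
        · exact Or.inl ⟨z, hz, h.symm⟩
        · exact Or.inr ⟨z, hz, h.symm⟩
      · rintro (⟨z, hz, rfl⟩ | ⟨z, hz, rfl⟩)
        · exact hgN z hz _ (hgU z) (hgR z)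
        · exact hgN z hz _ (hnegU z) (RI_neg (hgR z))
    have hdis : Disjoint (g '' bddY S ψ φ B) ((fun z => -g z) '' bddY S ψ φ B) := by
      rw [Set.disjoint_left]
      rintro _ ⟨z, hz, rfl⟩ ⟨z', hz', he⟩
      simp only at he
      have h1 : z.1 = z'.1 := RI_unique (hgR z) (he ▸ RI_neg (hgR z'))
      obtain ⟨w, hw, hwz, hin⟩ := (PtY_iff (hgU z) (hgR z)).1 hz.1.1
      obtain ⟨w', hw', hwz', hin'⟩ := (PtY_iff (hnegU z') (RI_neg (hgR z'))).1 hz'.1.1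
      have hm := (hgN z hz _ (hgU z) (hgR z)).2.1
      rw [he] at hin'
      have h2 : z.2 = z'.2 := by
        rcases planes_of hw hw' hin hin' hm with h | h
        · rw [h] at hwz'
          exact RI_unique hwz hwz'
        · rw [h] at hwz'
          exact RI_unique (RI_neg hwz) hwz'
      have h3 : z = z' := Prod.ext h1 h2
      rw [← h3] at he
      have h4 : g z = 0 := by
        funext q
        have := congrFun he q
        simp only [Pi.neg_apply, Pi.zero_apply] at this ⊢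
        omega
      exact unimod_ne (hgU z) h4
    have hf1 : (g '' bddY S ψ φ B).Finite := hfin.subset (by rw [hU]; exact Set.subset_union_left)
    have hf2 : ((fun z => -g z) '' bddY S ψ φ B).Finite :=
      hfin.subset (by rw [hU]; exact Set.subset_union_right)
    rw [hU, Set.ncard_union_eq hdis hf1 hf2, Set.ncard_image_of_injOn hinj,
      Set.ncard_image_of_injOn hinj2, two_mul]
  refine ⟨L / 2, by positivity, ?_⟩
  have h1 := hlim.div_const 2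
  refine h1.congr fun B => ?_
  rw [hcard B]
  push_cast
  ring

end Pool.Agent.KS6_53.Y4
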